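import Mathlib

/-!
# Extension of an absolute value to an algebraically closed field
-/

namespace Pool.Agent.V7H78.UB

universe u

/-- A nonarchimedean absolute value extends to an algebraically closed field. -/
theorem exists_ext {K : Type u} [Field K] (v : AbsoluteValue K ℝ) (hv : IsNonarchimedean v)
    (hnt : ∃ x, 1 < v x) :
    ∃ (Ω : Type u) (_ : Field Ω) (_ : IsAlgClosed Ω) (i : K →+* Ω) (w : AbsoluteValue Ω ℝ),
      IsNonarchimedean w ∧ ∀ x, w (i x) = v x := by
  obtain ⟨x0, hx0⟩ := hnt
  let K' := v.Completion
  have hK' : ∀ x y : K', ‖x + y‖ ≤ max ‖x‖ ‖y‖ := by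
    intro x y
    induction x, y using UniformSpace.Completion.induction_on₂ with
    | hp =>
      exact isClosed_le (by fun_prop) (by fun_prop)
    | ih a b =>
      rw [← UniformSpace.Completion.coe_add, UniformSpace.Completion.norm_coe,
        UniformSpace.Completion.norm_coe, UniformSpace.Completion.norm_coe,
        WithAbs.norm_eq_apply_ofAbs, WithAbs.norm_eq_apply_ofAbs, WithAbs.norm_eq_apply_ofAbs]
      exact hv _ _
  have hult : IsUltrametricDist K' :=
    IsUltrametricDist.isUltrametricDist_of_forall_norm_add_le_max_norm hK'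
  let j : K →+* K' :=
    (UniformSpace.Completion.coeRingHom (α := WithAbs v)).comp
      (WithAbs.equiv v).symm.toRingHom
  have hj : ∀ x, ‖j x‖ = v x := by
    intro x
    have h1 : j x = ((WithAbs.toAbs v x : WithAbs v) : K') := rfl
    rw [h1, UniformSpace.Completion.norm_coe, WithAbs.norm_eq_apply_ofAbs]
  letI : NontriviallyNormedField K' :=
    { (inferInstance : NormedField K') with
      non_trivial := ⟨j x0, by rw [hj]; exact hx0⟩ }
  let Ω := AlgebraicClosure K'
  let w0 := spectralMulAlgNorm K' Ω
  have hw0 : ∀ x : Ω, w0 x = spectralNorm K' Ω x := fun _ => rfl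
  refine ⟨Ω, inferInstance, inferInstance, (algebraMap K' Ω).comp j,
    { toFun := w0
      map_mul' := map_mul w0
      nonneg' := fun x => apply_nonneg w0 x
      eq_zero' := fun x => map_eq_zero_iff_eq_zero w0
      add_le' := fun x y => map_add_le_add w0 x y }, ?_, ?_⟩
  · intro x y
    exact isNonarchimedean_spectralNorm x y
  · intro x
    show w0 (algebraMap K' Ω (j x)) = v x
    rw [hw0, spectralNorm_extends, ← hj]

end Pool.Agent.V7H78.UB
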