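import Mathlib

/-!
# Gauss norms of polynomials on balls over an algebraically closed valued field
-/

namespace Pool.Agent.V7H78.UB

open Polynomial

section Gauss

variable {L : Type*} [Field L] (w : AbsoluteValue L ℝ)

/-- Gauss norm of `P` on the closed ball of centre `x` and radius `R`. -/
noncomputable def gn (P : L[X]) (x : L) (R : ℝ) : ℝ := (P.comp (X + C x)).gaussNorm w R

/-- The radius of the image of a ball. -/
noncomputable def ph (P : L[X]) (x : L) (R : ℝ) : ℝ := gn w (P - C (P.eval x)) x R

variable {w}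

lemma gaussNorm_add_C (hw : IsNonarchimedean w) {R : ℝ} (hR : 0 < R) (Q : L[X])
    (hQ : Q.coeff 0 = 0) (b : L) :
    (Q + C b).gaussNorm w R = max (Q.gaussNorm w R) (w b) := by
  apply le_antisymm
  · have h := isNonarchimedean_gaussNorm w hw hR.le Q (C b)
    rwa [gaussNorm_C] at h
  · apply max_le
    · obtain ⟨i, hi⟩ := exists_eq_gaussNorm w R Q
      rw [hi]
      rcases Nat.eq_zero_or_pos i with h | h
      · subst h
        rw [hQ, map_zero, zero_mul]
        exact gaussNorm_nonneg w _ hR.le
      · have h2 := le_gaussNorm w (Q + C b) hR.le i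
        rw [coeff_add, coeff_C_ne_zero h.ne', add_zero] at h2
        exact h2
    · have h2 := le_gaussNorm w (Q + C b) hR.le 0
      rw [coeff_add, hQ, coeff_C_zero, zero_add, pow_zero, mul_one] at h2
      exact h2

section basic

variable (hw : IsNonarchimedean w) {R : ℝ} (hR : 0 < R)

include hw hR

lemma gn_mul (P Q : L[X]) (x : L) : gn w (P * Q) x R = gn w P x R * gn w Q x R := by
  unfold gn
  rw [mul_comp, gaussNorm_mul hw hR]

omit hw hR in
lemma gn_C (c x : L) : gn w (C c) x R = w c := by
  simp [gn]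

lemma gn_X_sub_C (a x : L) : gn w (X - C a) x R = max (w (x - a)) R := by
  unfold gn
  have h : (X - C a : L[X]).comp (X + C x) = X + C (x - a) := by
    simp only [sub_comp, X_comp, C_comp, C_sub]
    ring
  rw [h, gaussNorm_add_C hw hR X coeff_X_zero, max_comm]
  congr 1
  have := gaussNorm_monomial w R 1 (1 : L)
  rw [monomial_one_one_eq_X] at this
  rw [this]
  simp

lemma gn_pos {P : L[X]} (hP : P ≠ 0) (x : L) : 0 < gn w P x R := by
  unfold gn
  have h1 := gaussNorm_nonneg w (P.comp (X + C x)) hR.le
  rcases h1.lt_or_eq with h | h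
  · exact h
  · exfalso
    have h2 := (gaussNorm_eq_zero_iff w (P.comp (X + C x))
      (fun y hy => (AbsoluteValue.eq_zero w).mp hy) hR).mp h.symm
    apply hP
    have h3 := congrArg (fun Q : L[X] => Q.comp (X - C x)) h2
    simpa [comp_assoc] using h3

lemma gn_sub_C (P : L[X]) (x η : L) :
    gn w (P - C η) x R = max (ph w P x R) (w (P.eval x - η)) := by
  unfold ph gn
  have h : (P - C η).comp (X + C x) =
      (P - C (P.eval x)).comp (X + C x) + C (P.eval x - η) := by
    simp only [sub_comp, C_comp, C_sub]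
    ring
  rw [h, gaussNorm_add_C hw hR]
  rw [coeff_zero_eq_eval_zero, eval_comp]
  simp

lemma gn_eq_max (P : L[X]) (x : L) : gn w P x R = max (ph w P x R) (w (P.eval x)) := by
  have := gn_sub_C hw hR P x 0
  simpa using this

lemma ph_nonneg (P : L[X]) (x : L) : 0 ≤ ph w P x R := by
  unfold ph gn
  exact gaussNorm_nonneg w _ hR.le

omit hw in
lemma eval_le_gn' (P : L[X]) (x : L) : w (P.eval x) ≤ gn w P x R := by
  unfold gn
  have h2 := le_gaussNorm w (P.comp (X + C x)) hR.le 0
  rw [coeff_zero_eq_eval_zero, eval_comp] at h2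
  simpa using h2

lemma gn_prod (s : Multiset L) (x : L) :
    gn w (s.map fun ξ => X - C ξ).prod x R = (s.map fun ξ => max (w (x - ξ)) R).prod := by
  induction s using Multiset.induction_on with
  | empty =>
    have := gn_C (w := w) (R := R) 1 x
    simpa using this
  | cons a s ih =>
    rw [Multiset.map_cons, Multiset.prod_cons, gn_mul hw hR, ih, gn_X_sub_C hw hR,
      Multiset.map_cons, Multiset.prod_cons]

variable [IsAlgClosed L]

lemma gn_roots (P : L[X]) (x : L) :
    gn w P x R = w P.leadingCoeff * (P.roots.map fun ξ => max (w (x - ξ)) R).prod := by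
  conv_lhs => rw [(IsAlgClosed.splits P).eq_prod_roots]
  rw [gn_mul hw hR, gn_C, gn_prod hw hR]

lemma gn_roots_monic {P : L[X]} (hP : P.Monic) (x : L) :
    gn w P x R = (P.roots.map fun ξ => max (w (x - ξ)) R).prod := by
  rw [gn_roots hw hR, hP.leadingCoeff, map_one, one_mul]

/-- Every point of a ball is a centre. -/
lemma gn_center (P : L[X]) {x y : L} (hxy : w (x - y) ≤ R) : gn w P x R = gn w P y R := by
  rw [gn_roots hw hR, gn_roots hw hR]
  congr 2
  apply Multiset.map_congr rfl
  intro ξ _
  have h1 : w (x - ξ) ≤ max (w (x - y)) (w (y - ξ)) := by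
    have := hw (x - y) (y - ξ)
    rwa [sub_add_sub_cancel] at this
  have h2 : w (y - ξ) ≤ max (w (x - y)) (w (x - ξ)) := by
    have := hw (y - x) (x - ξ)
    rw [sub_add_sub_cancel] at this
    rwa [AbsoluteValue.map_sub w y x] at this
  apply le_antisymm
  · apply max_le _ (le_max_right _ _)
    exact h1.trans (max_le (hxy.trans (le_max_right _ _)) (le_max_left _ _))
  · apply max_le _ (le_max_right _ _)
    exact h2.trans (max_le (hxy.trans (le_max_right _ _)) (le_max_left _ _))

lemma eval_le_gn (P : L[X]) {x y : L} (hxy : w (x - y) ≤ R) : w (P.eval y) ≤ gn w P x R := by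
  rw [gn_center hw hR P hxy]
  exact eval_le_gn' hR P y

lemma eval_sub_le_ph (P : L[X]) {x y : L} (hxy : w (x - y) ≤ R) :
    w (P.eval x - P.eval y) ≤ ph w P x R := by
  have := eval_le_gn hw hR (P - C (P.eval x)) hxy
  rw [eval_sub, eval_C, AbsoluteValue.map_sub w] at this
  exact this

lemma ph_center (P : L[X]) {x y : L} (hxy : w (x - y) ≤ R) : ph w P x R = ph w P y R := by
  have key : ∀ {x y : L}, w (x - y) ≤ R → ph w P y R ≤ ph w P x R := by
    intro x y hxy
    have h1 : ph w P y R = gn w (P - C (P.eval y)) x R := (gn_center hw hR _ hxy).symm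
    rw [h1, gn_sub_C hw hR]
    exact max_le le_rfl (eval_sub_le_ph hw hR P hxy)
  apply le_antisymm
  · apply key
    rwa [AbsoluteValue.map_sub w]
  · exact key hxy

/-- Image of a ball under a composition. -/
lemma gn_comp (P Q : L[X]) (x : L) (hQ : 0 < ph w Q x R) :
    gn w (P.comp Q) x R = gn w P (Q.eval x) (ph w Q x R) := by
  rw [gn_roots hw hQ]
  conv_lhs => rw [(IsAlgClosed.splits P).eq_prod_roots]
  rw [mul_comp, C_comp, gn_mul hw hR, gn_C]
  congr 1
  generalize P.roots = s
  induction s using Multiset.induction_on with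
  | empty =>
    have := gn_C (w := w) (R := R) 1 x
    simpa using this
  | cons a s ih =>
    rw [Multiset.map_cons, Multiset.prod_cons, mul_comp, gn_mul hw hR, ih, sub_comp, X_comp,
      C_comp, gn_sub_C hw hR, Multiset.map_cons, Multiset.prod_cons, max_comm]

lemma ph_comp (P Q : L[X]) (x : L) (hQ : 0 < ph w Q x R) :
    ph w (P.comp Q) x R = ph w P (Q.eval x) (ph w Q x R) := by
  have h : P.comp Q - C ((P.comp Q).eval x) = (P - C (P.eval (Q.eval x))).comp Q := by
    rw [sub_comp, C_comp, eval_comp]
  unfold ph at hQ ⊢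
  rw [h]
  exact gn_comp hw hR _ Q x hQ

lemma ph_pos {P : L[X]} (hP : 0 < P.natDegree) (x : L) : 0 < ph w P x R := by
  apply gn_pos hw hR
  intro h
  rw [sub_eq_zero] at h
  rw [h, natDegree_C] at hP
  exact lt_irrefl _ hP

end basic

end Gauss

end Pool.Agent.V7H78.UB
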