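import Mathlib
import Pool.Agent.V7H78.UB.Ball

/-!
# Levels of the filled Julia set of a polynomial with bad reduction
-/

namespace Pool.Agent.V7H78.UB

open Polynomial

section Growth

variable {L : Type*} [Field L] [IsAlgClosed L] {w : AbsoluteValue L ℝ}
  (hw : IsNonarchimedean w) {R R' : ℝ} (hR : 0 < R) (hRR : R ≤ R')

lemma prod_mono {s : Multiset ℝ} (hR : 0 ≤ R) (hRR : R ≤ R') :
    0 ≤ (s.map fun a => max a R).prod ∧
    (s.map fun a => max a R).prod ≤ (s.map fun a => max a R').prod := by
  induction s using Multiset.induction_on with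
  | empty => simp
  | cons a s ih =>
    simp only [Multiset.map_cons, Multiset.prod_cons]
    have h0 : 0 ≤ max a R := hR.trans (le_max_right _ _)
    have h1 : max a R ≤ max a R' := max_le_max le_rfl hRR
    exact ⟨mul_nonneg h0 ih.1, mul_le_mul h1 ih.2 ih.1 (h0.trans h1)⟩

lemma prod_growth {s : Multiset ℝ} (hR : 0 < R) (hRR : R ≤ R') :
    (s.map fun a => max a R').prod ≤
      (s.map fun a => max a R).prod * (R' / R) ^ (Multiset.card s) := by
  induction s using Multiset.induction_on with
  | empty => simp
  | cons a s ih =>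
    simp only [Multiset.map_cons, Multiset.prod_cons, Multiset.card_cons]
    have hq : 1 ≤ R' / R := (one_le_div hR).mpr hRR
    have h0 : 0 < max a R := lt_of_lt_of_le hR (le_max_right _ _)
    have h1 : max a R' ≤ max a R * (R' / R) := by
      apply max_le
      · calc a ≤ max a R := le_max_left _ _
          _ = max a R * 1 := (mul_one _).symm
          _ ≤ max a R * (R' / R) := mul_le_mul_of_nonneg_left hq h0.le
      · calc R' = R * (R' / R) := by field_simp
          _ ≤ max a R * (R' / R) := mul_le_mul_of_nonneg_right (le_max_right _ _)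
              (zero_le_one.trans hq)
    have h2 := (prod_mono (s := s) (hR.le.trans hRR) (le_refl R')).1
    calc max a R' * (s.map fun a => max a R').prod
        ≤ (max a R * (R' / R)) * ((s.map fun a => max a R).prod * (R' / R) ^ (Multiset.card s)) :=
          mul_le_mul h1 ih h2 (mul_nonneg h0.le (zero_le_one.trans hq))
      _ = _ := by ring

lemma prod_continuous (s : Multiset ℝ) : Continuous fun R : ℝ => (s.map fun a => max a R).prod := by
  induction s using Multiset.induction_on with
  | empty => simpa using continuous_const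
  | cons a s ih =>
    simp only [Multiset.map_cons, Multiset.prod_cons]
    exact (continuous_const.max continuous_id).mul ih

include hw hR

lemma gn_roots' (P : L[X]) (x : L) :
    gn w P x R = w P.leadingCoeff * (((P.roots.map fun ξ => w (x - ξ))).map
      fun a => max a R).prod := by
  rw [gn_roots hw hR, Multiset.map_map]
  rfl

include hRR in
lemma gn_mono (P : L[X]) (x : L) : gn w P x R ≤ gn w P x R' := by
  rw [gn_roots' hw hR, gn_roots' hw (hR.trans_le hRR)]
  exact mul_le_mul_of_nonneg_left (prod_mono hR.le hRR).2 (apply_nonneg w _)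

include hRR in
lemma gn_growth (P : L[X]) (x : L) :
    gn w P x R' ≤ gn w P x R * (R' / R) ^ P.natDegree := by
  rw [gn_roots' hw hR, gn_roots' hw (hR.trans_le hRR), mul_assoc]
  have h1 := prod_growth (s := P.roots.map fun ξ => w (x - ξ)) hR hRR
  rw [Multiset.card_map, ← (IsAlgClosed.splits P).natDegree_eq_card_roots] at h1
  exact mul_le_mul_of_nonneg_left h1 (apply_nonneg w _)

include hRR in
lemma gn_growth_below (P : L[X]) (x : L) (m : ℕ) (hm : (X - C x) ^ m ∣ P) :
    gn w P x R * (R' / R) ^ m ≤ gn w P x R' := by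
  obtain ⟨Q, rfl⟩ := hm
  have hR' := hR.trans_le hRR
  have key : ∀ {S : ℝ}, 0 < S → gn w ((X - C x) ^ m) x S = S ^ m := by
    intro S hS
    induction m with
    | zero =>
      have := gn_C (w := w) (R := S) 1 x
      simpa using this
    | succ m ih =>
      rw [pow_succ, gn_mul hw hS, ih, gn_X_sub_C hw hS, sub_self, map_zero,
        max_eq_right hS.le, pow_succ]
  rw [gn_mul hw hR, gn_mul hw hR', key hR, key hR']
  have h1 := gn_mono hw hR hRR Q x
  have h2 : R ^ m * (R' / R) ^ m = R' ^ m := by
    rw [← mul_pow]
    congr 1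
    field_simp
  calc R ^ m * gn w Q x R * (R' / R) ^ m = (R ^ m * (R' / R) ^ m) * gn w Q x R := by ring
    _ = R' ^ m * gn w Q x R := by rw [h2]
    _ ≤ R' ^ m * gn w Q x R' := mul_le_mul_of_nonneg_left h1 (by positivity)

lemma natDegree_sub_C' (P : L[X]) (c : L) : (P - C c).natDegree = P.natDegree := natDegree_sub_C

omit [IsAlgClosed L] hw hR in
lemma X_sub_dvd (P : L[X]) (x : L) : (X - C x) ^ 1 ∣ P - C (P.eval x) := by
  rw [pow_one]
  exact dvd_iff_isRoot.mpr (by simp)

include hRR in
lemma ph_mono (P : L[X]) (x : L) : ph w P x R ≤ ph w P x R' := gn_mono hw hR hRR _ x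

include hRR in
lemma ph_growth (P : L[X]) (x : L) :
    ph w P x R' ≤ ph w P x R * (R' / R) ^ P.natDegree := by
  have := gn_growth hw hR hRR (P - C (P.eval x)) x
  rwa [natDegree_sub_C] at this

include hRR in
lemma ph_growth_below (P : L[X]) (x : L) (m : ℕ) (hm : (X - C x) ^ m ∣ P - C (P.eval x)) :
    ph w P x R * (R' / R) ^ m ≤ ph w P x R' := gn_growth_below hw hR hRR _ x m hm

lemma ph_strict {P : L[X]} (hP : 0 < P.natDegree) (x : L) (h : R < R') :
    ph w P x R < ph w P x R' := by
  have h1 := ph_growth_below hw hR h.le P x 1 (X_sub_dvd P x)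
  have h2 := ph_pos hw hR hP x
  have h3 : 1 < (R' / R) ^ 1 := by
    rw [pow_one]
    exact (one_lt_div hR).mpr h
  calc ph w P x R = ph w P x R * 1 := (mul_one _).symm
    _ < ph w P x R * (R' / R) ^ 1 := mul_lt_mul_of_pos_left h3 h2
    _ ≤ _ := h1

omit hR in
/-- The radius of the component of `P⁻¹ (ball of radius T)` which contains `x`. -/
lemma exists_rad {P : L[X]} (hm : P.Monic) (hP : 0 < P.natDegree) (x : L) {T : ℝ} (hT : 1 ≤ T) :
    ∃ R, 0 < R ∧ R ≤ T ∧ ph w P x R = T := by
  have hT0 : 0 < T := zero_lt_one.trans_le hT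
  have hmon : (P - C (P.eval x)).Monic := by
    apply Monic.sub_of_left hm
    rw [degree_eq_natDegree hm.ne_zero]
    exact lt_of_le_of_lt degree_C_le (by exact_mod_cast hP)
  set s : Multiset ℝ := (P - C (P.eval x)).roots.map fun ξ => w (x - ξ) with hs
  have hform : ∀ {S : ℝ}, 0 < S → ph w P x S = (s.map fun a => max a S).prod := by
    intro S hS
    unfold ph
    rw [gn_roots' hw hS, hmon.leadingCoeff, map_one, one_mul]
  have h0 : (s.map fun a => max a 0).prod = 0 := by
    apply Multiset.prod_eq_zero
    rw [Multiset.mem_map]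
    refine ⟨0, ?_, by simp⟩
    rw [hs, Multiset.mem_map]
    refine ⟨x, ?_, by simp⟩
    rw [mem_roots hmon.ne_zero]
    simp
  have h1 : T ≤ (s.map fun a => max a T).prod := by
    rw [← hform hT0]
    have hcard : Multiset.card s = P.natDegree := by
      rw [hs, Multiset.card_map, ← (IsAlgClosed.splits _).natDegree_eq_card_roots,
        natDegree_sub_C]
    have key : ∀ t : Multiset ℝ, T ^ (Multiset.card t) ≤ (t.map fun a => max a T).prod := by
      intro t
      induction t using Multiset.induction_on with
      | empty => simp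
      | cons a t ih =>
        simp only [Multiset.map_cons, Multiset.prod_cons, Multiset.card_cons, pow_succ']
        exact mul_le_mul (le_max_right _ _) ih (by positivity)
          (hT0.le.trans (le_max_right _ _))
    have h2 := key s
    rw [hcard, ← hform hT0] at h2
    exact (le_self_pow₀ hT hP.ne').trans h2
  have hcont := (prod_continuous s).continuousOn (s := Set.Icc 0 T)
  have h2 := intermediate_value_Icc hT0.le hcont
  have h3 : T ∈ Set.Icc ((s.map fun a => max a 0).prod) ((s.map fun a => max a T).prod) := by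
    rw [h0]
    exact ⟨hT0.le, h1⟩
  obtain ⟨R, hR, hR2⟩ := h2 h3
  have hR0 : 0 < R := by
    rcases hR.1.lt_or_eq with h | h
    · exact h
    · exfalso
      rw [← h] at hR2
      have : (s.map fun a => max a 0).prod = T := hR2
      rw [h0] at this
      exact hT0.ne this
  exact ⟨R, hR0, hR.2, by rw [hform hR0]; exact hR2⟩

end Growth

end Pool.Agent.V7H78.UB
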