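import Mathlib
import Pool.Agent.V7H78.UB.Level

/-!
# Dynamics at a place of bad reduction
-/

namespace Pool.Agent.V7H78.UB

open Polynomial

section It

variable {L : Type*} [Field L]

/-- The iterates of a polynomial. -/
noncomputable def it (f : L[X]) : ℕ → L[X]
  | 0 => X
  | n + 1 => f.comp (it f n)

lemma it_add (f : L[X]) (a b : ℕ) : it f (a + b) = (it f a).comp (it f b) := by
  induction a with
  | zero => simp [it]
  | succ a ih =>
    rw [Nat.succ_add, it, ih, it, comp_assoc]

lemma it_one (f : L[X]) : it f 1 = f := by simp [it]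

lemma it_eval_succ (f : L[X]) (n : ℕ) (x : L) :
    (it f (n + 1)).eval x = f.eval ((it f n).eval x) := by
  rw [it, eval_comp]

lemma it_eval_add (f : L[X]) (a b : ℕ) (x : L) :
    (it f (a + b)).eval x = (it f a).eval ((it f b).eval x) := by
  rw [it_add, eval_comp]

lemma it_natDegree (f : L[X]) (n : ℕ) : (it f n).natDegree = f.natDegree ^ n := by
  induction n with
  | zero => simp [it]
  | succ n ih => rw [it, natDegree_comp, ih, pow_succ']

lemma it_monic {f : L[X]} (hf : f.Monic) (hd : f.natDegree ≠ 0) (n : ℕ) : (it f n).Monic := by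
  induction n with
  | zero => exact monic_X
  | succ n ih =>
    rw [it]
    apply hf.comp ih
    rw [it_natDegree]
    exact pow_ne_zero n hd

lemma it_dvd {p : ℕ} [Fact p.Prime] [CharP L p] {f : L[X]} (hf : ∃ h : L[X], f = h ^ p) (x : L)
    (n : ℕ) : (X - C x) ^ (p ^ n) ∣ it f n - C ((it f n).eval x) := by
  obtain ⟨h, rfl⟩ := hf
  induction n with
  | zero => simp [it]
  | succ n ih =>
    have h1 : it (h ^ p) (n + 1) - C ((it (h ^ p) (n + 1)).eval x) =
        (h.comp (it (h ^ p) n) - h.comp (C ((it (h ^ p) n).eval x))) ^ p := by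
      rw [sub_pow_char, it_eval_succ, it, pow_comp]
      congr 1
      rw [comp_C, eval_pow, C_pow]
    rw [h1, pow_succ, pow_mul]
    apply pow_dvd_pow_of_dvd
    refine ih.trans ?_
    have h2 := sub_dvd_eval_sub (it (h ^ p) n) (C ((it (h ^ p) n).eval x)) (h.map C)
    rwa [eval_map, eval_map] at h2

end It

section Ultra

variable {L : Type*} [Field L] {w : AbsoluteValue L ℝ} (hw : IsNonarchimedean w)

include hw

lemma um (x y z : L) : w (x - z) ≤ max (w (x - y)) (w (y - z)) := by
  have := hw (x - y) (y - z)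
  rwa [sub_add_sub_cancel] at this

lemma um_eq {x y z : L} (h : w (x - y) < w (y - z)) : w (x - z) = w (y - z) := by
  have := IsNonarchimedean.add_eq_right_of_lt hw h
  rwa [sub_add_sub_cancel] at this

lemma um_zero {x y : L} {T : ℝ} (hx : w x ≤ T) (hy : w y ≤ T) : w (x - y) ≤ T := by
  have := um hw x 0 y
  rw [sub_zero, zero_sub, AbsoluteValue.map_neg] at this
  exact this.trans (max_le hx hy)

end Ultra

lemma root_le_aux {L : Type*} [Field L] [IsAlgClosed L] {w : AbsoluteValue L ℝ}
    (hw : IsNonarchimedean w) {f : L[X]} {T : ℝ} (hT : 0 < T) (hmon : f.Monic)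
    (htop : gn w f 0 T = T ^ f.natDegree) {ξ : L} (hξ : f.eval ξ = 0) : w ξ ≤ T := by
  have h1 := htop
  rw [gn_roots_monic hw hT hmon, (IsAlgClosed.splits f).natDegree_eq_card_roots] at h1
  have hmem : ξ ∈ f.roots := by
    rw [mem_roots hmon.ne_zero]
    exact hξ
  obtain ⟨t, ht⟩ := Multiset.exists_cons_of_mem hmem
  rw [ht, Multiset.map_cons, Multiset.prod_cons, Multiset.card_cons, pow_succ'] at h1
  have key : ∀ t : Multiset L, T ^ (Multiset.card t) ≤ (t.map fun a => max (w (0 - a)) T).prod := by
    intro t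
    induction t using Multiset.induction_on with
    | empty => simp
    | cons a t ih =>
      simp only [Multiset.map_cons, Multiset.prod_cons, Multiset.card_cons, pow_succ']
      exact mul_le_mul (le_max_right _ _) ih (by positivity) (hT.le.trans (le_max_right _ _))
  have h2 := key t
  by_contra hcon
  push Not at hcon
  have h3 : T < max (w (0 - ξ)) T := by
    rw [zero_sub, AbsoluteValue.map_neg]
    exact lt_max_of_lt_left hcon
  have h4 : T * T ^ (Multiset.card t) < max (w (0 - ξ)) T *
      (t.map fun a => max (w (0 - a)) T).prod :=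
    mul_lt_mul h3 h2 (by positivity) (hT.le.trans (le_max_right _ _))
  linarith

/-- A polynomial with bad reduction, in normalised form. -/
structure Bad {L : Type*} [Field L] (w : AbsoluteValue L ℝ) (p : ℕ) (f : L[X]) (T : ℝ) : Prop where
  na : IsNonarchimedean w
  monic : f.Monic
  deg : 2 ≤ f.natDegree
  one_lt : 1 < T
  top : gn w f 0 T = T ^ f.natDegree
  far : ∃ η, w η = T ∧ f.eval η = 0
  zero_in : w (f.eval 0) ≤ T
  pow : ∃ h : L[X], f = h ^ p

namespace Bad

variable {L : Type*} [Field L] [IsAlgClosed L] {w : AbsoluteValue L ℝ} {p : ℕ} {f : L[X]} {T : ℝ}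
  (h : Bad w p f T)

include h

omit [IsAlgClosed L] in
lemma T_pos : 0 < T := zero_lt_one.trans h.one_lt

omit [IsAlgClosed L] in
lemma deg_pos : 0 < f.natDegree := by have := h.deg; omega

omit [IsAlgClosed L] in
lemma it_mon (n : ℕ) : (it f n).Monic := it_monic h.monic h.deg_pos.ne' n

omit [IsAlgClosed L] in
lemma it_deg_pos (n : ℕ) : 0 < (it f n).natDegree := by
  rw [it_natDegree]
  exact pow_pos h.deg_pos n

lemma root_le {ξ : L} (hξ : f.eval ξ = 0) : w ξ ≤ T :=
  root_le_aux h.na h.T_pos h.monic h.top hξ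

lemma eval_of_lt {z : L} (hz : T < w z) : w (f.eval z) = w z ^ f.natDegree := by
  rw [(IsAlgClosed.splits f).eval_eq_prod_roots_of_monic h.monic z, map_multiset_prod,
    Multiset.map_map]
  have h1 : ∀ ξ ∈ f.roots, (w ∘ fun a => z - a) ξ = w z := by
    intro ξ hξ
    have h2 := h.root_le ((mem_roots h.monic.ne_zero).mp hξ)
    have h3 : w (-ξ) < w z := by
      rw [AbsoluteValue.map_neg]
      exact h2.trans_lt hz
    have h4 := IsNonarchimedean.add_eq_left_of_lt h.na h3
    rwa [← sub_eq_add_neg] at h4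
  rw [Multiset.map_congr rfl h1, Multiset.map_const', Multiset.prod_replicate,
    ← (IsAlgClosed.splits f).natDegree_eq_card_roots]

lemma lt_eval {z : L} (hz : T < w z) : T < w (f.eval z) := by
  rw [h.eval_of_lt hz]
  have h1 : 1 ≤ w z := (h.one_lt.trans hz).le
  exact hz.trans_le (le_self_pow₀ h1 h.deg_pos.ne')

lemma mem_of_mem {n : ℕ} {x : L} (hx : w ((it f (n + 1)).eval x) ≤ T) :
    w ((it f n).eval x) ≤ T := by
  by_contra hcon
  push Not at hcon
  have := h.lt_eval hcon
  rw [← it_eval_succ] at this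
  linarith

lemma mem_of_le {m n : ℕ} (hmn : m ≤ n) {x : L} (hx : w ((it f n).eval x) ≤ T) :
    w ((it f m).eval x) ≤ T := by
  obtain ⟨k, rfl⟩ := Nat.exists_eq_add_of_le hmn
  induction k with
  | zero => exact hx
  | succ k ih => exact ih (Nat.le_add_right _ _) (h.mem_of_mem hx)

lemma mem_zero {n : ℕ} {x : L} (hx : w ((it f n).eval x) ≤ T) : w x ≤ T := by
  have := h.mem_of_le (Nat.zero_le n) hx
  simpa [it] using this

lemma ph_top {x : L} (hx : w x ≤ T) : ph w f x T = T ^ f.natDegree := by
  have hT := h.T_pos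
  have h0 : w (0 - x) ≤ T := by rwa [zero_sub, AbsoluteValue.map_neg]
  have h1 : ph w f x T = gn w (f - C (f.eval x)) 0 T := (gn_center h.na hT _ h0).symm
  have h2 : w (f.eval x) ≤ T ^ f.natDegree := by
    rw [← h.top]
    exact eval_le_gn h.na hT f h0
  apply le_antisymm
  · rw [h1, gn_sub_C h.na hT]
    apply max_le
    · rw [← h.top, gn_eq_max h.na hT f 0]
      exact le_max_left _ _
    · have h3 : w (f.eval 0) ≤ T ^ f.natDegree := by
        rw [← h.top]
        exact eval_le_gn' hT f 0
      have h4 := um h.na (f.eval 0) 0 (f.eval x)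
      rw [sub_zero, zero_sub, AbsoluteValue.map_neg] at h4
      exact h4.trans (max_le h3 h2)
  · rw [h1]
    have hmon : (f - C (f.eval x)).Monic := by
      apply Monic.sub_of_left h.monic
      rw [degree_eq_natDegree h.monic.ne_zero]
      exact lt_of_le_of_lt degree_C_le (by exact_mod_cast h.deg_pos)
    rw [gn_roots_monic h.na hT hmon]
    have key : ∀ t : Multiset L,
        T ^ (Multiset.card t) ≤ (t.map fun a => max (w (0 - a)) T).prod := by
      intro t
      induction t using Multiset.induction_on with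
      | empty => simp
      | cons a t ih =>
        simp only [Multiset.map_cons, Multiset.prod_cons, Multiset.card_cons, pow_succ']
        exact mul_le_mul (le_max_right _ _) ih (by positivity) (hT.le.trans (le_max_right _ _))
    have h5 := key (f - C (f.eval x)).roots
    rwa [← (IsAlgClosed.splits _).natDegree_eq_card_roots, natDegree_sub_C] at h5

lemma exists_rad' (n : ℕ) (x : L) : ∃ R, 0 < R ∧ R ≤ T ∧ ph w (it f n) x R = T :=
  exists_rad h.na (h.it_mon n) (h.it_deg_pos n) x h.one_lt.le

end Bad

open Classical in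
/-- The radius of the level `n` component at `x`. -/
noncomputable def rad {L : Type*} [Field L] (w : AbsoluteValue L ℝ) (f : L[X]) (T : ℝ) (n : ℕ)
    (x : L) : ℝ :=
  if hx : ∃ R, 0 < R ∧ R ≤ T ∧ ph w (it f n) x R = T then hx.choose else 1

namespace Bad

variable {L : Type*} [Field L] [IsAlgClosed L] {w : AbsoluteValue L ℝ} {p : ℕ} {f : L[X]} {T : ℝ}
  (h : Bad w p f T)

include h

lemma rad_spec (n : ℕ) (x : L) :
    0 < rad w f T n x ∧ rad w f T n x ≤ T ∧ ph w (it f n) x (rad w f T n x) = T := by
  have hx := h.exists_rad' n x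
  unfold rad
  rw [dif_pos hx]
  exact hx.choose_spec

lemma rad_pos (n : ℕ) (x : L) : 0 < rad w f T n x := (h.rad_spec n x).1

lemma rad_le (n : ℕ) (x : L) : rad w f T n x ≤ T := (h.rad_spec n x).2.1

lemma ph_rad (n : ℕ) (x : L) : ph w (it f n) x (rad w f T n x) = T := (h.rad_spec n x).2.2

lemma rad_unique {n : ℕ} {x : L} {R : ℝ} (hR : 0 < R) (hR2 : ph w (it f n) x R = T) :
    R = rad w f T n x := by
  rcases lt_trichotomy R (rad w f T n x) with h1 | h1 | h1
  · have := ph_strict h.na hR (h.it_deg_pos n) x h1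
    rw [hR2, h.ph_rad] at this
    exact absurd this (lt_irrefl _)
  · exact h1
  · have := ph_strict h.na (h.rad_pos n x) (h.it_deg_pos n) x h1
    rw [hR2, h.ph_rad] at this
    exact absurd this (lt_irrefl _)

lemma lt_ph_of_lt {n : ℕ} {x : L} {R : ℝ} (hR : rad w f T n x < R) : T < ph w (it f n) x R := by
  have := ph_strict h.na (h.rad_pos n x) (h.it_deg_pos n) x hR
  rwa [h.ph_rad] at this

lemma ph_lt_of_lt {n : ℕ} {x : L} {R : ℝ} (hR0 : 0 < R) (hR : R < rad w f T n x) :
    ph w (it f n) x R < T := by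
  have := ph_strict h.na hR0 (h.it_deg_pos n) x hR
  rwa [h.ph_rad] at this

lemma rad_center {n : ℕ} {x y : L} (hxy : w (x - y) ≤ rad w f T n x) :
    rad w f T n y = rad w f T n x := by
  symm
  apply h.rad_unique (h.rad_pos n x)
  rw [← ph_center h.na (h.rad_pos n x) _ hxy, h.ph_rad]

lemma rad_zero (x : L) : rad w f T 0 x = T := by
  symm
  apply h.rad_unique h.T_pos
  unfold ph
  rw [it, eval_X, gn_X_sub_C h.na h.T_pos, sub_self, map_zero, max_eq_right h.T_pos.le]

lemma ph_succ {n : ℕ} {x : L} (hx : w ((it f n).eval x) ≤ T) :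
    ph w (it f (n + 1)) x (rad w f T n x) = T ^ f.natDegree := by
  rw [it, ph_comp h.na (h.rad_pos n x), h.ph_rad, h.ph_top hx]
  rw [h.ph_rad]
  exact h.T_pos

lemma rad_lt {n : ℕ} {x : L} (hx : w ((it f n).eval x) ≤ T) :
    rad w f T (n + 1) x < rad w f T n x := by
  by_contra hcon
  push Not at hcon
  have h1 := ph_mono h.na (h.rad_pos n x) hcon (it f (n + 1)) x
  rw [h.ph_succ hx, h.ph_rad] at h1
  have h2 : T ^ 1 < T ^ f.natDegree := pow_lt_pow_right₀ h.one_lt (by have := h.deg; omega)
  rw [pow_one] at h2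
  linarith

lemma rad_le_of_le {m n : ℕ} (hmn : m ≤ n) {x : L} (hx : w ((it f n).eval x) ≤ T) :
    rad w f T n x ≤ rad w f T m x := by
  obtain ⟨k, rfl⟩ := Nat.exists_eq_add_of_le hmn
  induction k with
  | zero => exact le_rfl
  | succ k ih =>
    have h1 : w ((it f (m + k)).eval x) ≤ T := h.mem_of_mem hx
    exact (h.rad_lt h1).le.trans (ih (Nat.le_add_right _ _) h1)

lemma log_rad_lower {n : ℕ} {x : L} (hx : w ((it f n).eval x) ≤ T) :
    ((f.natDegree : ℝ) - 1) * Real.log T ≤
      (f.natDegree : ℝ) ^ (n + 1) * (Real.log (rad w f T n x) - Real.log (rad w f T (n + 1) x)) := by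
  have h0 := h.rad_pos n x
  have h0' := h.rad_pos (n + 1) x
  have hT := h.T_pos
  have h1 := ph_growth h.na h0' (h.rad_lt hx).le (it f (n + 1)) x
  rw [h.ph_succ hx, h.ph_rad, it_natDegree] at h1
  have h2 := Real.log_le_log (by positivity) h1
  rw [Real.log_mul (by positivity) (by positivity), Real.log_pow, Real.log_pow,
    Real.log_div h0.ne' h0'.ne'] at h2
  push_cast at h2
  linarith

lemma log_rad_upper [Fact p.Prime] [CharP L p] {n : ℕ} {x : L}
    (hx : w ((it f n).eval x) ≤ T) :
    (p : ℝ) ^ (n + 1) * (Real.log (rad w f T n x) - Real.log (rad w f T (n + 1) x)) ≤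
      ((f.natDegree : ℝ) - 1) * Real.log T := by
  have h0 := h.rad_pos n x
  have h0' := h.rad_pos (n + 1) x
  have hT := h.T_pos
  have h1 := ph_growth_below h.na h0' (h.rad_lt hx).le (it f (n + 1)) x (p ^ (n + 1))
    (it_dvd h.pow x (n + 1))
  rw [h.ph_succ hx, h.ph_rad] at h1
  have h2 := Real.log_le_log (by positivity) h1
  rw [Real.log_mul (by positivity) (by positivity), Real.log_pow, Real.log_pow,
    Real.log_div h0.ne' h0'.ne'] at h2
  push_cast at h2
  linarith

/-- Surjectivity of the iterates from a component onto the big disc. -/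
lemma exists_root {n : ℕ} {x y : L} (hxy : w ((it f n).eval x - y) ≤ T) :
    ∃ ξ, (it f n).eval ξ = y ∧ w (x - ξ) ≤ rad w f T n x := by
  by_contra hcon
  push Not at hcon
  have hR := h.rad_pos n x
  set R := rad w f T n x with hRdef
  set P : L[X] := it f n - C y with hP
  have hmon : P.Monic := by
    apply Monic.sub_of_left (h.it_mon n)
    rw [degree_eq_natDegree (h.it_mon n).ne_zero]
    exact lt_of_le_of_lt degree_C_le (by exact_mod_cast h.it_deg_pos n)
  have hroot : ∀ ξ ∈ P.roots, R < w (x - ξ) := by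
    intro ξ hξ
    apply hcon
    have := (mem_roots hmon.ne_zero).mp hξ
    rw [IsRoot.def, hP, eval_sub, eval_C, sub_eq_zero] at this
    exact this
  -- a radius slightly larger than `R`
  obtain ⟨R', hR', hR2⟩ : ∃ R', R < R' ∧ ∀ ξ ∈ P.roots, R' ≤ w (x - ξ) := by
    have key : ∀ s : Multiset L, (∀ ξ ∈ s, R < w (x - ξ)) →
        ∃ R', R < R' ∧ ∀ ξ ∈ s, R' ≤ w (x - ξ) := by
      intro s
      induction s using Multiset.induction_on with
      | empty => intro _; exact ⟨R + 1, by linarith, by simp⟩
      | cons a s ih =>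
        intro hs
        obtain ⟨R1, h1, h2⟩ := ih fun ξ hξ => hs ξ (Multiset.mem_cons_of_mem hξ)
        refine ⟨min R1 (w (x - a)), lt_min h1 (hs a (Multiset.mem_cons_self a s)), ?_⟩
        intro ξ hξ
        rcases Multiset.mem_cons.mp hξ with rfl | h3
        · exact min_le_right _ _
        · exact (min_le_left _ _).trans (h2 ξ h3)
    exact key _ hroot
  have hR'0 : 0 < R' := hR.trans hR'
  have h1 : gn w P x R = gn w P x R' := by
    rw [gn_roots_monic h.na hR hmon, gn_roots_monic h.na hR'0 hmon]
    congr 1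
    apply Multiset.map_congr rfl
    intro ξ hξ
    rw [max_eq_left (hroot ξ hξ).le, max_eq_left (hR2 ξ hξ)]
  rw [hP, gn_sub_C h.na hR, gn_sub_C h.na hR'0, h.ph_rad, max_eq_left hxy] at h1
  have h2 := h.lt_ph_of_lt (n := n) (x := x) hR'
  have h3 := le_max_left (ph w (it f n) x R') (w ((it f n).eval x - y))
  linarith

/-- There is a point of `f⁻¹` of the disc far from any given point. -/
lemma exists_far {x : L} (hx : w x ≤ T) : ∃ η, w (x - η) = T ∧ w (f.eval η) ≤ T := by
  obtain ⟨η, hη, hη2⟩ := h.far
  by_cases h1 : w x = T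
  · exact ⟨0, by rwa [sub_zero], h.zero_in⟩
  · refine ⟨η, ?_, by rw [hη2, map_zero]; exact h.T_pos.le⟩
    have h2 : w (x - 0) < w (0 - η) := by
      rw [sub_zero, zero_sub, AbsoluteValue.map_neg, hη]
      exact lt_of_le_of_ne hx h1
    rw [um_eq h.na h2, zero_sub, AbsoluteValue.map_neg, hη]

/-- Same, inside a level `n` component. -/
lemma exists_far' {n : ℕ} {x : L} (hx : w ((it f n).eval x) ≤ T) :
    ∃ η, w (x - η) = rad w f T n x ∧ w ((it f (n + 1)).eval η) ≤ T := by
  obtain ⟨η', h1, h2⟩ := h.exists_far hx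
  obtain ⟨η, h3, h4⟩ := h.exists_root (n := n) (x := x) (y := η') h1.le
  refine ⟨η, ?_, by rw [it_eval_succ, h3]; exact h2⟩
  by_contra hne
  have h5 : w (x - η) < rad w f T n x := lt_of_le_of_ne h4 hne
  have hpos : 0 < w (x - η) := by
    apply w.pos
    intro h0
    rw [sub_eq_zero] at h0
    rw [← h0] at h3
    rw [← h3, sub_self, map_zero] at h1
    exact h.T_pos.ne h1
  have h6 := h.ph_lt_of_lt hpos h5
  have h7 := eval_sub_le_ph h.na hpos (it f n) (le_refl (w (x - η)))
  rw [h3, h1] at h7
  linarith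

/-- The potential of the level `n` measure. -/
lemma potential {n : ℕ} {x : L} (hx : w ((it f n).eval x) ≤ T) :
    ((it f n).roots.map fun ξ => max (w (x - ξ)) (rad w f T n x)).prod = T := by
  rw [← gn_roots_monic h.na (h.rad_pos n x) (h.it_mon n), gn_eq_max h.na (h.rad_pos n x),
    h.ph_rad, max_eq_left hx]

/-- The mass of a component. -/
lemma mass {l k : ℕ} {η : L} (hη : w ((it f l).eval η) ≤ T) :
    f.natDegree ^ k ≤ Multiset.card
      ((it f (k + l)).roots.filter fun ξ => w (η - ξ) ≤ rad w f T l η) := by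
  classical
  have h1 : (it f (k + l)).roots = (it f k).roots.bind fun y => (it f l - C y).roots := by
    rw [it_add]
    conv_lhs => rw [(IsAlgClosed.splits (it f k)).eq_prod_roots_of_monic (h.it_mon k)]
    have key : ∀ s : Multiset L, ((s.map fun a => X - C a).prod.comp (it f l)).roots =
        s.bind fun y => (it f l - C y).roots := by
      intro s
      induction s using Multiset.induction_on with
      | empty => simp
      | cons a s ih =>
        rw [Multiset.map_cons, Multiset.prod_cons, mul_comp, sub_comp, X_comp, C_comp,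
          roots_mul, ih, Multiset.cons_bind]
        apply mul_ne_zero
        · intro h0
          have h2 := h.it_deg_pos l
          rw [sub_eq_zero] at h0
          rw [h0, natDegree_C] at h2
          exact lt_irrefl _ h2
        · intro h0
          have h2 : ((s.map fun a => X - C a).prod : L[X]).Monic := monic_multisetProd_X_sub_C s
          have h3 := h2.comp (h.it_mon l) (h.it_deg_pos l).ne'
          exact h3.ne_zero h0
    exact key _
  rw [h1, Multiset.filter_bind]
  have h2 : Multiset.card (it f k).roots = f.natDegree ^ k := by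
    rw [← (IsAlgClosed.splits _).natDegree_eq_card_roots, it_natDegree]
  rw [← h2, Multiset.card_bind]
  have h3 : ∀ y ∈ (it f k).roots, 1 ≤ (Multiset.card ∘ fun y =>
      Multiset.filter (fun ξ => w (η - ξ) ≤ rad w f T l η) (it f l - C y).roots) y := by
    intro y hy
    have hy1 : (it f k).eval y = 0 := (mem_roots (h.it_mon k).ne_zero).mp hy
    have hy2 : w y ≤ T := by
      apply h.mem_zero (n := k)
      rw [hy1, map_zero]
      exact h.T_pos.le
    obtain ⟨ξ, h4, h5⟩ := h.exists_root (n := l) (x := η) (y := y) (um_zero h.na hη hy2)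
    rw [Nat.one_le_iff_ne_zero, Function.comp_apply, Ne, Multiset.card_eq_zero]
    intro h6
    have h7 : ξ ∈ Multiset.filter (fun ξ => w (η - ξ) ≤ rad w f T l η) (it f l - C y).roots := by
      rw [Multiset.mem_filter]
      refine ⟨?_, h5⟩
      rw [mem_roots]
      · simp [h4]
      · intro h0
        have h2 := h.it_deg_pos l
        rw [sub_eq_zero] at h0
        rw [h0, natDegree_C] at h2
        exact lt_irrefl _ h2
    rw [h6] at h7
    exact absurd h7 (Multiset.notMem_zero ξ)
  have h4 : ∀ s : Multiset L, (∀ y ∈ s, 1 ≤ (Multiset.card ∘ fun y =>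
      Multiset.filter (fun ξ => w (η - ξ) ≤ rad w f T l η) (it f l - C y).roots) y) →
      Multiset.card s ≤ (s.map (Multiset.card ∘ fun y =>
      Multiset.filter (fun ξ => w (η - ξ) ≤ rad w f T l η) (it f l - C y).roots)).sum := by
    intro s
    induction s using Multiset.induction_on with
    | empty => simp
    | cons a s ih =>
      intro hs
      rw [Multiset.map_cons, Multiset.sum_cons, Multiset.card_cons]
      have h5 := hs a (Multiset.mem_cons_self a s)
      have h6 := ih fun y hy => hs y (Multiset.mem_cons_of_mem hy)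
      omega
  exact h4 _ h3

end Bad

end Pool.Agent.V7H78.UB
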