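import Mathlib

/-!
# Conditional negativity of ultrametric kernels
-/

namespace Pool.Agent.V7H78.UB

open Finset

section Ker

variable {ι : Type*} [Fintype ι] (k : ι → ι → ℝ)

open Classical in
/-- The quadratic form of a threshold of the kernel. -/
noncomputable def thr (u : ι → ℝ) (s : ℝ) : ℝ :=
  ∑ i, ∑ j, u i * u j * (if k i j ≤ s then 1 else 0)

variable {k}

open Classical in
lemma thr_eq (hsym : ∀ i j, k i j = k j i) (hult : ∀ i j l, k i l ≤ max (k i j) (k j l))
    (u : ι → ℝ) (s : ℝ) :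
    thr k u s = ∑ c ∈ (univ.filter fun i => k i i ≤ s).image (fun i => univ.filter fun j => k i j ≤ s),
      (∑ i ∈ c, u i) ^ 2 := by
  set P : Finset ι := univ.filter fun i => k i i ≤ s with hP
  set cl : ι → Finset ι := fun i => univ.filter fun j => k i j ≤ s with hcl
  have hmem : ∀ i j, j ∈ cl i ↔ k i j ≤ s := by
    intro i j
    simp [hcl]
  have hdiag : ∀ i j, k i j ≤ s → k i i ≤ s := by
    intro i j hij
    have := hult i j i
    rw [hsym j i, max_self] at this
    exact this.trans hij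
  have h1 : thr k u s = ∑ i ∈ P, u i * ∑ j ∈ cl i, u j := by
    unfold thr
    have h2 : ∀ i, ∑ j, u i * u j * (if k i j ≤ s then (1 : ℝ) else 0) = u i * ∑ j ∈ cl i, u j := by
      intro i
      rw [mul_sum, hcl, sum_filter]
      apply sum_congr rfl
      intro j _
      split_ifs <;> ring
    rw [sum_congr rfl fun i _ => h2 i]
    symm
    apply sum_subset (subset_univ P)
    intro i _ hi
    have h3 : cl i = ∅ := by
      rw [eq_empty_iff_forall_notMem]
      intro j hj
      apply hi
      rw [hP, mem_filter]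
      exact ⟨mem_univ i, hdiag i j ((hmem i j).mp hj)⟩
    rw [h3, sum_empty, mul_zero]
  rw [h1, ← sum_fiberwise_of_maps_to (g := cl) (t := P.image cl)
    (fun i hi => mem_image_of_mem cl hi)]
  apply sum_congr rfl
  intro c hc
  obtain ⟨i0, hi0, rfl⟩ := mem_image.mp hc
  have hi0' : k i0 i0 ≤ s := (mem_filter.mp hi0).2
  have h2 : (P.filter fun i => cl i = cl i0) = cl i0 := by
    ext i
    rw [mem_filter, hmem]
    constructor
    · rintro ⟨hi, h3⟩
      have h4 : i ∈ cl i := (hmem i i).mpr (mem_filter.mp hi).2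
      rw [h3] at h4
      exact (hmem _ _).mp h4
    · intro h3
      have h4 : k i i0 ≤ s := by rwa [hsym]
      refine ⟨mem_filter.mpr ⟨mem_univ i, hdiag i i0 h4⟩, ?_⟩
      ext j
      rw [hmem, hmem]
      constructor
      · intro h5
        exact (hult i0 i j).trans (max_le h3 h5)
      · intro h5
        exact (hult i i0 j).trans (max_le h4 h5)
  rw [h2]
  have h3 : ∀ i ∈ cl i0, u i * ∑ j ∈ cl i, u j = u i * ∑ j ∈ cl i0, u j := by
    intro i hi
    rw [← h2, mem_filter] at hi
    rw [hi.2]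
  rw [sum_congr rfl h3, ← sum_mul, sq]

lemma thr_nonneg (hsym : ∀ i j, k i j = k j i) (hult : ∀ i j l, k i l ≤ max (k i j) (k j l))
    (u : ι → ℝ) (s : ℝ) : 0 ≤ thr k u s := by
  rw [thr_eq hsym hult]
  exact sum_nonneg fun c _ => sq_nonneg _

lemma thr_ge (hsym : ∀ i j, k i j = k j i) (hult : ∀ i j l, k i l ≤ max (k i j) (k j l))
    (u : ι → ℝ) (s : ℝ) (c : Finset ι) (hc : ∀ i ∈ c, ∀ j, j ∈ c ↔ k i j ≤ s) :
    (∑ i ∈ c, u i) ^ 2 ≤ thr k u s := by
  classical
  rcases c.eq_empty_or_nonempty with rfl | ⟨i0, hi0⟩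
  · simpa using thr_nonneg hsym hult u s
  · rw [thr_eq hsym hult]
    have h1 : c = univ.filter fun j => k i0 j ≤ s := by
      ext j
      rw [hc i0 hi0 j]
      simp
    have h2 : c ∈ (univ.filter fun i => k i i ≤ s).image
        (fun i => univ.filter fun j => k i j ≤ s) := by
      rw [mem_image]
      refine ⟨i0, ?_, h1.symm⟩
      rw [mem_filter]
      exact ⟨mem_univ _, (hc i0 hi0 i0).mp hi0⟩
    exact single_le_sum (f := fun c : Finset ι => (∑ i ∈ c, u i) ^ 2)
      (fun c _ => sq_nonneg _) h2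

lemma mono_step (a : ℝ) : Monotone fun s : ℝ => if a ≤ s then (1 : ℝ) else 0 := by
  intro s t hst
  dsimp only
  split_ifs with h1 h2
  · exact le_rfl
  · exact absurd (h1.trans hst) h2
  · exact zero_le_one
  · exact le_rfl

lemma integral_step {S0 S1 a : ℝ} (h0 : S0 < a) (h1 : a ≤ S1) :
    ∫ s in S0..S1, (if a ≤ s then (1 : ℝ) else 0) = S1 - a := by
  rw [intervalIntegral.integral_of_le (h0.le.trans h1)]
  have h2 : (fun s : ℝ => if a ≤ s then (1 : ℝ) else 0) = (Set.Ici a).indicator fun _ => 1 := by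
    funext s
    by_cases h : a ≤ s
    · rw [if_pos h, Set.indicator_of_mem (Set.mem_Ici.mpr h)]
    · rw [if_neg h, Set.indicator_of_notMem (by simpa using h)]
  rw [h2, MeasureTheory.setIntegral_indicator measurableSet_Ici]
  have h3 : Set.Ioc S0 S1 ∩ Set.Ici a = Set.Icc a S1 := by
    ext s
    simp only [Set.mem_inter_iff, Set.mem_Ioc, Set.mem_Ici, Set.mem_Icc]
    constructor
    · rintro ⟨⟨_, h4⟩, h5⟩
      exact ⟨h5, h4⟩
    · rintro ⟨h4, h5⟩
      exact ⟨⟨h0.trans_le h4, h5⟩, h4⟩
  rw [h3]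
  simp [h1]

lemma intInt_sum {κ : Type*} (S : Finset κ) (f : κ → ℝ → ℝ) (x y : ℝ)
    (h : ∀ i ∈ S, IntervalIntegrable (f i) MeasureTheory.volume x y) :
    IntervalIntegrable (fun s => ∑ i ∈ S, f i s) MeasureTheory.volume x y := by
  have h1 := IntervalIntegrable.sum S h
  have h2 : (fun s => ∑ i ∈ S, f i s) = ∑ i ∈ S, f i := by
    funext s
    rw [Finset.sum_apply]
  rw [h2]
  exact h1

/-- The quadratic form of an ultrametric kernel on a measure of total mass zero. -/
theorem kernel_neg (hsym : ∀ i j, k i j = k j i) (hult : ∀ i j l, k i l ≤ max (k i j) (k j l))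
    (u : ι → ℝ) (hu : ∑ i, u i = 0) {A B δ : ℝ} (hAB : A ≤ B)
    (hC : ∀ s, A < s → s < B → ∃ c : Finset ι, (∀ i ∈ c, ∀ j, j ∈ c ↔ k i j ≤ s) ∧
      δ ≤ (∑ i ∈ c, u i) ^ 2) :
    ∑ i, ∑ j, u i * u j * k i j ≤ - (δ * (B - A)) := by
  classical
  -- bounds for all the values
  obtain ⟨S0, hS0, hS0A⟩ : ∃ S0, (∀ i j, S0 < k i j) ∧ S0 < A := by
    obtain ⟨m, hm⟩ := (Set.finite_range fun p : ι × ι => k p.1 p.2).bddBelow
    refine ⟨min m A - 1, fun i j => ?_, ?_⟩
    · have := hm ⟨(i, j), rfl⟩
      have h2 := min_le_left m A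
      dsimp only at this
      linarith
    · have h2 := min_le_right m A
      linarith
  obtain ⟨S1, hS1, hS1B⟩ : ∃ S1, (∀ i j, k i j ≤ S1) ∧ B ≤ S1 := by
    obtain ⟨m, hm⟩ := (Set.finite_range fun p : ι × ι => k p.1 p.2).bddAbove
    refine ⟨max m B, fun i j => ?_, le_max_right _ _⟩
    exact (hm ⟨(i, j), rfl⟩).trans (le_max_left _ _)
  have hint : ∀ (a : ℝ) (x y : ℝ), IntervalIntegrable (fun s : ℝ => if a ≤ s then (1 : ℝ) else 0)
      MeasureTheory.volume x y := fun a x y => (mono_step a).intervalIntegrable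
  have hthr : ∀ x y : ℝ, IntervalIntegrable (thr k u) MeasureTheory.volume x y := by
    intro x y
    unfold thr
    apply intInt_sum
    intro i _
    apply intInt_sum
    intro j _
    exact (hint _ x y).const_mul _
  have h1 : ∫ s in S0..S1, thr k u s = ∑ i, ∑ j, u i * u j * (S1 - k i j) := by
    unfold thr
    rw [intervalIntegral.integral_finsetSum]
    · apply sum_congr rfl
      intro i _
      rw [intervalIntegral.integral_finsetSum]
      · apply sum_congr rfl
        intro j _
        rw [intervalIntegral.integral_const_mul, integral_step (hS0 i j) (hS1 i j)]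
      · intro j _
        exact (hint _ _ _).const_mul _
    · intro i _
      apply intInt_sum
      intro j _
      exact (hint _ _ _).const_mul _
  have h2 : ∑ i, ∑ j, u i * u j * (S1 - k i j) = - ∑ i, ∑ j, u i * u j * k i j := by
    have h3 : ∀ i, ∑ j, u i * u j * (S1 - k i j) =
        u i * S1 * ∑ j, u j - ∑ j, u i * u j * k i j := by
      intro i
      rw [mul_sum, ← sum_sub_distrib]
      apply sum_congr rfl
      intro j _
      ring
    rw [sum_congr rfl fun i _ => h3 i]
    simp [hu]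
  have h3 : δ * (B - A) ≤ ∫ s in S0..S1, thr k u s := by
    have h4 : ∫ s in S0..S1, thr k u s = (∫ s in S0..A, thr k u s) + (∫ s in A..B, thr k u s) +
        ∫ s in B..S1, thr k u s := by
      rw [intervalIntegral.integral_add_adjacent_intervals (hthr _ _) (hthr _ _),
        intervalIntegral.integral_add_adjacent_intervals (hthr _ _) (hthr _ _)]
    have h5 : 0 ≤ ∫ s in S0..A, thr k u s :=
      intervalIntegral.integral_nonneg hS0A.le fun s _ => thr_nonneg hsym hult u s
    have h6 : 0 ≤ ∫ s in B..S1, thr k u s :=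
      intervalIntegral.integral_nonneg hS1B fun s _ => thr_nonneg hsym hult u s
    have h7 : ∫ s in A..B, δ ≤ ∫ s in A..B, thr k u s := by
      apply intervalIntegral.integral_mono_on_of_le_Ioo hAB (by simp) (hthr _ _)
      intro s hs
      obtain ⟨c, hc, hc2⟩ := hC s hs.1 hs.2
      exact hc2.trans (thr_ge hsym hult u s c hc)
    rw [intervalIntegral.integral_const, smul_eq_mul] at h7
    rw [h4]
    linarith
  rw [h1, h2] at h3
  linarith

end Ker

end Pool.Agent.V7H78.UB
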