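import Mathlib
import Pool.Agent.V7H78.UB.Dyn
import Pool.Agent.V7H78.UB.Ker

/-!
# Energy of sets of points of the filled Julia set
-/

namespace Pool.Agent.V7H78.UB

open Polynomial Finset

/-- The kernel of level `n`. -/
noncomputable def kk {L : Type*} [Field L] (w : AbsoluteValue L ℝ) (f : L[X]) (T : ℝ) (n : ℕ)
    (x y : L) : ℝ := Real.log (max (w (x - y)) (max (rad w f T n x) (rad w f T n y)))

namespace Bad

variable {L : Type*} [Field L] [IsAlgClosed L] {w : AbsoluteValue L ℝ} {p : ℕ} {f : L[X]} {T : ℝ}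
  (h : Bad w p f T)

include h

omit [IsAlgClosed L] h in
lemma kk_symm (n : ℕ) (x y : L) : kk w f T n x y = kk w f T n y x := by
  unfold kk
  rw [AbsoluteValue.map_sub w x y, max_comm (rad w f T n x)]

lemma kk_pos (n : ℕ) (x y : L) : 0 < max (w (x - y)) (max (rad w f T n x) (rad w f T n y)) :=
  lt_max_of_lt_right (lt_max_of_lt_left (h.rad_pos n x))

lemma kk_le_iff (n : ℕ) (x y : L) (s : ℝ) : kk w f T n x y ≤ s ↔
    w (x - y) ≤ Real.exp s ∧ rad w f T n x ≤ Real.exp s ∧ rad w f T n y ≤ Real.exp s := by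
  unfold kk
  rw [Real.log_le_iff_le_exp (h.kk_pos n x y), max_le_iff, max_le_iff]

lemma kk_ult (n : ℕ) (x y z : L) :
    kk w f T n x z ≤ max (kk w f T n x y) (kk w f T n y z) := by
  set s := max (kk w f T n x y) (kk w f T n y z) with hs
  have h1 := (h.kk_le_iff n x y s).mp (le_max_left _ _)
  have h2 := (h.kk_le_iff n y z s).mp (le_max_right _ _)
  rw [h.kk_le_iff]
  exact ⟨(um h.na x y z).trans (max_le h1.1 h2.1), h1.2.1, h2.2.2⟩

lemma kk_eq (n : ℕ) (x y : L) :
    max (w (x - y)) (max (rad w f T n x) (rad w f T n y)) = max (w (x - y)) (rad w f T n x) := by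
  by_cases h1 : w (x - y) ≤ rad w f T n x
  · rw [h.rad_center h1, max_self]
  · push Not at h1
    have h2 : rad w f T n y ≤ w (x - y) := by
      by_contra hcon
      push Not at hcon
      rw [AbsoluteValue.map_sub w x y] at hcon
      have h3 := h.rad_center hcon.le
      rw [h3] at h1
      rw [AbsoluteValue.map_sub w x y] at h1
      linarith
    rw [max_eq_left h1.le, max_eq_left (max_le h1.le h2)]

lemma kk_self (n : ℕ) (x : L) : kk w f T n x x = Real.log (rad w f T n x) := by
  unfold kk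
  rw [sub_self, map_zero, max_self, max_eq_right (h.rad_pos n x).le]

lemma le_kk (n : ℕ) {x y : L} (hxy : x ≠ y) : Real.log (w (x - y)) ≤ kk w f T n x y := by
  unfold kk
  exact Real.log_le_log (w.pos (sub_ne_zero.mpr hxy)) (le_max_left _ _)

omit h [IsAlgClosed L] in
lemma exists_enum (s : Multiset L) : ∃ ξ : Fin (Multiset.card s) → L,
    (univ : Finset (Fin (Multiset.card s))).val.map ξ = s := by
  obtain ⟨l, rfl⟩ := Quot.exists_rep s
  refine ⟨fun i => l.get i, ?_⟩
  rw [Fin.univ_val_map]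
  exact congrArg (fun l : List L => (l : Multiset L)) (List.ofFn_get l)

lemma sum_kk {n : ℕ} {ι : Type*} [Fintype ι] (ξ : ι → L)
    (hξ : (univ : Finset ι).val.map ξ = (it f n).roots) {x : L}
    (hx : w ((it f n).eval x) ≤ T) :
    ∑ j, kk w f T n x (ξ j) = Real.log T := by
  have h1 := h.potential hx
  rw [← hξ, Multiset.map_map] at h1
  have h2 : ∏ j, max (w (x - ξ j)) (rad w f T n x) = T := h1
  calc ∑ j, kk w f T n x (ξ j) = ∑ j, Real.log (max (w (x - ξ j)) (rad w f T n x)) := by
        apply sum_congr rfl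
        intro j _
        unfold kk
        rw [h.kk_eq]
    _ = Real.log (∏ j, max (w (x - ξ j)) (rad w f T n x)) := by
        rw [Real.log_prod]
        intro j _
        exact (lt_max_of_lt_right (h.rad_pos n x)).ne'
    _ = Real.log T := by rw [h2]

/-- The key inequality. -/
theorem key {n : ℕ} {ι : Type*} [Fintype ι] (ξ : ι → L)
    (hξ : (univ : Finset ι).val.map ξ = (it f n).roots)
    {κ : Type*} [Fintype κ] (x : κ → L) (hx : ∀ i, w ((it f n).eval (x i)) ≤ T)
    (u : κ → ℝ) {A B δ : ℝ} (hAB : A ≤ B) (η : L)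
    (hδ : ∀ s, A < s → s < B → δ ≤ ((∑ i ∈ univ.filter (fun i => w (x i - η) ≤ Real.exp s ∧
        rad w f T n (x i) ≤ Real.exp s), u i) - (∑ i, u i) / (f.natDegree : ℝ) ^ n *
        (univ.filter (fun j => w (ξ j - η) ≤ Real.exp s ∧
          rad w f T n (ξ j) ≤ Real.exp s)).card) ^ 2) :
    ∑ i, ∑ j, u i * u j * kk w f T n (x i) (x j) ≤
      (∑ i, u i) ^ 2 * Real.log T / (f.natDegree : ℝ) ^ n - δ * (B - A) := by
  classical
  set m : ℝ := ∑ i, u i with hm
  set D : ℝ := (f.natDegree : ℝ) ^ n with hD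
  have hd0 : (0 : ℝ) < f.natDegree := by exact_mod_cast h.deg_pos
  have hD0 : 0 < D := pow_pos hd0 n
  have hcard : (Fintype.card ι : ℝ) = D := by
    have h1 := congrArg Multiset.card hξ
    rw [Multiset.card_map, ← (IsAlgClosed.splits _).natDegree_eq_card_roots, it_natDegree] at h1
    have h2 : Fintype.card ι = f.natDegree ^ n := by
      rw [← h1]
      rfl
    rw [h2, hD]
    push_cast
    rfl
  have hmem : ∀ j, w ((it f n).eval (ξ j)) ≤ T := by
    intro j
    have h1 : ξ j ∈ (it f n).roots := by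
      rw [← hξ, Multiset.mem_map]
      exact ⟨j, by simp, rfl⟩
    have h2 := (mem_roots (h.it_mon n).ne_zero).mp h1
    rw [IsRoot.def] at h2
    rw [h2, map_zero]
    exact h.T_pos.le
  set c : κ ⊕ ι → L := Sum.elim x ξ with hc
  set U : κ ⊕ ι → ℝ := Sum.elim u (fun _ => - (m / D)) with hU
  set K : κ ⊕ ι → κ ⊕ ι → ℝ := fun i j => kk w f T n (c i) (c j) with hK
  have hUsum : ∑ i, U i = 0 := by
    rw [Fintype.sum_sum_type]
    simp only [hU, Sum.elim_inl, Sum.elim_inr, sum_const, card_univ, nsmul_eq_mul, hcard]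
    rw [← hm]
    field_simp
    ring
  have hneg := kernel_neg (k := K) (fun i j => kk_symm n _ _) (fun i j l => h.kk_ult n _ _ _) U
    hUsum (A := A) (B := B) (δ := δ) hAB (by
      intro s hs1 hs2
      refine ⟨univ.filter fun i => w (c i - η) ≤ Real.exp s ∧ rad w f T n (c i) ≤ Real.exp s,
        ?_, ?_⟩
      · intro i hi j
        rw [mem_filter] at hi ⊢
        rw [hK]
        dsimp only
        rw [h.kk_le_iff]
        constructor
        · rintro ⟨_, h1, h2⟩
          refine ⟨?_, hi.2.2, h2⟩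
          have h3 := um h.na (c i) η (c j)
          rw [AbsoluteValue.map_sub w η] at h3
          exact h3.trans (max_le hi.2.1 h1)
        · rintro ⟨h1, _, h2⟩
          refine ⟨mem_univ j, ?_, h2⟩
          have h3 := um h.na (c j) (c i) η
          rw [AbsoluteValue.map_sub w (c j) (c i)] at h3
          exact h3.trans (max_le h1 hi.2.1)
      · have h1 := hδ s hs1 hs2
        have h2 : ∑ i ∈ univ.filter (fun i : κ ⊕ ι => w (c i - η) ≤ Real.exp s ∧
            rad w f T n (c i) ≤ Real.exp s), U i =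
            (∑ i ∈ univ.filter (fun i => w (x i - η) ≤ Real.exp s ∧
            rad w f T n (x i) ≤ Real.exp s), u i) - m / D *
            (univ.filter (fun j => w (ξ j - η) ≤ Real.exp s ∧
              rad w f T n (ξ j) ≤ Real.exp s)).card := by
          rw [sum_filter, Fintype.sum_sum_type]
          simp only [hc, hU, Sum.elim_inl, Sum.elim_inr]
          rw [← sum_filter, ← sum_filter, sum_const, nsmul_eq_mul]
          ring
        rw [h2]
        exact h1)
  -- expand the double sum
  have hexp : ∑ i, ∑ j, U i * U j * K i j =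
      ∑ i, ∑ j, u i * u j * kk w f T n (x i) (x j) - m ^ 2 * Real.log T / D := by
    have h1 : ∀ i : κ, ∑ j, U (Sum.inl i) * U j * K (Sum.inl i) j =
        ∑ j, u i * u j * kk w f T n (x i) (x j) - u i * (m / D * Real.log T) := by
      intro i
      rw [Fintype.sum_sum_type]
      simp only [hU, hK, hc, Sum.elim_inl, Sum.elim_inr]
      have h2 := h.sum_kk ξ hξ (hx i)
      have h3 : ∑ j, u i * -(m / D) * kk w f T n (x i) (ξ j) = u i * -(m / D) * Real.log T := by
        rw [← mul_sum, h2]
      rw [h3]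
      ring
    have h4 : ∀ j : ι, ∑ i, U (Sum.inr j) * U i * K (Sum.inr j) i =
        ∑ i, -(m / D) * u i * kk w f T n (x i) (ξ j) + (m / D) ^ 2 * Real.log T := by
      intro j
      rw [Fintype.sum_sum_type]
      simp only [hU, hK, hc, Sum.elim_inl, Sum.elim_inr]
      have h2 := h.sum_kk ξ hξ (hmem j)
      have h3 : ∑ i, -(m / D) * -(m / D) * kk w f T n (ξ j) (ξ i) =
          -(m / D) * -(m / D) * Real.log T := by
        rw [← mul_sum, h2]
      rw [h3]
      congr 1
      · apply sum_congr rfl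
        intro i _
        rw [kk_symm n (ξ j)]
      · ring
    rw [Fintype.sum_sum_type, sum_congr rfl fun i _ => h1 i, sum_congr rfl fun j _ => h4 j,
      sum_sub_distrib, ← sum_mul, ← hm, sum_add_distrib]
    have h6 : ∑ j, ∑ i, -(m / D) * u i * kk w f T n (x i) (ξ j) =
        ∑ i, ∑ j, -(m / D) * u i * kk w f T n (x i) (ξ j) := sum_comm
    rw [h6]
    have h5 : ∀ i : κ, ∑ j, -(m / D) * u i * kk w f T n (x i) (ξ j) =
        u i * (-(m / D) * Real.log T) := by
      intro i
      rw [← mul_sum, h.sum_kk ξ hξ (hx i)]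
      ring
    rw [sum_congr rfl fun i _ => h5 i, ← sum_mul, ← hm, sum_const, card_univ, nsmul_eq_mul, hcard]
    field_simp
    ring
  rw [hexp] at hneg
  linarith

theorem key0 {n : ℕ} {κ : Type*} [Fintype κ] (x : κ → L)
    (hx : ∀ i, w ((it f n).eval (x i)) ≤ T) (u : κ → ℝ) :
    ∑ i, ∑ j, u i * u j * kk w f T n (x i) (x j) ≤
      (∑ i, u i) ^ 2 * Real.log T / (f.natDegree : ℝ) ^ n := by
  obtain ⟨ξ, hξ⟩ := exists_enum (it f n).roots
  have := h.key ξ hξ x hx u (le_refl (0 : ℝ)) (δ := 0) 0 (fun s h1 h2 => by linarith)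
  simpa using this

end Bad

end Pool.Agent.V7H78.UB
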