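import Mathlib
import Pool.Agent.V7H78.UB.Pot

/-!
# Local inequalities at a place of bad reduction
-/

namespace Pool.Agent.V7H78.UB

open Polynomial Finset

namespace Bad

variable {L : Type*} [Field L] [IsAlgClosed L] {w : AbsoluteValue L ℝ} {p : ℕ} {f : L[X]} {T : ℝ}
  (h : Bad w p f T)

include h

omit [IsAlgClosed L] in
lemma rho_pos : 0 < Real.log T := Real.log_pos h.one_lt

omit [IsAlgClosed L] in
lemma two_le : (2 : ℝ) ≤ f.natDegree := by exact_mod_cast h.deg

lemma log_rad_ge [Fact p.Prime] [CharP L p] {n : ℕ} {x : L} (hx : w ((it f n).eval x) ≤ T) :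
    - ((f.natDegree : ℝ) * Real.log T) ≤ Real.log (rad w f T n x) := by
  have hρ := h.rho_pos
  have hd := h.two_le
  have hp : (2 : ℝ) ≤ p := by exact_mod_cast (Fact.out : p.Prime).two_le
  have key : ∀ n : ℕ, w ((it f n).eval x) ≤ T →
      Real.log T - ((f.natDegree : ℝ) - 1) * Real.log T * (1 - (1 / 2) ^ n) ≤
        Real.log (rad w f T n x) := by
    intro n
    induction n with
    | zero => intro _; simp [h.rad_zero]
    | succ n ih =>
      intro hx
      have h1 := h.mem_of_mem hx
      have h2 := ih h1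
      have h3 := h.log_rad_upper h1
      have h4 : Real.log (rad w f T n x) - Real.log (rad w f T (n + 1) x) ≤
          ((f.natDegree : ℝ) - 1) * Real.log T * (1 / 2) ^ (n + 1) := by
        have h5 : (2 : ℝ) ^ (n + 1) ≤ (p : ℝ) ^ (n + 1) := by gcongr
        have h6 : 0 ≤ Real.log (rad w f T n x) - Real.log (rad w f T (n + 1) x) :=
          sub_nonneg.mpr (Real.log_le_log (h.rad_pos _ _) (h.rad_lt h1).le)
        have h7 : (2 : ℝ) ^ (n + 1) *
            (Real.log (rad w f T n x) - Real.log (rad w f T (n + 1) x)) ≤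
              ((f.natDegree : ℝ) - 1) * Real.log T :=
          (mul_le_mul_of_nonneg_right h5 h6).trans h3
        rw [one_div, inv_pow, ← div_eq_mul_inv, le_div_iff₀ (by positivity)]
        linarith
      have h8 : ((1 : ℝ) / 2) ^ n = 2 * (1 / 2) ^ (n + 1) := by rw [pow_succ]; ring
      rw [h8] at h2
      nlinarith [h2, h4]
  have h1 := key n hx
  have h2 : 0 ≤ ((1 : ℝ) / 2) ^ n := by positivity
  have h3 : 0 ≤ ((f.natDegree : ℝ) - 1) * Real.log T * ((1 / 2) ^ n) :=
    mul_nonneg (mul_nonneg (by linarith) hρ.le) h2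
  nlinarith

/-- Comparison of the kernel with the logarithm of the distance. -/
lemma kk_ge [Fact p.Prime] [CharP L p] [DecidableEq L] {n : ℕ} {x : L}
    (hx : w ((it f n).eval x) ≤ T) (y : L) :
    Real.log (w (x - y)) - (if x = y then (f.natDegree : ℝ) * Real.log T else 0) ≤
      kk w f T n x y := by
  split_ifs with h1
  · subst h1
    rw [h.kk_self, sub_self, map_zero, Real.log_zero, zero_sub]
    exact h.log_rad_ge hx
  · rw [sub_zero]
    exact h.le_kk n h1

/-- The sum over a finite set of the kernel. -/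
lemma sum_kk_ge [Fact p.Prime] [CharP L p] {n : ℕ} (W : Finset L)
    (hW : ∀ x ∈ W, w ((it f n).eval x) ≤ T) :
    ∑ x ∈ W, ∑ y ∈ W, Real.log (w (x - y)) - W.card * (f.natDegree * Real.log T) ≤
      ∑ x ∈ W, ∑ y ∈ W, kk w f T n x y := by
  classical
  have h1 : ∑ x ∈ W, ∑ y ∈ W, (Real.log (w (x - y)) -
      (if x = y then (f.natDegree : ℝ) * Real.log T else 0)) ≤
      ∑ x ∈ W, ∑ y ∈ W, kk w f T n x y :=
    sum_le_sum fun x hx => sum_le_sum fun y _ => h.kk_ge (hW x hx) y
  refine le_trans (le_of_eq ?_) h1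
  simp only [sum_sub_distrib]
  congr 1
  have h2 : ∀ x ∈ W, ∑ y ∈ W, (if x = y then (f.natDegree : ℝ) * Real.log T else 0) =
      f.natDegree * Real.log T := by
    intro x hx
    rw [sum_ite_eq, if_pos hx]
  rw [sum_congr rfl h2, sum_const, nsmul_eq_mul]

/-- The energy of a finite set, with a gain. -/
theorem energy_gain [Fact p.Prime] [CharP L p] {n : ℕ} (W : Finset L)
    (hW : ∀ x ∈ W, w ((it f n).eval x) ≤ T) {ι : Type*} [Fintype ι] (ξ : ι → L)
    (hξ : (univ : Finset ι).val.map ξ = (it f n).roots) {A B δ : ℝ} (hAB : A ≤ B) (η : L)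
    (hδ : ∀ s, A < s → s < B → δ ≤ (((W.filter (fun y => w (y - η) ≤ Real.exp s ∧
        rad w f T n y ≤ Real.exp s)).card : ℝ) - W.card / (f.natDegree : ℝ) ^ n *
        (univ.filter (fun j => w (ξ j - η) ≤ Real.exp s ∧
          rad w f T n (ξ j) ≤ Real.exp s)).card) ^ 2) :
    ∑ x ∈ W, ∑ y ∈ W, Real.log (w (x - y)) ≤
      W.card * (f.natDegree * Real.log T) + W.card ^ 2 * Real.log T / (f.natDegree : ℝ) ^ n -
        δ * (B - A) := by
  classical
  have h1 := h.key ξ hξ (κ := W) (fun i => (i : L)) (fun i => hW i i.2) (fun _ => 1)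
    (A := A) (B := B) (δ := δ) hAB η (by
      intro s hs1 hs2
      refine (hδ s hs1 hs2).trans (le_of_eq ?_)
      congr 2
      · rw [sum_const, nsmul_eq_mul, mul_one]
        congr 1
        symm
        have h2 : (univ.filter fun i : W => w ((i : L) - η) ≤ Real.exp s ∧
            rad w f T n (i : L) ≤ Real.exp s) =
            (W.filter (fun y => w (y - η) ≤ Real.exp s ∧
              rad w f T n y ≤ Real.exp s)).subtype (· ∈ W) := by
          ext i
          simp [i.2]
        rw [h2, card_subtype]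
        congr 1
        rw [filter_filter]
        apply filter_congr
        intro y hy
        simp [hy]
      · congr 2
        simp)
  have h2 := h.sum_kk_ge W hW
  have h3 : ∑ i : W, ∑ j : W, (1 : ℝ) * 1 * kk w f T n (i : L) (j : L) =
      ∑ x ∈ W, ∑ y ∈ W, kk w f T n x y := by
    simp only [one_mul]
    rw [← sum_coe_sort W]
    apply sum_congr rfl
    intro i _
    rw [← sum_coe_sort W]
  have h4 : (∑ _i : W, (1 : ℝ)) = W.card := by simp
  rw [h3, h4] at h1
  linarith

/-- The energy of a finite set. -/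
theorem energy_le [Fact p.Prime] [CharP L p] {n : ℕ} (W : Finset L)
    (hW : ∀ x ∈ W, w ((it f n).eval x) ≤ T) :
    ∑ x ∈ W, ∑ y ∈ W, Real.log (w (x - y)) ≤
      W.card * (f.natDegree * Real.log T) + W.card ^ 2 * Real.log T / (f.natDegree : ℝ) ^ n := by
  obtain ⟨ξ, hξ⟩ := exists_enum (it f n).roots
  have := h.energy_gain W hW ξ hξ (le_refl (0 : ℝ)) (δ := 0) 0 (fun s h1 h2 => by linarith)
  simpa using this

/-- The potential at a point. -/
theorem potential_le [Fact p.Prime] [CharP L p] {n : ℕ} (W : Finset L)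
    (hW : ∀ x ∈ W, w ((it f n).eval x) ≤ T) (z : L) (hz : w ((it f n).eval z) ≤ T) (t : ℝ)
    (ht : 0 < t) :
    t ^ 2 * (∑ x ∈ W, ∑ y ∈ W, Real.log (w (x - y))) +
      2 * t * W.card * ∑ y ∈ W, Real.log (w (z - y)) ≤
      (t + 1) ^ 2 * W.card ^ 2 * Real.log T / (f.natDegree : ℝ) ^ n +
      (t ^ 2 * W.card + 2 * t * W.card + W.card ^ 2) * (f.natDegree * Real.log T) := by
  classical
  rcases W.eq_empty_or_nonempty with rfl | hne
  · simp
  have hM : (0 : ℝ) < W.card := by exact_mod_cast hne.card_pos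
  set M : ℝ := (W.card : ℝ) with hMdef
  have hρ := h.rho_pos
  have hd := h.two_le
  have h1 := h.key0 (n := n) (κ := W ⊕ Unit) (Sum.elim (fun i => (i : L)) (fun _ => z))
    (by
      rintro (i | i)
      · exact hW i i.2
      · exact hz) (Sum.elim (fun _ => t) (fun _ => M))
  have h2 : ∑ i : W ⊕ Unit, Sum.elim (fun _ : W => t) (fun _ : Unit => M) i = (t + 1) * M := by
    rw [Fintype.sum_sum_type]
    simp only [Sum.elim_inl, Sum.elim_inr, sum_const, card_univ, Fintype.card_coe, nsmul_eq_mul,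
      Fintype.card_unit, Nat.cast_one, one_mul]
    ring
  rw [h2, Fintype.sum_sum_type] at h1
  simp only [Fintype.sum_sum_type, Sum.elim_inl, Sum.elim_inr, univ_unique, sum_singleton] at h1
  rw [sum_add_distrib] at h1
  have h3 : ∑ x : W, ∑ y : W, t * t * kk w f T n (x : L) (y : L) =
      t * t * ∑ x ∈ W, ∑ y ∈ W, kk w f T n x y := by
    rw [mul_sum, ← sum_coe_sort W]
    apply sum_congr rfl
    intro i _
    rw [mul_sum, ← sum_coe_sort W]
  have h4 : ∑ x : W, t * M * kk w f T n (x : L) z = t * M * ∑ y ∈ W, kk w f T n z y := by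
    rw [mul_sum, ← sum_coe_sort W]
    apply sum_congr rfl
    intro i _
    rw [kk_symm n (i : L) z]
  have h5 : ∑ x : W, M * t * kk w f T n z (x : L) = t * M * ∑ y ∈ W, kk w f T n z y := by
    rw [mul_sum, ← sum_coe_sort W]
    apply sum_congr rfl
    intro i _
    ring
  rw [h3, h4, h5] at h1
  have h6 := h.sum_kk_ge W hW
  have h7 : ∑ y ∈ W, Real.log (w (z - y)) - f.natDegree * Real.log T ≤
      ∑ y ∈ W, kk w f T n z y := by
    have h8 : ∑ y ∈ W, (Real.log (w (z - y)) -
        (if z = y then (f.natDegree : ℝ) * Real.log T else 0)) ≤ ∑ y ∈ W, kk w f T n z y :=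
      sum_le_sum fun y _ => h.kk_ge hz y
    refine le_trans ?_ h8
    rw [sum_sub_distrib]
    have h9 : ∑ y ∈ W, (if z = y then (f.natDegree : ℝ) * Real.log T else 0) ≤
        f.natDegree * Real.log T := by
      rw [sum_ite_eq]
      split_ifs
      · exact le_rfl
      · positivity
    linarith
  have h8 : - (f.natDegree * Real.log T) ≤ kk w f T n z z := by
    rw [h.kk_self]
    exact h.log_rad_ge hz
  have h9 : t * t * (∑ x ∈ W, ∑ y ∈ W, Real.log (w (x - y)) - M * (f.natDegree * Real.log T)) ≤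
      t * t * ∑ x ∈ W, ∑ y ∈ W, kk w f T n x y :=
    mul_le_mul_of_nonneg_left h6 (by positivity)
  have h10 : t * M * (∑ y ∈ W, Real.log (w (z - y)) - f.natDegree * Real.log T) ≤
      t * M * ∑ y ∈ W, kk w f T n z y :=
    mul_le_mul_of_nonneg_left h7 (by positivity)
  have h11 : M * M * (- (f.natDegree * Real.log T)) ≤ M * M * kk w f T n z z :=
    mul_le_mul_of_nonneg_left h8 (by positivity)
  have h12 : ((t + 1) * M) ^ 2 * Real.log T / (f.natDegree : ℝ) ^ n =
      (t + 1) ^ 2 * M ^ 2 * Real.log T / (f.natDegree : ℝ) ^ n := by ring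
  rw [h12] at h1
  nlinarith [h1, h9, h10, h11]

/-- A lower bound for the mass of the measure of level `n` near `η`. -/
lemma mass_ge {l n : ℕ} (hln : l ≤ n) {ι : Type*} [Fintype ι] (ξ : ι → L)
    (hξ : (univ : Finset ι).val.map ξ = (it f n).roots) {η : L}
    (hη : w ((it f l).eval η) ≤ T) {s : ℝ} (hs : Real.log (rad w f T l η) ≤ s) :
    (1 : ℝ) / (f.natDegree : ℝ) ^ l ≤ 1 / (f.natDegree : ℝ) ^ n *
      (univ.filter (fun j => w (ξ j - η) ≤ Real.exp s ∧
          rad w f T n (ξ j) ≤ Real.exp s)).card := by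
  classical
  obtain ⟨k, rfl⟩ := Nat.exists_eq_add_of_le' hln
  have hd0 : (0 : ℝ) < f.natDegree := by exact_mod_cast h.deg_pos
  have h1 := h.mass (l := l) (k := k) hη
  rw [← hξ, Multiset.filter_map, Multiset.card_map] at h1
  have h2 : Multiset.card (Multiset.filter ((fun ξ => w (η - ξ) ≤ rad w f T l η) ∘ ξ)
      (univ : Finset ι).val) ≤ (univ.filter (fun j => w (ξ j - η) ≤ Real.exp s ∧
          rad w f T (k + l) (ξ j) ≤ Real.exp s)).card := by
    rw [← Finset.filter_val]
    apply card_le_card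
    intro j hj
    rw [mem_filter] at hj ⊢
    have h3 : w (η - ξ j) ≤ rad w f T l η := hj.2
    have h4 : rad w f T l η ≤ Real.exp s := (Real.log_le_iff_le_exp (h.rad_pos _ _)).mp hs
    refine ⟨mem_univ _, ?_, ?_⟩
    · rw [AbsoluteValue.map_sub w]
      exact h3.trans h4
    · have h5 := h.rad_center h3
      have h6 : w ((it f (k + l)).eval (ξ j)) ≤ T := by
        have h7 : ξ j ∈ (it f (k + l)).roots := by
          rw [← hξ, Multiset.mem_map]
          exact ⟨j, by simp, rfl⟩
        have h8 := (mem_roots (h.it_mon (k + l)).ne_zero).mp h7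
        rw [IsRoot.def] at h8
        rw [h8, map_zero]
        exact h.T_pos.le
      have h7 := h.rad_le_of_le (Nat.le_add_left l k) h6
      rw [h5] at h7
      exact h7.trans h4
  have h3 : ((f.natDegree : ℝ)) ^ k ≤ ((univ.filter (fun j => w (ξ j - η) ≤ Real.exp s ∧
          rad w f T (k + l) (ξ j) ≤ Real.exp s)).card : ℝ) := by
    exact_mod_cast h1.trans h2
  have h4 : (1 : ℝ) / (f.natDegree : ℝ) ^ l = 1 / (f.natDegree : ℝ) ^ (k + l) *
      (f.natDegree : ℝ) ^ k := by
    rw [pow_add]
    field_simp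
  rw [h4]
  exact mul_le_mul_of_nonneg_left h3 (by positivity)

/-- If the set avoids a region then its energy drops. -/
theorem energy_avoid [Fact p.Prime] [CharP L p] {n : ℕ} (hn : 1 ≤ n) (W : Finset L)
    (hW : ∀ x ∈ W, w ((it f n).eval x) ≤ T) {η : L} (hη : w (f.eval η) ≤ T)
    (hcard : ((W.filter fun y => w (y - η) ≤ Real.exp (3 / 4 * Real.log T)).card : ℝ) ≤
      W.card / (2 * f.natDegree)) :
    ∑ x ∈ W, ∑ y ∈ W, Real.log (w (x - y)) ≤
      W.card * (f.natDegree * Real.log T) + W.card ^ 2 * Real.log T / (f.natDegree : ℝ) ^ n -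
        W.card ^ 2 * Real.log T / (16 * (f.natDegree : ℝ) ^ 2) := by
  obtain ⟨ξ, hξ⟩ := exists_enum (it f n).roots
  have hρ := h.rho_pos
  have hd := h.two_le
  have hη1 : w ((it f 1).eval η) ≤ T := by rwa [it_one]
  have hη0 : w ((it f 0).eval η) ≤ T := h.mem_of_mem hη1
  have hrad : Real.log (rad w f T 1 η) ≤ 1 / 2 * Real.log T := by
    have h1 := h.log_rad_lower hη0
    rw [h.rad_zero, zero_add, pow_one] at h1
    have h2 : (f.natDegree : ℝ) * Real.log (rad w f T 1 η) ≤ Real.log T := by linarith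
    have h3 : 2 * Real.log (rad w f T 1 η) ≤ Real.log T := by
      by_cases h4 : 0 ≤ Real.log (rad w f T 1 η)
      · exact (mul_le_mul_of_nonneg_right hd h4).trans h2
      · push Not at h4
        linarith
    linarith
  have h1 := h.energy_gain W hW ξ hξ (A := 1 / 2 * Real.log T) (B := 3 / 4 * Real.log T)
    (δ := W.card ^ 2 / (4 * (f.natDegree : ℝ) ^ 2)) (by linarith) η (by
      intro s hs1 hs2
      have h2 := h.mass_ge hn ξ hξ hη1 (hrad.trans hs1.le)
      rw [pow_one] at h2
      set N2 : ℝ := ((univ.filter (fun j => w (ξ j - η) ≤ Real.exp s ∧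
          rad w f T n (ξ j) ≤ Real.exp s)).card : ℝ) with hN2
      have h3 : ((W.filter (fun y => w (y - η) ≤ Real.exp s ∧
          rad w f T n y ≤ Real.exp s)).card : ℝ) ≤ W.card / (2 * f.natDegree) := by
        refine le_trans ?_ hcard
        have : (W.filter (fun y => w (y - η) ≤ Real.exp s ∧ rad w f T n y ≤ Real.exp s)).card ≤
            (W.filter fun y => w (y - η) ≤ Real.exp (3 / 4 * Real.log T)).card := by
          apply card_le_card
          intro y hy
          rw [mem_filter] at hy ⊢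
          exact ⟨hy.1, hy.2.1.trans (Real.exp_le_exp.mpr hs2.le)⟩
        exact_mod_cast this
      have h4 : (W.card : ℝ) / f.natDegree ≤ W.card / (f.natDegree : ℝ) ^ n * N2 := by
        have h5 : (W.card : ℝ) * (1 / f.natDegree) ≤ W.card * (1 / (f.natDegree : ℝ) ^ n * N2) :=
          mul_le_mul_of_nonneg_left h2 (by positivity)
        calc (W.card : ℝ) / f.natDegree = W.card * (1 / f.natDegree) := by ring
          _ ≤ _ := h5
          _ = _ := by ring
      have h5 : (W.card : ℝ) / (2 * f.natDegree) ≤ W.card / (f.natDegree : ℝ) ^ n * N2 -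
          ((W.filter (fun y => w (y - η) ≤ Real.exp s ∧
          rad w f T n y ≤ Real.exp s)).card : ℝ) := by
        have h6 : (W.card : ℝ) / f.natDegree = 2 * (W.card / (2 * f.natDegree)) := by
          field_simp
        linarith
      have h6 : (0 : ℝ) ≤ W.card / (2 * f.natDegree) := by positivity
      calc (W.card : ℝ) ^ 2 / (4 * (f.natDegree : ℝ) ^ 2) = (W.card / (2 * f.natDegree)) ^ 2 := by
            ring
        _ ≤ (W.card / (f.natDegree : ℝ) ^ n * N2 -
          ((W.filter (fun y => w (y - η) ≤ Real.exp s ∧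
          rad w f T n y ≤ Real.exp s)).card : ℝ)) ^ 2 := pow_le_pow_left₀ h6 h5 2
        _ = _ := by ring)
  refine h1.trans (le_of_eq ?_)
  field_simp
  ring

/-- If all the points of one component of level `l` are in the same component of level `l + 1`
then the energy drops. -/
theorem energy_gap [Fact p.Prime] [CharP L p] {l n : ℕ} (hn : l + 1 ≤ n) (W : Finset L)
    (hW : ∀ x ∈ W, w ((it f n).eval x) ≤ T) {x : L} (hx : w ((it f l).eval x) ≤ T)
    (hgap : ∀ y ∈ W, w (x - y) ≤ rad w f T l x → w (x - y) ≤ rad w f T (l + 1) x) :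
    ∑ x ∈ W, ∑ y ∈ W, Real.log (w (x - y)) ≤
      W.card * (f.natDegree * Real.log T) + W.card ^ 2 * Real.log T / (f.natDegree : ℝ) ^ n -
        W.card ^ 2 * Real.log T / ((f.natDegree : ℝ) ^ (3 * (l + 1))) := by
  obtain ⟨ξ, hξ⟩ := exists_enum (it f n).roots
  have hρ := h.rho_pos
  have hd := h.two_le
  have hd0 : (0 : ℝ) < f.natDegree := by linarith
  obtain ⟨η, hη1, hη2⟩ := h.exists_far' hx
  have hη3 : w ((it f l).eval η) ≤ T := h.mem_of_mem hη2
  have hrl : rad w f T l η = rad w f T l x := h.rad_center hη1.le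
  have hlt := h.rad_lt hη3
  have hltx := h.rad_lt hx
  have h1 := h.energy_gain W hW ξ hξ (A := Real.log (rad w f T (l + 1) η))
    (B := Real.log (rad w f T l η)) (δ := W.card ^ 2 / ((f.natDegree : ℝ) ^ (2 * (l + 1))))
    (Real.log_le_log (h.rad_pos _ _) hlt.le) η (by
      intro s hs1 hs2
      have h2 := h.mass_ge hn ξ hξ hη2 hs1.le
      set N2 : ℝ := ((univ.filter (fun j => w (ξ j - η) ≤ Real.exp s ∧
          rad w f T n (ξ j) ≤ Real.exp s)).card : ℝ) with hN2
      have h3 : W.filter (fun y => w (y - η) ≤ Real.exp s ∧ rad w f T n y ≤ Real.exp s) = ∅ := by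
        rw [eq_empty_iff_forall_notMem]
        intro y hy
        rw [mem_filter] at hy
        have h4 : Real.exp s < rad w f T l x := by
          rw [← hrl]
          exact (Real.lt_log_iff_exp_lt (h.rad_pos _ _)).mp hs2
        have h5 : w (x - y) ≤ rad w f T l x := by
          have h6 := um h.na x η y
          rw [hη1, AbsoluteValue.map_sub w η] at h6
          exact h6.trans (max_le le_rfl (hy.2.1.trans h4.le))
        have h6 := hgap y hy.1 h5
        have h7 := um h.na x y η
        rw [hη1] at h7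
        have h8 : max (w (x - y)) (w (y - η)) < rad w f T l x :=
          max_lt (h6.trans_lt hltx) (hy.2.1.trans_lt h4)
        linarith
      rw [h3, card_empty, Nat.cast_zero, zero_sub, neg_sq]
      have h4 : (W.card : ℝ) / (f.natDegree : ℝ) ^ (l + 1) ≤
          W.card / (f.natDegree : ℝ) ^ n * N2 := by
        have h5 : (W.card : ℝ) * (1 / (f.natDegree : ℝ) ^ (l + 1)) ≤
            W.card * (1 / (f.natDegree : ℝ) ^ n * N2) :=
          mul_le_mul_of_nonneg_left h2 (by positivity)
        calc (W.card : ℝ) / (f.natDegree : ℝ) ^ (l + 1) =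
              W.card * (1 / (f.natDegree : ℝ) ^ (l + 1)) := by ring
          _ ≤ _ := h5
          _ = _ := by ring
      have h6 : (0 : ℝ) ≤ W.card / (f.natDegree : ℝ) ^ (l + 1) := by positivity
      calc (W.card : ℝ) ^ 2 / ((f.natDegree : ℝ) ^ (2 * (l + 1))) =
            (W.card / (f.natDegree : ℝ) ^ (l + 1)) ^ 2 := by
            rw [div_pow, ← pow_mul, mul_comm 2]
        _ ≤ _ := pow_le_pow_left₀ h6 h4 2)
  have h2 := h.log_rad_lower hη3
  have h3 : Real.log T / (f.natDegree : ℝ) ^ (l + 1) ≤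
      Real.log (rad w f T l η) - Real.log (rad w f T (l + 1) η) := by
    rw [div_le_iff₀ (by positivity)]
    have h4 : Real.log T ≤ ((f.natDegree : ℝ) - 1) * Real.log T := by nlinarith
    linarith
  have h4 : (W.card : ℝ) ^ 2 * Real.log T / ((f.natDegree : ℝ) ^ (3 * (l + 1))) ≤
      W.card ^ 2 / ((f.natDegree : ℝ) ^ (2 * (l + 1))) *
        (Real.log (rad w f T l η) - Real.log (rad w f T (l + 1) η)) := by
    calc (W.card : ℝ) ^ 2 * Real.log T / ((f.natDegree : ℝ) ^ (3 * (l + 1))) =
          W.card ^ 2 / ((f.natDegree : ℝ) ^ (2 * (l + 1))) *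
            (Real.log T / (f.natDegree : ℝ) ^ (l + 1)) := by
          have : (f.natDegree : ℝ) ^ (3 * (l + 1)) = (f.natDegree : ℝ) ^ (2 * (l + 1)) *
              (f.natDegree : ℝ) ^ (l + 1) := by rw [← pow_add]; congr 1; ring
          rw [this]
          field_simp
      _ ≤ _ := mul_le_mul_of_nonneg_left h3 (by positivity)
  linarith

end Bad

end Pool.Agent.V7H78.UB
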