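import Mathlib
import Pool.Agent.V7H78.UB.Loc
import Pool.Agent.V7H78.UB.Ext

/-!
# Local quantities of a polynomial over a valued field
-/

namespace Pool.Agent.V7H78.UB

open Polynomial Finset

universe u

section Defs

variable {K : Type*} [Field K] (v : AbsoluteValue K ℝ) (f : K[X])

/-- The normalising shift. -/
noncomputable def al : ℝ := Real.log (v f.leadingCoeff) / ((f.natDegree : ℝ) - 1)

/-- The slope attached to a coefficient. -/
noncomputable def slp (j : ℕ) : ℝ :=
  (Real.log (v (f.coeff j)) + (1 - (j : ℝ)) * al v f) / ((f.natDegree : ℝ) - j)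

open Classical in
/-- The finite set of all slopes, with zero. -/
noncomputable def slps : Finset ℝ :=
  insert 0 (((range f.natDegree).filter fun j => f.coeff j ≠ 0).image (slp v f))

lemma slps_nonempty : (slps v f).Nonempty := ⟨0, by simp [slps]⟩

/-- The normalised size of the filled Julia set. -/
noncomputable def rho : ℝ := (slps v f).max' (slps_nonempty v f)

open Classical in
/-- The normalised logarithm of a distance, zero on the diagonal. -/
noncomputable def nrm (x y : K) : ℝ := if x = y then 0 else Real.log (v (x - y)) + al v f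

variable {v f}

lemma rho_nonneg : 0 ≤ rho v f := le_max' _ _ (by simp [slps])

lemma slp_le {j : ℕ} (hj : j < f.natDegree) (hc : f.coeff j ≠ 0) : slp v f j ≤ rho v f := by
  classical
  have h1 : slp v f j ∈ slps v f := by
    unfold slps
    rw [mem_insert, mem_image]
    right
    exact ⟨j, mem_filter.mpr ⟨mem_range.mpr hj, hc⟩, rfl⟩
  exact le_max' _ _ h1

lemma rho_att (h : 0 < rho v f) : ∃ j, j < f.natDegree ∧ f.coeff j ≠ 0 ∧ slp v f j = rho v f := by
  classical
  have h1 : rho v f ∈ slps v f := max'_mem (slps v f) (slps_nonempty v f)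
  unfold slps at h1
  rw [mem_insert, mem_image] at h1
  rcases h1 with h1 | ⟨j, hj, h1⟩
  · exact absurd h1 h.ne'
  · rw [mem_filter, mem_range] at hj
    exact ⟨j, hj.1, hj.2, h1⟩

lemma le_rho_mul {j : ℕ} (hj : j < f.natDegree) (hc : f.coeff j ≠ 0) :
    Real.log (v (f.coeff j)) + (1 - (j : ℝ)) * al v f ≤ ((f.natDegree : ℝ) - j) * rho v f := by
  have h1 := slp_le (v := v) hj hc
  have h2 : (0 : ℝ) < (f.natDegree : ℝ) - j := by
    rw [sub_pos]
    exact_mod_cast hj
  rw [slp, div_le_iff₀ h2] at h1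
  linarith

lemma att_mul (h : 0 < rho v f) : ∃ j, j < f.natDegree ∧ f.coeff j ≠ 0 ∧
    Real.log (v (f.coeff j)) + (1 - (j : ℝ)) * al v f = ((f.natDegree : ℝ) - j) * rho v f := by
  obtain ⟨j, hj, hc, h1⟩ := rho_att h
  refine ⟨j, hj, hc, ?_⟩
  have h2 : (0 : ℝ) < (f.natDegree : ℝ) - j := by
    rw [sub_pos]
    exact_mod_cast hj
  rw [slp, div_eq_iff h2.ne'] at h1
  linarith

lemma al_mul (hd : 2 ≤ f.natDegree) :
    ((f.natDegree : ℝ) - 1) * al v f = Real.log (v f.leadingCoeff) := by
  have h2 : (2 : ℝ) ≤ f.natDegree := by exact_mod_cast hd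
  unfold al
  field_simp
  rw [mul_comm, mul_div_assoc, div_self (by linarith), mul_one]

/-- Outside of the big disc the leading term dominates. -/
lemma eval_dom (hv : IsNonarchimedean v) (hd : 2 ≤ f.natDegree) {z : K} (hz0 : z ≠ 0)
    (hz : rho v f < Real.log (v z) + al v f) :
    v (f.eval z) = v f.leadingCoeff * v z ^ f.natDegree := by
  have hf : f.leadingCoeff ≠ 0 := by
    intro h0
    rw [leadingCoeff_eq_zero] at h0
    rw [h0, natDegree_zero] at hd
    omega
  have hvz : 0 < v z := v.pos hz0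
  have hvf : 0 < v f.leadingCoeff := v.pos hf
  have h1 : v (f.eval z) = v (f.coeff f.natDegree * z ^ f.natDegree) := by
    rw [eval_eq_sum_range]
    apply IsNonarchimedean.apply_sum_eq_of_lt hv (fun a => (AbsoluteValue.map_neg v a).symm)
      (by simp)
    intro j hj hne
    rw [mem_range] at hj
    have hj' : j < f.natDegree := by omega
    rw [coeff_natDegree]
    by_cases hc : f.coeff j = 0
    · rw [hc, zero_mul, map_zero]
      apply v.pos
      exact mul_ne_zero hf (pow_ne_zero _ hz0)
    · have hvc : 0 < v (f.coeff j) := v.pos hc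
      rw [map_mul, map_pow, map_mul, map_pow]
      rw [← Real.log_lt_log_iff (by positivity) (by positivity)]
      rw [Real.log_mul hvc.ne' (by positivity), Real.log_mul hvf.ne' (by positivity),
        Real.log_pow, Real.log_pow]
      have h2 := le_rho_mul (v := v) hj' hc
      have h3 := al_mul (v := v) hd
      have h4 : (0 : ℝ) < (f.natDegree : ℝ) - j := by
        rw [sub_pos]
        exact_mod_cast hj'
      have h5 := mul_lt_mul_of_pos_left hz h4
      nlinarith [h2, h3, h5]
  rw [h1, map_mul, map_pow, coeff_natDegree]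

/-- A finite invariant set is contained in the big disc. -/
lemma mem_disc (hv : IsNonarchimedean v) (hd : 2 ≤ f.natDegree) {S : Finset K}
    (hS : ∀ x ∈ S, f.eval x ∈ S) {z : K} (hz : z ∈ S) (hz0 : z ≠ 0) :
    Real.log (v z) + al v f ≤ rho v f := by
  classical
  by_contra hcon
  push Not at hcon
  obtain ⟨y, hy, hmax⟩ := exists_max_image (S.filter fun x => x ≠ 0) (fun x => Real.log (v x))
    ⟨z, mem_filter.mpr ⟨hz, hz0⟩⟩
  rw [mem_filter] at hy
  have h1 : Real.log (v z) ≤ Real.log (v y) := hmax z (mem_filter.mpr ⟨hz, hz0⟩)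
  have hy2 : rho v f < Real.log (v y) + al v f := by linarith
  have h2 := eval_dom hv hd hy.2 hy2
  have h3 := al_mul (v := v) hd
  have hd2 : (2 : ℝ) ≤ f.natDegree := by exact_mod_cast hd
  have hρ := rho_nonneg (v := v) (f := f)
  have hf : f.leadingCoeff ≠ 0 := by
    intro h0
    rw [leadingCoeff_eq_zero] at h0
    rw [h0, natDegree_zero] at hd
    omega
  have hvy : 0 < v y := v.pos hy.2
  have hvf : 0 < v f.leadingCoeff := v.pos hf
  have h4 : Real.log (v y) < Real.log (v (f.eval y)) := by
    rw [h2, Real.log_mul hvf.ne' (by positivity), Real.log_pow, ← h3]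
    nlinarith [hy2, hρ]
  have h5 : f.eval y ≠ 0 := by
    intro h0
    rw [h0, map_zero] at h2
    have : 0 < v f.leadingCoeff * v y ^ f.natDegree := by positivity
    exact this.ne h2
  have h6 : Real.log (v (f.eval y)) ≤ Real.log (v y) :=
    hmax (f.eval y) (mem_filter.mpr ⟨hS y hy.1, h5⟩)
  linarith

lemma nrm_symm (x y : K) : nrm v f x y = nrm v f y x := by
  by_cases h : x = y
  · rw [h]
  · unfold nrm
    rw [AbsoluteValue.map_sub v x y, if_neg h, if_neg (Ne.symm h)]

lemma nrm_self (x : K) : nrm v f x x = 0 := by simp [nrm]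

lemma nrm_of_ne {x y : K} (h : x ≠ y) : nrm v f x y = Real.log (v (x - y)) + al v f := by
  simp [nrm, h]

lemma nrm_ult (hv : IsNonarchimedean v) {x y z : K} (hxy : x ≠ y) (hyz : y ≠ z) (hxz : x ≠ z) :
    nrm v f x z ≤ max (nrm v f x y) (nrm v f y z) := by
  rw [nrm_of_ne hxy, nrm_of_ne hyz, nrm_of_ne hxz]
  have h1 := um hv x y z
  have hxy' : 0 < v (x - y) := v.pos (sub_ne_zero.mpr hxy)
  have hyz' : 0 < v (y - z) := v.pos (sub_ne_zero.mpr hyz)
  have hxz' : 0 < v (x - z) := v.pos (sub_ne_zero.mpr hxz)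
  rw [max_add_add_right]
  gcongr
  rcases le_max_iff.mp h1 with h2 | h2
  · exact le_max_of_le_left (Real.log_le_log hxz' h2)
  · exact le_max_of_le_right (Real.log_le_log hxz' h2)

lemma nrm_le (hv : IsNonarchimedean v) (hd : 2 ≤ f.natDegree) {S : Finset K}
    (h0 : (0 : K) ∈ S) (hS : ∀ x ∈ S, f.eval x ∈ S) {x y : K} (hx : x ∈ S) (hy : y ∈ S) :
    nrm v f x y ≤ rho v f := by
  by_cases hxy : x = y
  · subst hxy
    rw [nrm_self]
    exact rho_nonneg
  by_cases hx0 : x = 0
  · subst hx0
    rw [nrm_of_ne hxy, zero_sub, AbsoluteValue.map_neg]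
    exact mem_disc hv hd hS hy (Ne.symm hxy)
  by_cases hy0 : y = 0
  · subst hy0
    rw [nrm_of_ne hxy, sub_zero]
    exact mem_disc hv hd hS hx hxy
  have h1 := nrm_ult (f := f) hv hx0 (Ne.symm hy0) hxy
  refine h1.trans (max_le ?_ ?_)
  · rw [nrm_of_ne hx0, sub_zero]
    exact mem_disc hv hd hS hx hx0
  · rw [nrm_of_ne (Ne.symm hy0), zero_sub, AbsoluteValue.map_neg]
    exact mem_disc hv hd hS hy hy0

end Defs

end Pool.Agent.V7H78.UB
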