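import Mathlib
import Pool.Agent.V7H78.UB.KLoc

/-!
# The normalised model over an algebraically closed field
-/

namespace Pool.Agent.V7H78.UB

open Polynomial Finset

universe u

/-- Over a perfect field of characteristic `p` a polynomial with zero derivative is a power. -/
lemma exists_pow_eq {L : Type*} [Field L] [IsAlgClosed L] {p : ℕ} [Fact p.Prime] [CharP L p]
    {g : L[X]} (hg : derivative g = 0) : ∃ h : L[X], g = h ^ p := by
  have hp : p ≠ 0 := (Fact.out : p.Prime).ne_zero
  have h1 : expand L p (contract p g) = g := expand_contract p hg hp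
  have hsurj : Function.Surjective (frobenius L p) := by
    intro y
    obtain ⟨z, hz⟩ := IsAlgClosed.exists_pow_nat_eq y (Nat.pos_of_ne_zero hp)
    exact ⟨z, hz⟩
  obtain ⟨h, hh⟩ := Polynomial.map_surjective (frobenius L p) hsurj (contract p g)
  refine ⟨h, ?_⟩
  rw [← map_frobenius_expand, map_expand, hh, h1]

theorem exists_model {K : Type u} [Field K] {v : AbsoluteValue K ℝ} (hv : IsNonarchimedean v)
    {p : ℕ} [Fact p.Prime] [CharP K p] {f : K[X]} (hd : 2 ≤ f.natDegree)
    (hder : derivative f = 0) {S : Finset K} (h0 : (0 : K) ∈ S) (hS : ∀ x ∈ S, f.eval x ∈ S)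
    (hρ : 0 < rho v f) :
    ∃ (L' : Type u) (_ : Field L') (_ : IsAlgClosed L') (_ : CharP L' p) (φ : K → L')
      (w : AbsoluteValue L' ℝ) (g : L'[X]), Bad w p g (Real.exp (rho v f)) ∧
      g.natDegree = f.natDegree ∧ (∀ x y, Real.log (w (φ x - φ y)) = nrm v f x y) ∧
      Function.Injective φ ∧
      ∀ x ∈ S, ∀ n, w ((it g n).eval (φ x)) ≤ Real.exp (rho v f) := by
  classical
  have hf0 : f ≠ 0 := by
    rintro rfl
    rw [natDegree_zero] at hd
    omega
  have hlc : f.leadingCoeff ≠ 0 := leadingCoeff_ne_zero.mpr hf0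
  have hd2 : (2 : ℝ) ≤ f.natDegree := by exact_mod_cast hd
  obtain ⟨j0, hj0, hc0, hatt⟩ := att_mul hρ
  have hj0' : (0 : ℝ) < (f.natDegree : ℝ) - j0 := by
    rw [sub_pos]
    exact_mod_cast hj0
  -- the absolute value is not trivial
  have hnt : ∃ x, 1 < v x := by
    by_contra hcon
    push Not at hcon
    have h1 : ∀ x : K, x ≠ 0 → Real.log (v x) = 0 := by
      intro x hx
      have h2 : v x = 1 := by
        apply le_antisymm (hcon x)
        have h3 := hcon x⁻¹
        rw [map_inv₀] at h3
        exact (inv_le_one₀ (v.pos hx)).mp h3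
      rw [h2, Real.log_one]
    have h2 : al v f = 0 := by
      unfold al
      rw [h1 _ hlc, zero_div]
    rw [h1 _ hc0, h2] at hatt
    have : 0 < ((f.natDegree : ℝ) - j0) * rho v f := mul_pos hj0' hρ
    linarith
  obtain ⟨L', _, _, i, w, hw, hext⟩ := exists_ext v hv hnt
  have hchar : CharP L' p := (RingHom.charP_iff i i.injective p).mp inferInstance
  obtain ⟨lam, hlam⟩ := IsAlgClosed.exists_pow_nat_eq (i f.leadingCoeff)
    (show 0 < f.natDegree - 1 by omega)
  have hlam0 : lam ≠ 0 := by
    rintro rfl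
    rw [zero_pow (by omega)] at hlam
    exact hlc ((map_eq_zero i).mp hlam.symm)
  have hwlam : 0 < w lam := w.pos hlam0
  have hloglam : Real.log (w lam) = al v f := by
    have h1 : w (lam ^ (f.natDegree - 1)) = v f.leadingCoeff := by rw [hlam, hext]
    rw [map_pow] at h1
    have h2 := congrArg Real.log h1
    rw [Real.log_pow, ← al_mul hd] at h2
    have h3 : ((f.natDegree - 1 : ℕ) : ℝ) = (f.natDegree : ℝ) - 1 := by
      rw [Nat.cast_sub (by omega), Nat.cast_one]
    rw [h3] at h2
    exact mul_left_cancel₀ (by linarith) h2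
  set T : ℝ := Real.exp (rho v f) with hT
  have hT0 : 0 < T := Real.exp_pos _
  have hlogT : Real.log T = rho v f := Real.log_exp _
  have hT1 : 1 < T := by
    rw [hT, ← Real.exp_zero]
    exact Real.exp_lt_exp.mpr hρ
  set g : L'[X] := C lam * (f.map i).comp (C lam⁻¹ * X) with hg
  have hcoeff : ∀ j, g.coeff j = lam * (i (f.coeff j) * lam⁻¹ ^ j) := by
    intro j
    rw [hg, coeff_C_mul, comp_C_mul_X_coeff, coeff_map]
  have hcd : g.coeff f.natDegree = 1 := by
    rw [hcoeff]
    have h1 : f.natDegree = (f.natDegree - 1) + 1 := by omega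
    have h2 : lam⁻¹ ^ f.natDegree = lam⁻¹ * (i f.leadingCoeff)⁻¹ := by
      rw [← hlam]
      conv_lhs => rw [h1, pow_succ']
      rw [inv_pow]
    rw [h2]
    have h3 : i (f.coeff f.natDegree) = i f.leadingCoeff := rfl
    rw [h3]
    have h4 : i f.leadingCoeff ≠ 0 := (map_ne_zero i).mpr hlc
    field_simp
  have hdeg : g.natDegree = f.natDegree := by
    apply le_antisymm
    · rw [natDegree_le_iff_coeff_eq_zero]
      intro N hN
      rw [hcoeff, coeff_eq_zero_of_natDegree_lt hN, map_zero, zero_mul, mul_zero]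
    · apply le_natDegree_of_ne_zero
      rw [hcd]
      exact one_ne_zero
  have hmon : g.Monic := by
    rw [Monic, leadingCoeff, hdeg, hcd]
  have hlogc : ∀ j, f.coeff j ≠ 0 →
      Real.log (w (g.coeff j)) = Real.log (v (f.coeff j)) + (1 - (j : ℝ)) * al v f := by
    intro j hj
    have hvc : 0 < v (f.coeff j) := v.pos hj
    rw [hcoeff, map_mul, map_mul, hext, map_pow, map_inv₀,
      Real.log_mul hwlam.ne' (by positivity), Real.log_mul hvc.ne' (by positivity), Real.log_pow,
      Real.log_inv, hloglam]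
    ring
  have hcne : ∀ j, f.coeff j ≠ 0 → g.coeff j ≠ 0 := by
    intro j hj
    rw [hcoeff]
    exact mul_ne_zero hlam0 (mul_ne_zero ((map_ne_zero i).mpr hj)
      (pow_ne_zero _ (inv_ne_zero hlam0)))
  have hgn : ∀ R : ℝ, gn w g 0 R = g.gaussNorm w R := by
    intro R
    unfold gn
    rw [C_0, add_zero, comp_X]
  have htop : gn w g 0 T = T ^ g.natDegree := by
    rw [hgn]
    apply le_antisymm
    · obtain ⟨j, hj⟩ := exists_eq_gaussNorm w T g
      rw [hj]
      rcases lt_trichotomy j g.natDegree with h1 | h1 | h1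
      · by_cases hc : f.coeff j = 0
        · rw [hcoeff, hc, map_zero, zero_mul, mul_zero, map_zero, zero_mul]
          positivity
        · have hwc : 0 < w (g.coeff j) := w.pos (hcne j hc)
          rw [← Real.log_le_log_iff (by positivity) (by positivity),
            Real.log_mul hwc.ne' (by positivity), Real.log_pow, Real.log_pow, hlogT, hlogc j hc]
          rw [hdeg] at h1 ⊢
          have h2 := le_rho_mul (v := v) h1 hc
          linarith
      · rw [h1, hdeg, hcd, map_one, one_mul]
      · rw [coeff_eq_zero_of_natDegree_lt h1, map_zero, zero_mul]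
        positivity
    · have h1 := le_gaussNorm w g hT0.le g.natDegree
      rw [hdeg, hcd, map_one, one_mul] at h1
      rw [hdeg]
      exact h1
  have hfar : ∃ η, w η = T ∧ g.eval η = 0 := by
    by_contra hcon
    push Not at hcon
    have h1 : ∀ ξ ∈ g.roots, w ξ < T := by
      intro ξ hξ
      have h2 := (mem_roots hmon.ne_zero).mp hξ
      have h3 := root_le_aux hw hT0 hmon htop h2
      exact lt_of_le_of_ne h3 fun h4 => hcon ξ h4 h2
    obtain ⟨R, hR0, hRT, hR⟩ : ∃ R, 0 < R ∧ R < T ∧ ∀ ξ ∈ g.roots, w ξ ≤ R := by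
      have key : ∀ s : Multiset L', (∀ ξ ∈ s, w ξ < T) →
          ∃ R, 0 < R ∧ R < T ∧ ∀ ξ ∈ s, w ξ ≤ R := by
        intro s
        induction s using Multiset.induction_on with
        | empty => intro _; exact ⟨T / 2, by linarith, by linarith, by simp⟩
        | cons a s ih =>
          intro hs
          obtain ⟨R1, h1, h2, h3⟩ := ih fun ξ hξ => hs ξ (Multiset.mem_cons_of_mem hξ)
          refine ⟨max R1 (w a), lt_max_of_lt_left h1, max_lt h2 (hs a (Multiset.mem_cons_self a s)),
            ?_⟩
          intro ξ hξ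
          rcases Multiset.mem_cons.mp hξ with rfl | h4
          · exact le_max_right _ _
          · exact (h3 ξ h4).trans (le_max_left _ _)
      exact key _ h1
    have h2 : gn w g 0 R = R ^ g.natDegree := by
      rw [gn_roots_monic hw hR0 hmon]
      have h3 : ∀ ξ ∈ g.roots, max (w (0 - ξ)) R = R := by
        intro ξ hξ
        rw [zero_sub, AbsoluteValue.map_neg, max_eq_right (hR ξ hξ)]
      rw [Multiset.map_congr rfl h3, Multiset.map_const', Multiset.prod_replicate,
        ← (IsAlgClosed.splits g).natDegree_eq_card_roots]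
    rw [hgn] at h2
    have h3 := le_gaussNorm w g hR0.le j0
    rw [h2, hdeg] at h3
    have hwc : 0 < w (g.coeff j0) := w.pos (hcne j0 hc0)
    have h4 := Real.log_le_log (by positivity) h3
    rw [Real.log_mul hwc.ne' (by positivity), Real.log_pow, Real.log_pow, hlogc j0 hc0, hatt] at h4
    have h5 : Real.log R < rho v f := by
      rw [← hlogT]
      exact Real.log_lt_log hR0 hRT
    have h6 := mul_lt_mul_of_pos_left h5 hj0'
    linarith
  have hphi : ∀ y ∈ S, w (lam * i y) ≤ T := by
    intro y hy
    by_cases hy0 : y = 0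
    · rw [hy0, map_zero, mul_zero, map_zero]
      exact hT0.le
    · have h1 := mem_disc hv hd hS hy hy0
      have hvy : 0 < v y := v.pos hy0
      rw [map_mul, hext, ← Real.log_le_log_iff (by positivity) hT0,
        Real.log_mul hwlam.ne' hvy.ne', hloglam, hlogT]
      linarith
  have heval : ∀ x : K, g.eval (lam * i x) = lam * i (f.eval x) := by
    intro x
    rw [hg, eval_mul, eval_C, eval_comp, eval_mul, eval_C, eval_X, ← mul_assoc,
      inv_mul_cancel₀ hlam0, one_mul, eval_map, eval₂_hom]
  have hpow : ∃ h : L'[X], g = h ^ p := by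
    apply exists_pow_eq
    rw [hg, derivative_mul, derivative_C, zero_mul, zero_add, derivative_comp, derivative_map,
      hder, Polynomial.map_zero, zero_comp, mul_zero, mul_zero]
  refine ⟨L', inferInstance, inferInstance, hchar, fun x => lam * i x, w, g,
    ⟨hw, hmon, by rw [hdeg]; exact hd, hT1, htop, hfar, ?_, hpow⟩, hdeg, ?_, ?_, ?_⟩
  · have h1 := heval 0
    rw [map_zero, mul_zero] at h1
    rw [h1]
    exact hphi _ (hS 0 h0)
  · intro x y
    by_cases hxy : x = y
    · subst hxy
      rw [nrm_self, sub_self, map_zero, Real.log_zero]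
    · have hvy : 0 < v (x - y) := v.pos (sub_ne_zero.mpr hxy)
      rw [nrm_of_ne hxy, ← mul_sub, ← map_sub, map_mul, hext, Real.log_mul hwlam.ne' hvy.ne',
        hloglam]
      ring
  · intro x y hxy
    exact i.injective (mul_left_cancel₀ hlam0 hxy)
  · intro x hx n
    have h1 : ∀ n : ℕ, ∃ y ∈ S, (it g n).eval (lam * i x) = lam * i y := by
      intro n
      induction n with
      | zero => exact ⟨x, hx, by simp [it]⟩
      | succ n ih =>
        obtain ⟨y, hy, h2⟩ := ih
        exact ⟨f.eval y, hS y hy, by rw [it_eval_succ, h2, heval]⟩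
    obtain ⟨y, hy, h2⟩ := h1 n
    rw [h2]
    exact hphi y hy

end Pool.Agent.V7H78.UB
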