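import Mathlib
import Pool.Agent.V7H78.UB.Model

/-!
# Local inequalities over the base field
-/

namespace Pool.Agent.V7H78.UB

open Polynomial Finset

universe u

/-- The excess of the largest of the three distances over their average. -/
noncomputable def jmp {K : Type*} [Field K] (v : AbsoluteValue K ℝ) (f : K[X]) (z y x : K) : ℝ :=
  max (max (nrm v f z y) (nrm v f z x)) (nrm v f y x) -
    (nrm v f z y + nrm v f z x + nrm v f y x) / 3

lemma jmp_nonneg {K : Type*} [Field K] (v : AbsoluteValue K ℝ) (f : K[X]) (z y x : K) :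
    0 ≤ jmp v f z y x := by
  unfold jmp
  have h1 := le_max_left (max (nrm v f z y) (nrm v f z x)) (nrm v f y x)
  have h2 := le_max_right (max (nrm v f z y) (nrm v f z x)) (nrm v f y x)
  have h3 := le_max_left (nrm v f z y) (nrm v f z x)
  have h4 := le_max_right (nrm v f z y) (nrm v f z x)
  linarith

section Out

variable {K : Type u} [Field K] {v : AbsoluteValue K ℝ} (hv : IsNonarchimedean v)
    (p : ℕ) [Fact p.Prime] [CharP K p] {f : K[X]} (hd : 2 ≤ f.natDegree)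
    (hder : derivative f = 0) {S : Finset K} (h0 : (0 : K) ∈ S) (hS : ∀ x ∈ S, f.eval x ∈ S)
    (hρ : 0 < rho v f)

include hv p hd hder h0 hS hρ

theorem K_energy (n : ℕ) {W : Finset K} (hW : W ⊆ S) :
    ∑ x ∈ W, ∑ y ∈ W, nrm v f x y ≤
      W.card * (f.natDegree * rho v f) + W.card ^ 2 * rho v f / (f.natDegree : ℝ) ^ n := by
  obtain ⟨L', _, _, _, φ, w, g, hbad, hgd, hlog, hinj, hmem⟩ :=
    exists_model (p := p) hv hd hder h0 hS hρ
  have h1 := hbad.energy_le (p := p) (n := n) (W.map ⟨φ, hinj⟩) (by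
    intro x hx
    rw [mem_map] at hx
    obtain ⟨y, hy, rfl⟩ := hx
    exact hmem y (hW hy) n)
  simp only [sum_map, Function.Embedding.coeFn_mk, card_map, Real.log_exp, hgd, hlog] at h1
  exact h1

theorem K_potential (n : ℕ) {W : Finset K} (hW : W ⊆ S) {z : K} (hz : z ∈ S) (t : ℝ)
    (ht : 0 < t) :
    t ^ 2 * (∑ x ∈ W, ∑ y ∈ W, nrm v f x y) + 2 * t * W.card * ∑ y ∈ W, nrm v f z y ≤
      (t + 1) ^ 2 * W.card ^ 2 * rho v f / (f.natDegree : ℝ) ^ n +
      (t ^ 2 * W.card + 2 * t * W.card + W.card ^ 2) * (f.natDegree * rho v f) := by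
  obtain ⟨L', _, _, _, φ, w, g, hbad, hgd, hlog, hinj, hmem⟩ :=
    exists_model (p := p) hv hd hder h0 hS hρ
  have h1 := hbad.potential_le (p := p) (n := n) (W.map ⟨φ, hinj⟩) (by
    intro x hx
    rw [mem_map] at hx
    obtain ⟨y, hy, rfl⟩ := hx
    exact hmem y (hW hy) n) (φ z) (hmem z hz n) t ht
  simp only [sum_map, Function.Embedding.coeFn_mk, card_map, Real.log_exp, hgd, hlog] at h1
  exact h1

theorem K_jump {n : ℕ} (hn : 1 ≤ n) {W1 W2 : Finset K} (hW1 : W1 ⊆ S) (hW2 : W2 ⊆ S) {z : K}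
    (hz : z ∈ S)
    (h1 : W1.card * (f.natDegree * rho v f) + W1.card ^ 2 * rho v f / (f.natDegree : ℝ) ^ n -
        W1.card ^ 2 * rho v f / (16 * (f.natDegree : ℝ) ^ 2) <
      ∑ x ∈ W1, ∑ y ∈ W1, nrm v f x y)
    (h2 : W2.card * (f.natDegree * rho v f) + W2.card ^ 2 * rho v f / (f.natDegree : ℝ) ^ n -
        W2.card ^ 2 * rho v f / (16 * (f.natDegree : ℝ) ^ 2) <
      ∑ x ∈ W2, ∑ y ∈ W2, nrm v f x y) :
    W1.card * W2.card * rho v f / (48 * (f.natDegree : ℝ) ^ 2) ≤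
      ∑ y ∈ W1, ∑ x ∈ W2, jmp v f z y x := by
  classical
  obtain ⟨L', _, _, _, φ, w, g, hbad, hgd, hlog, hinj, hmem⟩ :=
    exists_model (p := p) hv hd hder h0 hS hρ
  have hd2 : (2 : ℝ) ≤ f.natDegree := by exact_mod_cast hd
  set T : ℝ := Real.exp (rho v f) with hT
  have hlogT : Real.log T = rho v f := Real.log_exp _
  have hz' : w (φ z) ≤ T := hbad.mem_zero (n := 0) (hmem z hz 0)
  obtain ⟨η, hη1, hη2⟩ := hbad.exists_far hz'
  have key : ∀ W : Finset K, W ⊆ S →
      W.card * (f.natDegree * rho v f) + W.card ^ 2 * rho v f / (f.natDegree : ℝ) ^ n -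
        W.card ^ 2 * rho v f / (16 * (f.natDegree : ℝ) ^ 2) <
        ∑ x ∈ W, ∑ y ∈ W, nrm v f x y →
      (W.card : ℝ) / (2 * f.natDegree) ≤
        ((W.filter fun y => w (φ y - η) ≤ Real.exp (3 / 4 * rho v f)).card : ℝ) := by
    intro W hW hlt
    by_contra hcon
    push Not at hcon
    have h3 := hbad.energy_avoid (p := p) hn (W.map ⟨φ, hinj⟩) (by
      intro x hx
      rw [mem_map] at hx
      obtain ⟨y, hy, rfl⟩ := hx
      exact hmem y (hW hy) n) hη2 (by
      rw [hlogT, filter_map, card_map, card_map, hgd]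
      exact hcon.le)
    simp only [sum_map, Function.Embedding.coeFn_mk, card_map, hlogT, hgd, hlog] at h3
    linarith
  have hB1 := key W1 hW1 h1
  have hB2 := key W2 hW2 h2
  set B1 := W1.filter fun y => w (φ y - η) ≤ Real.exp (3 / 4 * rho v f) with hB1def
  set B2 := W2.filter fun y => w (φ y - η) ≤ Real.exp (3 / 4 * rho v f) with hB2def
  have h3 : ∀ y ∈ B1, ∀ x ∈ B2, rho v f / 12 ≤ jmp v f z y x := by
    intro y hy x hx
    have hy2 := (mem_filter.mp hy).2
    have hx2 := (mem_filter.mp hx).2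
    have hlt : Real.exp (3 / 4 * rho v f) < T := Real.exp_lt_exp.mpr (by linarith)
    have hfar : ∀ a : K, w (φ a - η) ≤ Real.exp (3 / 4 * rho v f) → nrm v f z a = rho v f := by
      intro a ha
      have h4 : w (φ a - η) < w (η - φ z) := by
        rw [AbsoluteValue.map_sub w η, hη1]
        exact ha.trans_lt hlt
      have h5 := um_eq hbad.na h4
      rw [← hlog, AbsoluteValue.map_sub w, h5, AbsoluteValue.map_sub w, hη1, hlogT]
    have h4 := hfar y hy2
    have h5 := hfar x hx2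
    have h6 : nrm v f y x ≤ 3 / 4 * rho v f := by
      by_cases hyx : y = x
      · rw [hyx, nrm_self]
        positivity
      · have h7 := um hbad.na (φ y) η (φ x)
        rw [AbsoluteValue.map_sub w η] at h7
        have h8 : w (φ y - φ x) ≤ Real.exp (3 / 4 * rho v f) := h7.trans (max_le hy2 hx2)
        have h9 : 0 < w (φ y - φ x) := by
          apply w.pos
          rw [sub_ne_zero]
          exact fun h => hyx (hinj h)
        rw [← hlog]
        exact (Real.log_le_iff_le_exp h9).mpr h8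
    unfold jmp
    rw [h4, h5]
    have h7 : rho v f ≤ max (max (rho v f) (rho v f)) (nrm v f y x) :=
      (le_max_left _ _).trans (le_max_left _ _)
    linarith
  have h4 : ∑ y ∈ B1, ∑ x ∈ B2, rho v f / 12 ≤ ∑ y ∈ W1, ∑ x ∈ W2, jmp v f z y x := by
    calc ∑ y ∈ B1, ∑ x ∈ B2, rho v f / 12 ≤ ∑ y ∈ B1, ∑ x ∈ B2, jmp v f z y x :=
          sum_le_sum fun y hy => sum_le_sum fun x hx => h3 y hy x hx
      _ ≤ ∑ y ∈ B1, ∑ x ∈ W2, jmp v f z y x := by
          apply sum_le_sum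
          intro y _
          exact sum_le_sum_of_subset_of_nonneg (filter_subset _ _)
            fun x _ _ => jmp_nonneg v f z y x
      _ ≤ _ := by
          apply sum_le_sum_of_subset_of_nonneg (filter_subset _ _)
          intro y _ _
          exact sum_nonneg fun x _ => jmp_nonneg v f z y x
  rw [sum_const, sum_const, nsmul_eq_mul, nsmul_eq_mul] at h4
  refine le_trans ?_ h4
  have h5 : (W1.card : ℝ) / (2 * f.natDegree) * (W2.card / (2 * f.natDegree)) ≤
      (B1.card : ℝ) * B2.card := mul_le_mul hB1 hB2 (by positivity) (by positivity)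
  have h6 : (W1.card : ℝ) * W2.card * rho v f / (48 * (f.natDegree : ℝ) ^ 2) =
      ((W1.card : ℝ) / (2 * f.natDegree) * (W2.card / (2 * f.natDegree))) * (rho v f / 12) := by
    field_simp
    ring
  rw [h6]
  calc _ ≤ ((B1.card : ℝ) * B2.card) * (rho v f / 12) :=
        mul_le_mul_of_nonneg_right h5 (by positivity)
    _ = _ := by ring

theorem K_gap {n L : ℕ} (hn : L + 2 ≤ n) (hL : f.natDegree * rho v f < 2 ^ L)
    (hint : ∀ x : K, x ≠ 0 → ∃ m : ℤ, Real.log (v x) = m) :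
    ∑ x ∈ S, ∑ y ∈ S, nrm v f x y ≤
      S.card * (f.natDegree * rho v f) + S.card ^ 2 * rho v f / (f.natDegree : ℝ) ^ n -
        S.card ^ 2 * rho v f / (f.natDegree : ℝ) ^ (3 * (L + 2)) := by
  classical
  obtain ⟨L', _, _, _, φ, w, g, hbad, hgd, hlog, hinj, hmem⟩ :=
    exists_model (p := p) hv hd hder h0 hS hρ
  have hd2 : (2 : ℝ) ≤ f.natDegree := by exact_mod_cast hd
  have hd1 : (1 : ℝ) ≤ f.natDegree := by linarith
  have hp : (2 : ℝ) ≤ p := by exact_mod_cast (Fact.out : p.Prime).two_le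
  set T : ℝ := Real.exp (rho v f) with hT
  have hlogT : Real.log T = rho v f := Real.log_exp _
  set r : ℕ → ℝ := fun l => rad w g T l (φ 0) with hr
  have hrpos : ∀ l, 0 < r l := fun l => hbad.rad_pos l _
  have hstep : ∀ l, Real.log (r l) - Real.log (r (l + 1)) < 2 ^ L / 2 ^ (l + 1) := by
    intro l
    have h1 := hbad.log_rad_upper (p := p) (hmem 0 h0 l)
    rw [hgd, hlogT] at h1
    have h2 : 0 ≤ Real.log (r l) - Real.log (r (l + 1)) :=
      sub_nonneg.mpr (Real.log_le_log (hrpos _) (hbad.rad_lt (hmem 0 h0 l)).le)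
    have h3 : (2 : ℝ) ^ (l + 1) ≤ (p : ℝ) ^ (l + 1) := by gcongr
    have h4 : (2 : ℝ) ^ (l + 1) * (Real.log (r l) - Real.log (r (l + 1))) ≤
        ((f.natDegree : ℝ) - 1) * rho v f := (mul_le_mul_of_nonneg_right h3 h2).trans h1
    rw [lt_div_iff₀ (by positivity)]
    nlinarith
  have hstep1 : Real.log (r L) - Real.log (r (L + 1)) < 1 / 2 := by
    have h1 := hstep L
    have h2 : (2 : ℝ) ^ L / 2 ^ (L + 1) = 1 / 2 := by
      rw [pow_succ]
      field_simp
    rwa [h2] at h1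
  have hstep2 : Real.log (r (L + 1)) - Real.log (r (L + 2)) < 1 / 4 := by
    have h1 := hstep (L + 1)
    have h2 : (2 : ℝ) ^ L / 2 ^ (L + 1 + 1) = 1 / 4 := by
      rw [pow_succ, pow_succ]
      field_simp
      norm_num
    rwa [h2] at h1
  have hWmem : ∀ x ∈ S.map ⟨φ, hinj⟩, w ((it g n).eval x) ≤ T := by
    intro x hx
    rw [mem_map] at hx
    obtain ⟨y, hy, rfl⟩ := hx
    exact hmem y hy n
  have hfin : ∀ l, l + 1 ≤ L + 2 →
      (∀ y ∈ S.map ⟨φ, hinj⟩, w (φ 0 - y) ≤ rad w g T l (φ 0) →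
        w (φ 0 - y) ≤ rad w g T (l + 1) (φ 0)) →
      ∑ x ∈ S, ∑ y ∈ S, nrm v f x y ≤
      S.card * (f.natDegree * rho v f) + S.card ^ 2 * rho v f / (f.natDegree : ℝ) ^ n -
        S.card ^ 2 * rho v f / (f.natDegree : ℝ) ^ (3 * (L + 2)) := by
    intro l hl hgap
    have h1 := hbad.energy_gap (p := p) (hl.trans hn) (S.map ⟨φ, hinj⟩) hWmem (hmem 0 h0 l) hgap
    simp only [sum_map, Function.Embedding.coeFn_mk, card_map, hlogT, hgd, hlog] at h1
    refine h1.trans ?_
    have h2 : (S.card : ℝ) ^ 2 * rho v f / (f.natDegree : ℝ) ^ (3 * (L + 2)) ≤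
        S.card ^ 2 * rho v f / (f.natDegree : ℝ) ^ (3 * (l + 1)) := by
      apply div_le_div_of_nonneg_left (by positivity) (by positivity)
      exact pow_le_pow_right₀ hd1 (by omega)
    linarith
  by_cases hA : ∀ y ∈ S.map ⟨φ, hinj⟩, w (φ 0 - y) ≤ rad w g T L (φ 0) →
        w (φ 0 - y) ≤ rad w g T (L + 1) (φ 0)
  · exact hfin L (by omega) hA
  by_cases hB : ∀ y ∈ S.map ⟨φ, hinj⟩, w (φ 0 - y) ≤ rad w g T (L + 1) (φ 0) →
        w (φ 0 - y) ≤ rad w g T (L + 1 + 1) (φ 0)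
  · exact hfin (L + 1) (by omega) hB
  exfalso
  push Not at hA hB
  obtain ⟨y1, hy1, h1, h2⟩ := hA
  obtain ⟨y2, hy2, h3, h4⟩ := hB
  rw [mem_map] at hy1 hy2
  obtain ⟨x1, hx1, rfl⟩ := hy1
  obtain ⟨x2, hx2, rfl⟩ := hy2
  simp only [Function.Embedding.coeFn_mk] at h1 h2 h3 h4
  have hform : ∀ x : K, 0 < w (φ 0 - φ x) → ∃ m : ℤ, Real.log (w (φ 0 - φ x)) = m + al v f := by
    intro x hx
    have hne : (0 : K) ≠ x := by
      rintro rfl
      rw [sub_self, map_zero] at hx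
      exact lt_irrefl _ hx
    obtain ⟨m, hm⟩ := hint (0 - x) (sub_ne_zero.mpr hne)
    exact ⟨m, by rw [hlog, nrm_of_ne hne, hm]⟩
  have hp1 : 0 < w (φ 0 - φ x1) := (hrpos (L + 1)).trans h2
  have hp2 : 0 < w (φ 0 - φ x2) := (hrpos (L + 2)).trans h4
  obtain ⟨m1, hm1⟩ := hform x1 hp1
  obtain ⟨m2, hm2⟩ := hform x2 hp2
  have h5 := Real.log_le_log hp1 h1
  have h6 := Real.log_lt_log (hrpos (L + 1)) h2
  have h7 := Real.log_le_log hp2 h3
  have h8 := Real.log_lt_log (hrpos (L + 2)) h4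
  rw [hm1] at h5 h6
  rw [hm2] at h7 h8
  have h9 : (m2 : ℝ) < m1 := by linarith
  have h10 : (m1 : ℝ) < m2 + 1 := by
    have : Real.log (rad w g T L (φ 0)) = Real.log (r L) := rfl
    have : Real.log (rad w g T (L + 1) (φ 0)) = Real.log (r (L + 1)) := rfl
    have : Real.log (rad w g T (L + 2) (φ 0)) = Real.log (r (L + 2)) := rfl
    linarith
  have h11 : m2 < m1 := by exact_mod_cast h9
  have h12 : m1 < m2 + 1 := by exact_mod_cast h10
  omega

end Out

end Pool.Agent.V7H78.UB
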