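import Mathlib
import Pool.Agent.V7H78.UB.KOut

/-!
# Places of a function field of characteristic `p`
-/

namespace Pool.Agent.V7H78.UB

open Polynomial Finset

universe u

/-- Valuation data on a function field `K` of characteristic `p` with field of constants `k`. -/
structure PD (p : ℕ) (k K : Type*) [Field k] [Field K] [Algebra k K] where
  /-- the places -/
  Pl : Type u
  ord : Pl → K → ℤ
  wt : Pl → ℤ
  wt_one : ∀ v, 1 ≤ wt v
  ord_mul : ∀ v x y, x ≠ 0 → y ≠ 0 → ord v (x * y) = ord v x + ord v y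
  ord_add : ∀ v x y (m : ℤ), x ≠ 0 → y ≠ 0 → x + y ≠ 0 → m ≤ ord v x → m ≤ ord v y →
    m ≤ ord v (x + y)
  fin : ∀ x, x ≠ 0 → {v | ord v x ≠ 0}.Finite
  prod : ∀ x, x ≠ 0 → ∀ T : Finset Pl, (∀ v, v ∉ T → ord v x = 0) →
    ∑ v ∈ T, wt v * ord v x = 0
  const : ∀ x, x ≠ 0 → (∀ v, 0 ≤ ord v x) → ∃ c : k, algebraMap k K c = x
  /-- the derivation -/
  D : Derivation ℤ K K
  D_ker : ∀ x, D x = 0 → ∃ y, y ^ p = x
  /-- the loss of the derivation -/
  dl : Pl → ℤ
  dl_nonneg : ∀ v, 0 ≤ dl v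
  dl_fin : {v | dl v ≠ 0}.Finite
  deriv : ∀ v x, x ≠ 0 → D x ≠ 0 → ord v x - 1 - dl v ≤ ord v (D x) ∧
    (0 ≤ ord v x → - dl v ≤ ord v (D x))

namespace PD

variable {p : ℕ} {k K : Type*} [Field k] [Field K] [Algebra k K] (Q : PD.{u} p k K)

lemma ord_one (v : Q.Pl) : Q.ord v 1 = 0 := by
  have h := Q.ord_mul v 1 1 one_ne_zero one_ne_zero
  rw [mul_one] at h
  linarith

lemma ord_neg (v : Q.Pl) {x : K} (hx : x ≠ 0) : Q.ord v (-x) = Q.ord v x := by
  have h1 : Q.ord v (-1 : K) = 0 := by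
    have h := Q.ord_mul v (-1) (-1) (by simp) (by simp)
    rw [neg_mul_neg, one_mul, Q.ord_one] at h
    linarith
  have h2 := Q.ord_mul v (-1) x (by simp) hx
  rw [neg_one_mul, h1, zero_add] at h2
  exact h2

lemma ord_inv (v : Q.Pl) {x : K} (hx : x ≠ 0) : Q.ord v x⁻¹ = - Q.ord v x := by
  have h := Q.ord_mul v x x⁻¹ hx (inv_ne_zero hx)
  rw [mul_inv_cancel₀ hx, Q.ord_one] at h
  linarith

lemma ord_div (v : Q.Pl) {x y : K} (hx : x ≠ 0) (hy : y ≠ 0) :
    Q.ord v (x / y) = Q.ord v x - Q.ord v y := by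
  rw [div_eq_mul_inv, Q.ord_mul v _ _ hx (inv_ne_zero hy), Q.ord_inv v hy]
  ring

open Classical in
/-- The absolute value of a place. -/
noncomputable def av (v : Q.Pl) : AbsoluteValue K ℝ where
  toFun x := if x = 0 then 0 else Real.exp (- (Q.ord v x : ℝ))
  map_mul' x y := by
    by_cases hx : x = 0
    · simp [hx]
    by_cases hy : y = 0
    · simp [hy]
    simp only [hx, hy, mul_eq_zero, or_self, if_false]
    rw [← Real.exp_add, Q.ord_mul v x y hx hy]
    congr 1
    push_cast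
    ring
  nonneg' x := by
    split_ifs
    · exact le_rfl
    · exact (Real.exp_pos _).le
  eq_zero' x := by
    constructor
    · intro h
      by_contra hx
      rw [if_neg hx] at h
      exact (Real.exp_pos _).ne' h
    · intro h
      rw [if_pos h]
  add_le' x y := by
    by_cases hx : x = 0
    · simp [hx]
    by_cases hy : y = 0
    · simp [hy]
    by_cases hxy : x + y = 0
    · rw [if_pos hxy, if_neg hx, if_neg hy]
      positivity
    rw [if_neg hxy, if_neg hx, if_neg hy]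
    have h := Q.ord_add v x y (min (Q.ord v x) (Q.ord v y)) hx hy hxy (min_le_left _ _)
      (min_le_right _ _)
    rcases min_le_iff.mp h with h1 | h1
    · have h2 : Real.exp (- (Q.ord v (x + y) : ℝ)) ≤ Real.exp (- (Q.ord v x : ℝ)) := by
        apply Real.exp_le_exp.mpr
        rw [neg_le_neg_iff]
        exact_mod_cast h1
      have h3 := Real.exp_pos (- (Q.ord v y : ℝ))
      linarith
    · have h2 : Real.exp (- (Q.ord v (x + y) : ℝ)) ≤ Real.exp (- (Q.ord v y : ℝ)) := by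
        apply Real.exp_le_exp.mpr
        rw [neg_le_neg_iff]
        exact_mod_cast h1
      have h3 := Real.exp_pos (- (Q.ord v x : ℝ))
      linarith

lemma av_of_ne (v : Q.Pl) {x : K} (hx : x ≠ 0) :
    Q.av v x = Real.exp (- (Q.ord v x : ℝ)) := by
  classical
  show (if x = 0 then 0 else Real.exp (- (Q.ord v x : ℝ))) = _
  rw [if_neg hx]

lemma log_av (v : Q.Pl) {x : K} (hx : x ≠ 0) : Real.log (Q.av v x) = - (Q.ord v x : ℝ) := by
  rw [Q.av_of_ne v hx, Real.log_exp]

lemma av_na (v : Q.Pl) : IsNonarchimedean (Q.av v) := by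
  intro x y
  by_cases hx : x = 0
  · subst hx
    rw [zero_add]
    exact le_max_right _ _
  by_cases hy : y = 0
  · subst hy
    rw [add_zero]
    exact le_max_left _ _
  by_cases hxy : x + y = 0
  · rw [hxy, map_zero]
    exact le_max_of_le_left (apply_nonneg _ _)
  rw [Q.av_of_ne v hx, Q.av_of_ne v hy, Q.av_of_ne v hxy]
  have h := Q.ord_add v x y (min (Q.ord v x) (Q.ord v y)) hx hy hxy (min_le_left _ _)
    (min_le_right _ _)
  rcases min_le_iff.mp h with h1 | h1
  · apply le_max_of_le_left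
    apply Real.exp_le_exp.mpr
    rw [neg_le_neg_iff]
    exact_mod_cast h1
  · apply le_max_of_le_right
    apply Real.exp_le_exp.mpr
    rw [neg_le_neg_iff]
    exact_mod_cast h1

lemma int_log (v : Q.Pl) (x : K) (hx : x ≠ 0) : ∃ m : ℤ, Real.log (Q.av v x) = m :=
  ⟨- Q.ord v x, by rw [Q.log_av v hx]; push_cast; ring⟩

lemma wt_pos (v : Q.Pl) : (0 : ℝ) < Q.wt v := by
  have := Q.wt_one v
  exact_mod_cast (by omega : 0 < Q.wt v)

lemma one_le_wt (v : Q.Pl) : (1 : ℝ) ≤ Q.wt v := by exact_mod_cast Q.wt_one v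

/-- The total loss of the derivation. -/
noncomputable def lossT : ℝ := ∑ v ∈ Q.dl_fin.toFinset, (Q.wt v : ℝ) * Q.dl v

lemma lossT_nonneg : 0 ≤ Q.lossT :=
  sum_nonneg fun v _ => mul_nonneg (Q.wt_pos v).le (by exact_mod_cast Q.dl_nonneg v)

lemma sum_dl_le (T : Finset Q.Pl) : ∑ v ∈ T, (Q.wt v : ℝ) * Q.dl v ≤ Q.lossT := by
  classical
  have h1 : ∑ v ∈ T, (Q.wt v : ℝ) * Q.dl v =
      ∑ v ∈ T ∩ Q.dl_fin.toFinset, (Q.wt v : ℝ) * Q.dl v := by
    symm
    apply sum_subset inter_subset_left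
    intro v hv hv2
    have h2 : v ∉ Q.dl_fin.toFinset := fun h => hv2 (mem_inter.mpr ⟨hv, h⟩)
    rw [Set.Finite.mem_toFinset, Set.mem_ofPred_eq, not_not] at h2
    rw [h2, Int.cast_zero, mul_zero]
  rw [h1]
  exact sum_le_sum_of_subset_of_nonneg inter_subset_right
    fun v _ _ => mul_nonneg (Q.wt_pos v).le (by exact_mod_cast Q.dl_nonneg v)

/-- Product formula for the orders, over the reals. -/
lemma prodR {x : K} (hx : x ≠ 0) {T : Finset Q.Pl} (hT : ∀ v, v ∉ T → Q.ord v x = 0) :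
    ∑ v ∈ T, (Q.wt v : ℝ) * Q.ord v x = 0 := by
  have := Q.prod x hx T hT
  exact_mod_cast this

/-- Local estimate for a Wronskian. -/
lemma ord_wr (v : Q.Pl) {a b : K} (ha : a ≠ 0) (hb : b ≠ 0) (h : b * Q.D a - a * Q.D b ≠ 0) :
    Q.ord v a + Q.ord v b - 1 - Q.dl v ≤ Q.ord v (b * Q.D a - a * Q.D b) := by
  have key : ∀ {a b : K}, a ≠ 0 → b ≠ 0 → Q.D a ≠ 0 →
      Q.ord v a + Q.ord v b - 1 - Q.dl v ≤ Q.ord v (b * Q.D a) := by
    intro a b ha hb hD
    rw [Q.ord_mul v _ _ hb hD]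
    have := (Q.deriv v a ha hD).1
    linarith
  by_cases h1 : Q.D a = 0
  · rw [h1, mul_zero, zero_sub] at h ⊢
    have h2 : Q.D b ≠ 0 := by
      intro h3
      rw [h3, mul_zero, neg_zero] at h
      exact h rfl
    rw [Q.ord_neg v (mul_ne_zero ha h2)]
    have := key hb ha h2
    linarith
  by_cases h2 : Q.D b = 0
  · rw [h2, mul_zero, sub_zero]
    exact key ha hb h1
  · have he : b * Q.D a - a * Q.D b = b * Q.D a + -(a * Q.D b) := sub_eq_add_neg _ _
    rw [he] at h ⊢
    apply Q.ord_add v _ _ _ (mul_ne_zero hb h1) (neg_ne_zero.mpr (mul_ne_zero ha h2)) h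
    · exact key ha hb h1
    · rw [Q.ord_neg v (mul_ne_zero ha h2)]
      have := key hb ha h2
      linarith

lemma ord_wr' (v : Q.Pl) {a b : K} (ha : a ≠ 0) (hb : b ≠ 0)
    (h : b * Q.D a - a * Q.D b ≠ 0) (hab : Q.ord v a = Q.ord v b) :
    Q.ord v a + Q.ord v b - Q.dl v ≤ Q.ord v (b * Q.D a - a * Q.D b) := by
  have h1 : b * Q.D a - a * Q.D b = b ^ 2 * Q.D (a / b) := by
    have h2 : a = (a / b) * b := by field_simp
    have h3 : Q.D a = (a / b) * Q.D b + b * Q.D (a / b) := by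
      conv_lhs => rw [h2]
      rw [Q.D.leibniz, smul_eq_mul, smul_eq_mul]
    rw [h3]
    field_simp
    ring
  rw [h1] at h ⊢
  have hD : Q.D (a / b) ≠ 0 := by
    intro h2
    rw [h2, mul_zero] at h
    exact h rfl
  rw [Q.ord_mul v _ _ (pow_ne_zero 2 hb) hD, sq, Q.ord_mul v _ _ hb hb]
  have h2 := (Q.deriv v (a / b) (div_ne_zero ha hb) hD).2 (by rw [Q.ord_div v ha hb]; omega)
  linarith

open Classical in
/-- The indicator of a non-equilateral triple. -/
noncomputable def ne3 (v : Q.Pl) (f : K[X]) (z y x : K) : ℝ :=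
  if jmp (Q.av v) f z y x = 0 then 0 else 1

/-- The inequality of the `abc` theorem for a triple of points. -/
theorem abc (f : K[X]) {z y x : K} (hzy : z ≠ y) (hzx : z ≠ x) (hyx : y ≠ x)
    (hD : Q.D ((y - z) / (x - z)) ≠ 0) :
    ∃ T0 : Finset Q.Pl, ∀ T : Finset Q.Pl, T0 ⊆ T →
      ∑ v ∈ T, (Q.wt v : ℝ) * jmp (Q.av v) f z y x ≤
        ∑ v ∈ T, (Q.wt v : ℝ) * Q.ne3 v f z y x + Q.lossT := by
  classical
  set a := y - z with ha
  set b := x - z with hb
  set c := y - x with hc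
  have ha0 : a ≠ 0 := sub_ne_zero.mpr (Ne.symm hzy)
  have hb0 : b ≠ 0 := sub_ne_zero.mpr (Ne.symm hzx)
  have hc0 : c ≠ 0 := sub_ne_zero.mpr hyx
  have habc : c = a - b := by rw [ha, hb, hc]; ring
  set W := b * Q.D a - a * Q.D b with hW
  have hW0 : W ≠ 0 := by
    intro h0
    apply hD
    have h1 : W = b ^ 2 * Q.D (a / b) := by
      have h2 : a = (a / b) * b := by field_simp
      have h3 : Q.D a = (a / b) * Q.D b + b * Q.D (a / b) := by
        conv_lhs => rw [h2]
        rw [Q.D.leibniz, smul_eq_mul, smul_eq_mul]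
      rw [hW, h3]
      field_simp
      ring
    rw [h1] at h0
    rcases mul_eq_zero.mp h0 with h2 | h2
    · exact absurd h2 (pow_ne_zero 2 hb0)
    · exact h2
  have hWac : W = a * Q.D c - c * Q.D a := by
    rw [habc, map_sub, hW]
    ring
  have hWbc : W = b * Q.D c - c * Q.D b := by
    rw [habc, map_sub, hW]
    ring
  refine ⟨(Q.fin a ha0).toFinset ∪ (Q.fin b hb0).toFinset ∪ (Q.fin c hc0).toFinset ∪
    (Q.fin W hW0).toFinset, fun T hT => ?_⟩
  have hsupp : ∀ {t : K} (ht : t ≠ 0), (Q.fin t ht).toFinset ⊆ T →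
      ∑ v ∈ T, (Q.wt v : ℝ) * Q.ord v t = 0 := by
    intro t ht hsub
    apply Q.prodR ht
    intro v hv
    by_contra hne
    exact hv (hsub ((Set.Finite.mem_toFinset _).mpr hne))
  have hTa := hsupp ha0 (((subset_union_left.trans subset_union_left).trans
    subset_union_left).trans hT)
  have hTb := hsupp hb0 (((subset_union_right.trans subset_union_left).trans
    subset_union_left).trans hT)
  have hTc := hsupp hc0 ((subset_union_right.trans subset_union_left).trans hT)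
  have hTW := hsupp hW0 (subset_union_right.trans hT)
  -- local inequality
  have hloc : ∀ v : Q.Pl, jmp (Q.av v) f z y x ≤ Q.ne3 v f z y x + Q.dl v + Q.ord v W -
      2 / 3 * (Q.ord v a + Q.ord v b + Q.ord v c) := by
    intro v
    have hna : nrm (Q.av v) f z y = - (Q.ord v a : ℝ) + al (Q.av v) f := by
      rw [nrm_of_ne hzy, AbsoluteValue.map_sub, ← ha, Q.log_av v ha0]
    have hnb : nrm (Q.av v) f z x = - (Q.ord v b : ℝ) + al (Q.av v) f := by
      rw [nrm_of_ne hzx, AbsoluteValue.map_sub, ← hb, Q.log_av v hb0]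
    have hnc : nrm (Q.av v) f y x = - (Q.ord v c : ℝ) + al (Q.av v) f := by
      rw [nrm_of_ne hyx, ← hc, Q.log_av v hc0]
    have hab : min (Q.ord v b) (Q.ord v c) ≤ Q.ord v a := by
      have h1 : a = b + c := by rw [habc]; ring
      have h2 := Q.ord_add v b c (min (Q.ord v b) (Q.ord v c)) hb0 hc0 (by rw [← h1]; exact ha0)
        (min_le_left _ _) (min_le_right _ _)
      rwa [← h1] at h2
    have hba : min (Q.ord v a) (Q.ord v c) ≤ Q.ord v b := by
      have h1 : b = a + -c := by rw [habc]; ring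
      have h2 := Q.ord_add v a (-c) (min (Q.ord v a) (Q.ord v c)) ha0 (neg_ne_zero.mpr hc0)
        (by rw [← h1]; exact hb0) (min_le_left _ _) (by
          rw [Q.ord_neg v hc0]
          exact min_le_right _ _)
      rwa [← h1] at h2
    have hca : min (Q.ord v a) (Q.ord v b) ≤ Q.ord v c := by
      have h1 : c = a + -b := by rw [habc]; ring
      have h2 := Q.ord_add v a (-b) (min (Q.ord v a) (Q.ord v b)) ha0 (neg_ne_zero.mpr hb0)
        (by rw [← h1]; exact hc0) (min_le_left _ _) (by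
          rw [Q.ord_neg v hb0]
          exact min_le_right _ _)
      rwa [← h1] at h2
    have hjmp : jmp (Q.av v) f z y x = max (max (- (Q.ord v a : ℝ)) (- (Q.ord v b : ℝ)))
        (- (Q.ord v c : ℝ)) + (Q.ord v a + Q.ord v b + Q.ord v c) / 3 := by
      unfold jmp
      rw [hna, hnb, hnc, max_add_add_right, max_add_add_right]
      ring
    -- the maximum as an integer
    set m : ℤ := min (min (Q.ord v a) (Q.ord v b)) (Q.ord v c) with hm
    have hmax : max (max (- (Q.ord v a : ℝ)) (- (Q.ord v b : ℝ))) (- (Q.ord v c : ℝ)) =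
        - (m : ℝ) := by
      rw [hm]
      push_cast
      rw [max_neg_neg, max_neg_neg]
    rw [hmax] at hjmp
    by_cases heq : Q.ord v a = Q.ord v b ∧ Q.ord v b = Q.ord v c
    · have h1 : m = Q.ord v a := by omega
      have h2 := Q.ord_wr' v ha0 hb0 hW0 heq.1
      have h3 : Q.ord v a + Q.ord v b + Q.ord v c - m ≤ Q.dl v + Q.ord v W := by
        rw [hW]
        omega
      have h4 : ((Q.ord v a + Q.ord v b + Q.ord v c - m : ℤ) : ℝ) ≤
          ((Q.dl v + Q.ord v W : ℤ) : ℝ) := by exact_mod_cast h3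
      push_cast at h4
      have h5 : 0 ≤ Q.ne3 v f z y x := by
        unfold ne3
        split_ifs <;> norm_num
      rw [hjmp]
      linarith
    · have h1 : Q.ord v a + Q.ord v b + Q.ord v c - m - 1 ≤ Q.dl v + Q.ord v W := by
        have e1 := Q.ord_wr v ha0 hb0 hW0
        have e2 := Q.ord_wr v hc0 ha0 (by rw [← hWac]; exact hW0)
        rw [← hWac] at e2
        have e3 := Q.ord_wr v hc0 hb0 (by rw [← hWbc]; exact hW0)
        rw [← hWbc] at e3
        rw [hW] at e2 e3 ⊢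
        omega
      have h4 : ((Q.ord v a + Q.ord v b + Q.ord v c - m - 1 : ℤ) : ℝ) ≤
          ((Q.dl v + Q.ord v W : ℤ) : ℝ) := by exact_mod_cast h1
      push_cast at h4
      have h5 : Q.ne3 v f z y x = 1 := by
        unfold ne3
        rw [if_neg]
        intro h0
        rw [hjmp] at h0
        apply heq
        have h6 : ((3 * m : ℤ) : ℝ) = ((Q.ord v a + Q.ord v b + Q.ord v c : ℤ) : ℝ) := by
          push_cast
          linarith
        have h7 : 3 * m = Q.ord v a + Q.ord v b + Q.ord v c := by exact_mod_cast h6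
        omega
      rw [hjmp, h5]
      linarith
  -- sum up
  have hsum : ∑ v ∈ T, (Q.wt v : ℝ) * jmp (Q.av v) f z y x ≤
      ∑ v ∈ T, (Q.wt v : ℝ) * (Q.ne3 v f z y x + Q.dl v + Q.ord v W -
      2 / 3 * (Q.ord v a + Q.ord v b + Q.ord v c)) :=
    sum_le_sum fun v _ => mul_le_mul_of_nonneg_left (hloc v) (Q.wt_pos v).le
  have hexp : ∑ v ∈ T, (Q.wt v : ℝ) * (Q.ne3 v f z y x + Q.dl v + Q.ord v W -
      2 / 3 * (Q.ord v a + Q.ord v b + Q.ord v c)) =
      ∑ v ∈ T, (Q.wt v : ℝ) * Q.ne3 v f z y x + ∑ v ∈ T, (Q.wt v : ℝ) * Q.dl v +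
      ∑ v ∈ T, (Q.wt v : ℝ) * Q.ord v W -
      2 / 3 * (∑ v ∈ T, (Q.wt v : ℝ) * Q.ord v a + ∑ v ∈ T, (Q.wt v : ℝ) * Q.ord v b +
        ∑ v ∈ T, (Q.wt v : ℝ) * Q.ord v c) := by
    rw [← sum_add_distrib, ← sum_add_distrib, ← sum_add_distrib, ← sum_add_distrib, mul_sum,
      ← sum_sub_distrib]
    apply sum_congr rfl
    intro v _
    ring
  rw [hexp, hTa, hTb, hTc, hTW] at hsum
  have hdl := Q.sum_dl_le T
  linarith

end PD

end Pool.Agent.V7H78.UB
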