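import Mathlib
import Pool.Agent.V7H78.UB.Place

/-!
# Global inequalities
-/

namespace Pool.Agent.V7H78.UB

open Polynomial Finset

universe u

namespace PD

variable {p : ℕ} {k K : Type u} [Field k] [Field K] [Algebra k K] (Q : PD.{u} p k K)
  {f : K[X]} (hd : 2 ≤ f.natDegree)

include hd

omit [Field k] [Algebra k K] Q in
lemma ne_zero_of_deg : f ≠ 0 := by
  rintro rfl
  rw [natDegree_zero] at hd
  omega

omit [Field k] [Algebra k K] Q in
lemma lc_ne : f.leadingCoeff ≠ 0 := leadingCoeff_ne_zero.mpr (ne_zero_of_deg hd)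

omit [Field k] [Algebra k K] Q in
lemma d_two : (2 : ℝ) ≤ f.natDegree := by exact_mod_cast hd

lemma al_mul' (v : Q.Pl) : ((f.natDegree : ℝ) - 1) * al (Q.av v) f = - (Q.ord v f.leadingCoeff : ℝ) := by
  rw [al_mul hd, Q.log_av v (lc_ne hd)]

lemma rho_int (v : Q.Pl) (h : 0 < rho (Q.av v) f) : 1 ≤ (f.natDegree : ℝ) ^ 2 * rho (Q.av v) f := by
  obtain ⟨j, hj, hc, h1⟩ := att_mul h
  have hd2 := d_two hd
  have hj' : (1 : ℝ) ≤ (f.natDegree : ℝ) - j := by
    have : (j : ℝ) + 1 ≤ f.natDegree := by exact_mod_cast hj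
    linarith
  have hal := Q.al_mul' hd v
  rw [Q.log_av v hc] at h1
  have h2 : ((f.natDegree : ℝ) - 1) * ((f.natDegree : ℝ) - j) * rho (Q.av v) f =
      (((f.natDegree : ℤ) - 1) * (- Q.ord v (f.coeff j)) + (1 - (j : ℤ)) *
        (- Q.ord v f.leadingCoeff) : ℤ) := by
    push_cast
    rw [mul_assoc, ← h1, ← hal]
    ring
  have h3 : 0 < ((f.natDegree : ℝ) - 1) * ((f.natDegree : ℝ) - j) * rho (Q.av v) f := by
    apply mul_pos (mul_pos (by linarith) (by linarith)) h
  have h4 : (1 : ℝ) ≤ ((f.natDegree : ℝ) - 1) * ((f.natDegree : ℝ) - j) * rho (Q.av v) f := by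
    rw [h2] at h3 ⊢
    exact_mod_cast h3
  refine h4.trans ?_
  have h5 : ((f.natDegree : ℝ) - 1) * ((f.natDegree : ℝ) - j) ≤ (f.natDegree : ℝ) ^ 2 := by
    have hj0 : (0 : ℝ) ≤ j := Nat.cast_nonneg j
    nlinarith
  exact mul_le_mul_of_nonneg_right h5 h.le

lemma bad_finite : {v : Q.Pl | 0 < rho (Q.av v) f}.Finite := by
  classical
  have h1 : {v : Q.Pl | 0 < rho (Q.av v) f} ⊆
      {v | Q.ord v f.leadingCoeff ≠ 0} ∪ ⋃ j ∈ Finset.range f.natDegree,
        {v | f.coeff j ≠ 0 ∧ Q.ord v (f.coeff j) ≠ 0} := by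
    intro v hv
    rw [Set.mem_ofPred_eq] at hv
    by_cases h2 : Q.ord v f.leadingCoeff = 0
    · right
      obtain ⟨j, hj, hc, h1⟩ := att_mul hv
      rw [Set.mem_iUnion₂]
      refine ⟨j, Finset.mem_range.mpr hj, hc, fun h3 => ?_⟩
      have hal := Q.al_mul' hd v
      have hd2 := d_two hd
      have hal0 : al (Q.av v) f = 0 := by
        rw [h2, Int.cast_zero, neg_zero] at hal
        rcases mul_eq_zero.mp hal with h4 | h4
        · linarith
        · exact h4
      rw [Q.log_av v hc, h3, hal0] at h1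
      have hj' : (0 : ℝ) < (f.natDegree : ℝ) - j := by
        rw [sub_pos]
        exact_mod_cast hj
      have := mul_pos hj' hv
      push_cast at h1
      linarith
    · left
      exact h2
  refine Set.Finite.subset ?_ h1
  refine (Q.fin _ (lc_ne hd)).union ?_
  refine Set.Finite.biUnion (Finset.finite_toSet _) ?_
  intro j _
  by_cases hc : f.coeff j = 0
  · simp [hc]
  · refine (Q.fin _ hc).subset ?_
    rintro v ⟨_, h2⟩
    exact h2

/-- The finite set of bad places. -/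
noncomputable def bad : Finset Q.Pl := (Q.bad_finite hd).toFinset

lemma mem_bad {v : Q.Pl} : v ∈ Q.bad hd ↔ 0 < rho (Q.av v) f := by
  unfold bad
  rw [Set.Finite.mem_toFinset]
  rfl

/-- The height of a polynomial. -/
noncomputable def ht : ℝ := ∑ v ∈ Q.bad hd, (Q.wt v : ℝ) * rho (Q.av v) f

lemma ht_nonneg : 0 ≤ Q.ht hd := sum_nonneg fun v _ => mul_nonneg (Q.wt_pos v).le rho_nonneg

/-- The contribution of the bad places to the product formula. -/
noncomputable def A (x y : K) : ℝ := ∑ v ∈ Q.bad hd, (Q.wt v : ℝ) * nrm (Q.av v) f x y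

lemma exists_T {x y : K} (hxy : x ≠ y) : ∃ T0 : Finset Q.Pl, ∀ T : Finset Q.Pl, T0 ⊆ T →
    ∑ v ∈ T, (Q.wt v : ℝ) * nrm (Q.av v) f x y = 0 := by
  classical
  have hxy' : x - y ≠ 0 := sub_ne_zero.mpr hxy
  refine ⟨(Q.fin _ hxy').toFinset ∪ (Q.fin _ (lc_ne hd)).toFinset, fun T hT => ?_⟩
  have hsupp : ∀ {t : K} (ht : t ≠ 0), (Q.fin t ht).toFinset ⊆ T →
      ∑ v ∈ T, (Q.wt v : ℝ) * Q.ord v t = 0 := by
    intro t ht hsub
    apply Q.prodR ht
    intro v hv
    by_contra hne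
    exact hv (hsub ((Set.Finite.mem_toFinset _).mpr hne))
  have h1 := hsupp hxy' (subset_union_left.trans hT)
  have h2 := hsupp (lc_ne hd) (subset_union_right.trans hT)
  have hd2 := d_two hd
  have h3 : ∀ v ∈ T, (Q.wt v : ℝ) * nrm (Q.av v) f x y =
      - ((Q.wt v : ℝ) * Q.ord v (x - y)) -
        ((Q.wt v : ℝ) * Q.ord v f.leadingCoeff) / ((f.natDegree : ℝ) - 1) := by
    intro v _
    have hal := Q.al_mul' hd v
    have hal2 : al (Q.av v) f = - (Q.ord v f.leadingCoeff : ℝ) / ((f.natDegree : ℝ) - 1) := by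
      rw [eq_div_iff (by linarith : (0 : ℝ) < (f.natDegree : ℝ) - 1).ne', ← hal]
      ring
    rw [nrm_of_ne hxy, Q.log_av v hxy', hal2]
    ring
  rw [sum_congr rfl h3, sum_sub_distrib, sum_neg_distrib, ← sum_div, h1, h2]
  simp

variable {S : Finset K} (h0 : (0 : K) ∈ S) (hS : ∀ x ∈ S, f.eval x ∈ S)

include h0 hS

lemma nrm_nonpos {v : Q.Pl} (hv : v ∉ Q.bad hd) {x y : K} (hx : x ∈ S) (hy : y ∈ S) :
    nrm (Q.av v) f x y ≤ 0 := by
  rw [Q.mem_bad hd] at hv
  have h1 := nrm_le (Q.av_na v) hd h0 hS hx hy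
  linarith

open Classical in
lemma exists_T' {x y : K} (hx : x ∈ S) (hy : y ∈ S) : ∃ T0 : Finset Q.Pl,
    ∀ T : Finset Q.Pl, T0 ⊆ T →
    ∀ B : Finset Q.Pl, B = T \ Q.bad hd →
      Q.A hd x y = - ∑ v ∈ B, (Q.wt v : ℝ) * nrm (Q.av v) f x y := by
  by_cases hxy : x = y
  · subst hxy
    refine ⟨∅, fun T _ B _ => ?_⟩
    simp [A, nrm_self]
  · obtain ⟨T0, hT0⟩ := Q.exists_T hd hxy
    refine ⟨T0 ∪ Q.bad hd, fun T hT B hB => ?_⟩
    have h1 := hT0 T (subset_union_left.trans hT)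
    rw [← sum_sdiff (subset_union_right.trans hT), ← hB] at h1
    unfold A
    linarith

lemma A_nonneg {x y : K} (hx : x ∈ S) (hy : y ∈ S) : 0 ≤ Q.A hd x y := by
  classical
  obtain ⟨T0, hT0⟩ := Q.exists_T' hd h0 hS hx hy
  rw [hT0 T0 Subset.rfl _ rfl, neg_nonneg]
  apply sum_nonpos
  intro v hv
  rw [mem_sdiff] at hv
  exact mul_nonpos_of_nonneg_of_nonpos (Q.wt_pos v).le (Q.nrm_nonpos hd h0 hS hv.2 hx hy)

/-- At a good place the indicator of a non-equilateral triple is bounded by the distances. -/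
lemma ne3_le {v : Q.Pl} (hv : v ∉ Q.bad hd) {z y x : K} (hz : z ∈ S) (hy : y ∈ S) (hx : x ∈ S) :
    Q.ne3 v f z y x ≤ - (((f.natDegree : ℝ) - 1) *
      (nrm (Q.av v) f z y + nrm (Q.av v) f z x + nrm (Q.av v) f y x)) := by
  have hd2 := d_two hd
  have hint : ∀ a b : K, ∃ m : ℤ, ((f.natDegree : ℝ) - 1) * nrm (Q.av v) f a b = m := by
    intro a b
    by_cases hab : a = b
    · subst hab
      exact ⟨0, by simp [nrm_self]⟩
    · refine ⟨((f.natDegree : ℤ) - 1) * (- Q.ord v (a - b)) - Q.ord v f.leadingCoeff, ?_⟩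
      rw [nrm_of_ne hab, Q.log_av v (sub_ne_zero.mpr hab), mul_add, Q.al_mul' hd v]
      push_cast
      ring
  have h1 := Q.nrm_nonpos hd h0 hS hv hz hy
  have h2 := Q.nrm_nonpos hd h0 hS hv hz hx
  have h3 := Q.nrm_nonpos hd h0 hS hv hy hx
  unfold ne3
  split_ifs with hj
  · rw [Left.nonneg_neg_iff]
    exact mul_nonpos_of_nonneg_of_nonpos (by linarith) (by linarith)
  · obtain ⟨m1, hm1⟩ := hint z y
    obtain ⟨m2, hm2⟩ := hint z x
    obtain ⟨m3, hm3⟩ := hint y x
    rw [mul_add, mul_add, hm1, hm2, hm3]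
    have g1 : m1 ≤ 0 := by
      have : (m1 : ℝ) ≤ 0 := by
        rw [← hm1]
        exact mul_nonpos_of_nonneg_of_nonpos (by linarith) h1
      exact_mod_cast this
    have g2 : m2 ≤ 0 := by
      have : (m2 : ℝ) ≤ 0 := by
        rw [← hm2]
        exact mul_nonpos_of_nonneg_of_nonpos (by linarith) h2
      exact_mod_cast this
    have g3 : m3 ≤ 0 := by
      have : (m3 : ℝ) ≤ 0 := by
        rw [← hm3]
        exact mul_nonpos_of_nonneg_of_nonpos (by linarith) h3
      exact_mod_cast this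
    have g4 : m1 + m2 + m3 ≤ -1 := by
      by_contra hcon
      have e1 : m1 = 0 := by omega
      have e2 : m2 = 0 := by omega
      have e3 : m3 = 0 := by omega
      apply hj
      have hne : ((f.natDegree : ℝ) - 1) ≠ 0 := by linarith
      have n1 : nrm (Q.av v) f z y = 0 := by
        rw [e1, Int.cast_zero] at hm1
        exact (mul_eq_zero.mp hm1).resolve_left hne
      have n2 : nrm (Q.av v) f z x = 0 := by
        rw [e2, Int.cast_zero] at hm2
        exact (mul_eq_zero.mp hm2).resolve_left hne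
      have n3 : nrm (Q.av v) f y x = 0 := by
        rw [e3, Int.cast_zero] at hm3
        exact (mul_eq_zero.mp hm3).resolve_left hne
      unfold jmp
      rw [n1, n2, n3]
      simp
    have g5 : ((m1 + m2 + m3 : ℤ) : ℝ) ≤ ((-1 : ℤ) : ℝ) := by exact_mod_cast g4
    push_cast at g5
    linarith

end PD

end Pool.Agent.V7H78.UB
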