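import Mathlib
import Pool.Agent.V7H78.UB.Glob

/-!
# The master inequality
-/

namespace Pool.Agent.V7H78.UB

open Polynomial Finset

universe u

namespace PD

variable {p : ℕ} {k K : Type u} [Field k] [Field K] [Algebra k K] (Q : PD.{u} p k K)

/-- The defect of a finite set at a place. -/
noncomputable def Xv (v : Q.Pl) (f : K[X]) (n : ℕ) (W : Finset K) : ℝ :=
  W.card * (f.natDegree * rho (Q.av v) f) + W.card ^ 2 * rho (Q.av v) f / (f.natDegree : ℝ) ^ n -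
    ∑ x ∈ W, ∑ y ∈ W, nrm (Q.av v) f x y

variable [Fact p.Prime] [CharP K p]
  {f : K[X]} (hd : 2 ≤ f.natDegree) (hder : derivative f = 0)
  {S : Finset K} (h0 : (0 : K) ∈ S) (hS : ∀ x ∈ S, f.eval x ∈ S)

include hd hder h0 hS

lemma X_nonneg {v : Q.Pl} (hv : v ∈ Q.bad hd) (n : ℕ) {W : Finset K} (hW : W ⊆ S) :
    0 ≤ Q.Xv v f n W := by
  have := K_energy (Q.av_na v) p hd hder h0 hS ((Q.mem_bad hd).mp hv) n hW
  unfold Xv
  linarith

omit [Fact p.Prime] [CharP K p] in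
lemma sum_X (n : ℕ) {W : Finset K} (hW : W ⊆ S) {ε : ℝ} (hε : 1 / (f.natDegree : ℝ) ^ n ≤ ε)
    (hM : (f.natDegree : ℝ) ≤ ε * W.card) :
    ∑ v ∈ Q.bad hd, (Q.wt v : ℝ) * Q.Xv v f n W ≤ 2 * ε * W.card ^ 2 * Q.ht hd := by
  have h1 : ∑ v ∈ Q.bad hd, (Q.wt v : ℝ) * Q.Xv v f n W =
      (W.card * f.natDegree + W.card ^ 2 / (f.natDegree : ℝ) ^ n) * Q.ht hd -
        ∑ x ∈ W, ∑ y ∈ W, Q.A hd x y := by
    have h2 : ∑ x ∈ W, ∑ y ∈ W, Q.A hd x y =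
        ∑ v ∈ Q.bad hd, (Q.wt v : ℝ) * ∑ x ∈ W, ∑ y ∈ W, nrm (Q.av v) f x y := by
      unfold A
      simp only [mul_sum]
      rw [sum_congr rfl fun x _ => sum_comm, sum_comm]
    rw [h2]
    unfold ht
    rw [mul_sum, ← sum_sub_distrib]
    apply sum_congr rfl
    intro v _
    unfold Xv
    ring
  have h2 : 0 ≤ ∑ x ∈ W, ∑ y ∈ W, Q.A hd x y :=
    sum_nonneg fun x hx => sum_nonneg fun y hy => Q.A_nonneg hd h0 hS (hW hx) (hW hy)
  rw [h1]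
  have hh := Q.ht_nonneg hd
  have h3 : (W.card : ℝ) * f.natDegree ≤ ε * W.card ^ 2 := by
    have h4 : (W.card : ℝ) * f.natDegree ≤ W.card * (ε * W.card) :=
      mul_le_mul_of_nonneg_left hM (by positivity)
    calc _ ≤ _ := h4
      _ = _ := by ring
  have h4 : (W.card : ℝ) ^ 2 / (f.natDegree : ℝ) ^ n ≤ ε * W.card ^ 2 := by
    have h5 : (W.card : ℝ) ^ 2 * (1 / (f.natDegree : ℝ) ^ n) ≤ W.card ^ 2 * ε :=
      mul_le_mul_of_nonneg_left hε (by positivity)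
    calc _ = (W.card : ℝ) ^ 2 * (1 / (f.natDegree : ℝ) ^ n) := by ring
      _ ≤ _ := h5
      _ = _ := by ring
  have h5 : (W.card * f.natDegree + W.card ^ 2 / (f.natDegree : ℝ) ^ n) * Q.ht hd ≤
      (2 * ε * W.card ^ 2) * Q.ht hd := mul_le_mul_of_nonneg_right (by linarith) hh
  linarith

/-- The weight of all bad places. -/
lemma sum_wt_bad {n L : ℕ} (hnL : L + 2 ≤ n) {ρs : ℝ} (hρs : 0 < ρs)
    (hL : f.natDegree * ρs < 2 ^ L) {ε : ℝ} (hε : 1 / (f.natDegree : ℝ) ^ n ≤ ε)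
    (hM : (f.natDegree : ℝ) ≤ ε * S.card) :
    ∑ v ∈ Q.bad hd, (Q.wt v : ℝ) ≤
      Q.ht hd / ρs + 2 * ε * (f.natDegree : ℝ) ^ (3 * L + 8) * Q.ht hd := by
  have hd2 := d_two hd
  have hS1 : (0 : ℝ) < S.card := by
    exact_mod_cast card_pos.mpr ⟨0, h0⟩
  have h1 : ∀ v ∈ Q.bad hd, (Q.wt v : ℝ) ≤ (Q.wt v : ℝ) * rho (Q.av v) f / ρs +
      (f.natDegree : ℝ) ^ (3 * L + 8) / S.card ^ 2 * ((Q.wt v : ℝ) * Q.Xv v f n S) := by
    intro v hv
    have hρ := (Q.mem_bad hd).mp hv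
    have hw := Q.wt_pos v
    have hX := Q.X_nonneg hd hder h0 hS hv n (Subset.refl S)
    by_cases h2 : rho (Q.av v) f ≤ ρs
    · have h3 := K_gap (Q.av_na v) p hd hder h0 hS hρ hnL
        (lt_of_le_of_lt (mul_le_mul_of_nonneg_left h2 (by linarith)) hL) (Q.int_log v)
      have h4 : (S.card : ℝ) ^ 2 * rho (Q.av v) f / (f.natDegree : ℝ) ^ (3 * (L + 2)) ≤
          Q.Xv v f n S := by
        unfold Xv
        linarith
      have h5 := Q.rho_int hd v hρ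
      have h6 : (1 : ℝ) ≤ (f.natDegree : ℝ) ^ (3 * L + 8) / S.card ^ 2 * Q.Xv v f n S := by
        have h7 : (f.natDegree : ℝ) ^ (3 * L + 8) / S.card ^ 2 *
            ((S.card : ℝ) ^ 2 * rho (Q.av v) f / (f.natDegree : ℝ) ^ (3 * (L + 2))) ≤
            (f.natDegree : ℝ) ^ (3 * L + 8) / S.card ^ 2 * Q.Xv v f n S :=
          mul_le_mul_of_nonneg_left h4 (by positivity)
        have h8 : (f.natDegree : ℝ) ^ (3 * L + 8) / S.card ^ 2 *
            ((S.card : ℝ) ^ 2 * rho (Q.av v) f / (f.natDegree : ℝ) ^ (3 * (L + 2))) =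
            (f.natDegree : ℝ) ^ 2 * rho (Q.av v) f := by
          have h9 : (f.natDegree : ℝ) ^ (3 * L + 8) =
              (f.natDegree : ℝ) ^ 2 * (f.natDegree : ℝ) ^ (3 * (L + 2)) := by
            rw [← pow_add]
            congr 1
            ring
          rw [h9]
          have h10 : (0 : ℝ) < (f.natDegree : ℝ) ^ (3 * (L + 2)) := by positivity
          field_simp
        linarith
      have h7 : (Q.wt v : ℝ) * 1 ≤ (Q.wt v : ℝ) *
          ((f.natDegree : ℝ) ^ (3 * L + 8) / S.card ^ 2 * Q.Xv v f n S) :=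
        mul_le_mul_of_nonneg_left h6 hw.le
      have h8 : 0 ≤ (Q.wt v : ℝ) * rho (Q.av v) f / ρs := by positivity
      calc (Q.wt v : ℝ) = (Q.wt v : ℝ) * 1 := (mul_one _).symm
        _ ≤ _ := h7
        _ = (f.natDegree : ℝ) ^ (3 * L + 8) / S.card ^ 2 * ((Q.wt v : ℝ) * Q.Xv v f n S) := by ring
        _ ≤ _ := by linarith
    · push Not at h2
      have h3 : (Q.wt v : ℝ) ≤ (Q.wt v : ℝ) * rho (Q.av v) f / ρs := by
        rw [le_div_iff₀ hρs]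
        exact mul_le_mul_of_nonneg_left h2.le hw.le
      have h4 : 0 ≤ (f.natDegree : ℝ) ^ (3 * L + 8) / S.card ^ 2 *
          ((Q.wt v : ℝ) * Q.Xv v f n S) := by positivity
      linarith
  refine (sum_le_sum h1).trans ?_
  rw [sum_add_distrib, ← sum_div, ← mul_sum]
  have h2 := Q.sum_X hd hder h0 hS n (Subset.refl S) hε hM
  have h3 : (f.natDegree : ℝ) ^ (3 * L + 8) / S.card ^ 2 *
      ∑ v ∈ Q.bad hd, (Q.wt v : ℝ) * Q.Xv v f n S ≤
      (f.natDegree : ℝ) ^ (3 * L + 8) / S.card ^ 2 * (2 * ε * S.card ^ 2 * Q.ht hd) :=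
    mul_le_mul_of_nonneg_left h2 (by positivity)
  have h4 : (f.natDegree : ℝ) ^ (3 * L + 8) / S.card ^ 2 * (2 * ε * S.card ^ 2 * Q.ht hd) =
      2 * ε * (f.natDegree : ℝ) ^ (3 * L + 8) * Q.ht hd := by
    field_simp
  have h5 : (∑ v ∈ Q.bad hd, (Q.wt v : ℝ) * rho (Q.av v) f) / ρs = Q.ht hd / ρs := rfl
  linarith

/-- If all the local heights are small then the height vanishes. -/
lemma ht_zero_of_small {n L : ℕ} (hnL : L + 2 ≤ n)
    (hL : ∀ v ∈ Q.bad hd, f.natDegree * rho (Q.av v) f < 2 ^ L) {ε : ℝ}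
    (hε : 1 / (f.natDegree : ℝ) ^ n ≤ ε) (hM : (f.natDegree : ℝ) ≤ ε * S.card)
    (hε2 : 2 * ε * (f.natDegree : ℝ) ^ (3 * (L + 2)) < 1) : Q.ht hd = 0 := by
  have hd2 := d_two hd
  have hS1 : (0 : ℝ) < S.card := by
    exact_mod_cast card_pos.mpr ⟨0, h0⟩
  have h1 : ∀ v ∈ Q.bad hd, (S.card : ℝ) ^ 2 / (f.natDegree : ℝ) ^ (3 * (L + 2)) *
      ((Q.wt v : ℝ) * rho (Q.av v) f) ≤ (Q.wt v : ℝ) * Q.Xv v f n S := by
    intro v hv
    have hρ := (Q.mem_bad hd).mp hv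
    have hw := Q.wt_pos v
    have h3 := K_gap (Q.av_na v) p hd hder h0 hS hρ hnL (hL v hv) (Q.int_log v)
    have h4 : (S.card : ℝ) ^ 2 * rho (Q.av v) f / (f.natDegree : ℝ) ^ (3 * (L + 2)) ≤
        Q.Xv v f n S := by
      unfold Xv
      linarith
    calc _ = (Q.wt v : ℝ) * ((S.card : ℝ) ^ 2 * rho (Q.av v) f /
          (f.natDegree : ℝ) ^ (3 * (L + 2))) := by ring
      _ ≤ _ := mul_le_mul_of_nonneg_left h4 hw.le
  have h2 := sum_le_sum h1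
  rw [← mul_sum] at h2
  have h3 := Q.sum_X hd hder h0 hS n (Subset.refl S) hε hM
  have h4 : (S.card : ℝ) ^ 2 / (f.natDegree : ℝ) ^ (3 * (L + 2)) * Q.ht hd ≤
      2 * ε * S.card ^ 2 * Q.ht hd := h2.trans h3
  have hh := Q.ht_nonneg hd
  by_contra hne
  have hpos : 0 < Q.ht hd := lt_of_le_of_ne hh (Ne.symm hne)
  have h5 : (1 : ℝ) / (f.natDegree : ℝ) ^ (3 * (L + 2)) ≤ 2 * ε := by
    have h6 : (0 : ℝ) < S.card ^ 2 * Q.ht hd := by positivity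
    have h7 : (S.card : ℝ) ^ 2 * Q.ht hd * (1 / (f.natDegree : ℝ) ^ (3 * (L + 2))) ≤
        (S.card : ℝ) ^ 2 * Q.ht hd * (2 * ε) := by
      calc _ = (S.card : ℝ) ^ 2 / (f.natDegree : ℝ) ^ (3 * (L + 2)) * Q.ht hd := by ring
        _ ≤ _ := h4
        _ = _ := by ring
    exact le_of_mul_le_mul_left h7 h6
  rw [div_le_iff₀ (by positivity)] at h5
  linarith

/-- The potential at a point. -/
lemma sum_A_le {n : ℕ} {W : Finset K} (hW : W ⊆ S) {z : K} (hz : z ∈ S) {t ε : ℝ} (ht0 : 0 < t)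
    (hε : 1 / (f.natDegree : ℝ) ^ n ≤ ε) (hM : (f.natDegree : ℝ) ≤ ε * W.card)
    (hW1 : 0 < W.card) :
    ∑ y ∈ W, Q.A hd z y ≤ W.card * Q.ht hd *
      (((t + 1) ^ 2 * ε + t ^ 2 * ε + 2 * t * ε + f.natDegree) / (2 * t)) := by
  have hd2 := d_two hd
  have hM0 : (0 : ℝ) < W.card := by exact_mod_cast hW1
  set M : ℝ := (W.card : ℝ) with hMdef
  have hh := Q.ht_nonneg hd
  have h1 : ∀ v ∈ Q.bad hd,
      t ^ 2 * ((Q.wt v : ℝ) * ∑ x ∈ W, ∑ y ∈ W, nrm (Q.av v) f x y) +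
      2 * t * M * ((Q.wt v : ℝ) * ∑ y ∈ W, nrm (Q.av v) f z y) ≤
      ((t + 1) ^ 2 * M ^ 2 / (f.natDegree : ℝ) ^ n +
      (t ^ 2 * M + 2 * t * M + M ^ 2) * f.natDegree) * ((Q.wt v : ℝ) * rho (Q.av v) f) := by
    intro v hv
    have hρ := (Q.mem_bad hd).mp hv
    have hw := Q.wt_pos v
    have h2 := K_potential (Q.av_na v) p hd hder h0 hS hρ n hW hz t ht0
    have h3 := mul_le_mul_of_nonneg_left h2 hw.le
    calc _ = (Q.wt v : ℝ) * (t ^ 2 * (∑ x ∈ W, ∑ y ∈ W, nrm (Q.av v) f x y) +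
          2 * t * M * ∑ y ∈ W, nrm (Q.av v) f z y) := by ring
      _ ≤ _ := h3
      _ = _ := by ring
  have h2 := sum_le_sum h1
  rw [sum_add_distrib, ← mul_sum, ← mul_sum, ← mul_sum] at h2
  have h3 : ∑ v ∈ Q.bad hd, (Q.wt v : ℝ) * ∑ x ∈ W, ∑ y ∈ W, nrm (Q.av v) f x y =
      ∑ x ∈ W, ∑ y ∈ W, Q.A hd x y := by
    unfold A
    simp only [mul_sum]
    symm
    rw [sum_congr rfl fun x _ => sum_comm, sum_comm]
  have h4 : ∑ v ∈ Q.bad hd, (Q.wt v : ℝ) * ∑ y ∈ W, nrm (Q.av v) f z y =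
      ∑ y ∈ W, Q.A hd z y := by
    unfold A
    simp only [mul_sum]
    rw [sum_comm]
  have h5 : ∑ v ∈ Q.bad hd, (Q.wt v : ℝ) * rho (Q.av v) f = Q.ht hd := rfl
  rw [h3, h4, h5] at h2
  have h6 : 0 ≤ ∑ x ∈ W, ∑ y ∈ W, Q.A hd x y :=
    sum_nonneg fun x hx => sum_nonneg fun y hy => Q.A_nonneg hd h0 hS (hW hx) (hW hy)
  have h7 : 0 ≤ t ^ 2 * ∑ x ∈ W, ∑ y ∈ W, Q.A hd x y := by positivity
  have h8 : (t + 1) ^ 2 * M ^ 2 / (f.natDegree : ℝ) ^ n +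
      (t ^ 2 * M + 2 * t * M + M ^ 2) * f.natDegree ≤
      M ^ 2 * ((t + 1) ^ 2 * ε + t ^ 2 * ε + 2 * t * ε + f.natDegree) := by
    have e1 : (t + 1) ^ 2 * M ^ 2 / (f.natDegree : ℝ) ^ n ≤ (t + 1) ^ 2 * M ^ 2 * ε := by
      have := mul_le_mul_of_nonneg_left hε (by positivity : (0 : ℝ) ≤ (t + 1) ^ 2 * M ^ 2)
      calc _ = (t + 1) ^ 2 * M ^ 2 * (1 / (f.natDegree : ℝ) ^ n) := by ring
        _ ≤ _ := this
    have e2 : t ^ 2 * M * f.natDegree ≤ t ^ 2 * M * (ε * M) :=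
      mul_le_mul_of_nonneg_left hM (by positivity)
    have e3 : 2 * t * M * f.natDegree ≤ 2 * t * M * (ε * M) :=
      mul_le_mul_of_nonneg_left hM (by positivity)
    nlinarith [e1, e2, e3]
  have h9 := mul_le_mul_of_nonneg_right h8 hh
  have h10 : 2 * t * M * ∑ y ∈ W, Q.A hd z y ≤
      M ^ 2 * ((t + 1) ^ 2 * ε + t ^ 2 * ε + 2 * t * ε + f.natDegree) * Q.ht hd := by
    linarith
  have h11 : 2 * t * M * ∑ y ∈ W, Q.A hd z y ≤ 2 * t * M * (M * Q.ht hd *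
      (((t + 1) ^ 2 * ε + t ^ 2 * ε + 2 * t * ε + f.natDegree) / (2 * t))) := by
    refine h10.trans (le_of_eq ?_)
    field_simp
  exact le_of_mul_le_mul_left h11 (by positivity)

/-- Lower bound for the total jump at a bad place. -/
lemma jump_ge {v : Q.Pl} (hv : v ∈ Q.bad hd) {n : ℕ} (hn : 1 ≤ n) {W1 W2 : Finset K}
    (hW1 : W1 ⊆ S) (hW2 : W2 ⊆ S) {z : K} (hz : z ∈ S) (hc1 : 0 < W1.card) (hc2 : 0 < W2.card) :
    W1.card * W2.card * rho (Q.av v) f / (48 * (f.natDegree : ℝ) ^ 2) -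
      (W2.card : ℝ) / (3 * W1.card) * Q.Xv v f n W1 -
      (W1.card : ℝ) / (3 * W2.card) * Q.Xv v f n W2 ≤
      ∑ y ∈ W1, ∑ x ∈ W2, jmp (Q.av v) f z y x := by
  have hd2 := d_two hd
  have hρ := (Q.mem_bad hd).mp hv
  have hX1 := Q.X_nonneg hd hder h0 hS hv n hW1
  have hX2 := Q.X_nonneg hd hder h0 hS hv n hW2
  have hM1 : (0 : ℝ) < W1.card := by exact_mod_cast hc1
  have hM2 : (0 : ℝ) < W2.card := by exact_mod_cast hc2
  have hJ : 0 ≤ ∑ y ∈ W1, ∑ x ∈ W2, jmp (Q.av v) f z y x :=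
    sum_nonneg fun y _ => sum_nonneg fun x _ => jmp_nonneg _ _ _ _ _
  have g1 : 0 ≤ (W2.card : ℝ) / (3 * W1.card) * Q.Xv v f n W1 := by positivity
  have g2 : 0 ≤ (W1.card : ℝ) / (3 * W2.card) * Q.Xv v f n W2 := by positivity
  by_cases h1 : Q.Xv v f n W1 < W1.card ^ 2 * rho (Q.av v) f / (16 * (f.natDegree : ℝ) ^ 2)
  · by_cases h2 : Q.Xv v f n W2 < W2.card ^ 2 * rho (Q.av v) f / (16 * (f.natDegree : ℝ) ^ 2)
    · have h3 := K_jump (Q.av_na v) p hd hder h0 hS hρ hn hW1 hW2 hz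
        (by unfold Xv at h1; linarith) (by unfold Xv at h2; linarith)
      linarith
    · push Not at h2
      have h3 : W1.card * W2.card * rho (Q.av v) f / (48 * (f.natDegree : ℝ) ^ 2) ≤
          (W1.card : ℝ) / (3 * W2.card) * Q.Xv v f n W2 := by
        have h4 := mul_le_mul_of_nonneg_left h2
          (by positivity : (0 : ℝ) ≤ (W1.card : ℝ) / (3 * W2.card))
        refine le_trans (le_of_eq ?_) h4
        field_simp
        ring
      linarith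
  · push Not at h1
    have h3 : W1.card * W2.card * rho (Q.av v) f / (48 * (f.natDegree : ℝ) ^ 2) ≤
        (W2.card : ℝ) / (3 * W1.card) * Q.Xv v f n W1 := by
      have h4 := mul_le_mul_of_nonneg_left h1
        (by positivity : (0 : ℝ) ≤ (W2.card : ℝ) / (3 * W1.card))
      refine le_trans (le_of_eq ?_) h4
      field_simp
      ring
    linarith

end PD

end Pool.Agent.V7H78.UB
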