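import Mathlib
import Pool.Agent.V7H78.UB.Glob2

/-!
# The master inequality, continued
-/

namespace Pool.Agent.V7H78.UB

open Polynomial Finset

universe u

namespace PD

variable {p : ℕ} {k K : Type u} [Field k] [Field K] [Algebra k K] (Q : PD.{u} p k K)

variable [Fact p.Prime] [CharP K p]
  {f : K[X]} (hd : 2 ≤ f.natDegree) (hder : derivative f = 0)
  {S : Finset K} (h0 : (0 : K) ∈ S) (hS : ∀ x ∈ S, f.eval x ∈ S)

omit [Fact p.Prime] [CharP K p] in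
lemma A_symm (x y : K) : Q.A hd x y = Q.A hd y x := by
  unfold A
  apply sum_congr rfl
  intro v _
  rw [nrm_symm]

include hd hder h0 hS

theorem master {n L : ℕ} (hnL : L + 2 ≤ n) {ρs : ℝ} (hρs : 0 < ρs)
    (hL : f.natDegree * ρs < 2 ^ L) {ε t : ℝ} (hε : 1 / (f.natDegree : ℝ) ^ n ≤ ε) (ht0 : 0 < t)
    {z : K} (hz : z ∈ S) {W1 W2 : Finset K} (hW1 : W1 ⊆ S) (hW2 : W2 ⊆ S)
    (hdisj : Disjoint W1 W2) (hz1 : z ∉ W1) (hz2 : z ∉ W2)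
    (hM1 : (f.natDegree : ℝ) ≤ ε * W1.card) (hM2 : (f.natDegree : ℝ) ≤ ε * W2.card)
    (hD : ∀ y ∈ W1, ∀ x ∈ W2, Q.D ((y - z) / (x - z)) ≠ 0) :
    Q.ht hd / (48 * (f.natDegree : ℝ) ^ 2) - 4 / 3 * ε * Q.ht hd ≤
      Q.ht hd / ρs + 2 * ε * (f.natDegree : ℝ) ^ (3 * L + 8) * Q.ht hd +
      3 * ((f.natDegree : ℝ) - 1) *
        (((t + 1) ^ 2 * ε + t ^ 2 * ε + 2 * t * ε + f.natDegree) / (2 * t)) * Q.ht hd +
      Q.lossT := by
  classical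
  have hd2 := d_two hd
  have hh := Q.ht_nonneg hd
  have hεpos : 0 < ε := by
    have h1 : (0 : ℝ) < 1 / (f.natDegree : ℝ) ^ n := by positivity
    linarith
  have hc1 : 0 < W1.card := by
    rcases Nat.eq_zero_or_pos W1.card with h | h
    · rw [h, Nat.cast_zero, mul_zero] at hM1
      linarith
    · exact h
  have hc2 : 0 < W2.card := by
    rcases Nat.eq_zero_or_pos W2.card with h | h
    · rw [h, Nat.cast_zero, mul_zero] at hM2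
      linarith
    · exact h
  have hMS : (f.natDegree : ℝ) ≤ ε * S.card := by
    refine hM1.trans (mul_le_mul_of_nonneg_left ?_ hεpos.le)
    exact_mod_cast card_le_card hW1
  set M1 : ℝ := (W1.card : ℝ) with hM1def
  set M2 : ℝ := (W2.card : ℝ) with hM2def
  have hM1pos : 0 < M1 := by rw [hM1def]; exact_mod_cast hc1
  have hM2pos : 0 < M2 := by rw [hM2def]; exact_mod_cast hc2
  set e4 : ℝ := ((t + 1) ^ 2 * ε + t ^ 2 * ε + 2 * t * ε + f.natDegree) / (2 * t) with he4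
  have he4pos : 0 ≤ e4 := by rw [he4]; positivity
  -- the finite set of places
  have habc : ∀ y x : K, ∃ T0 : Finset Q.Pl, y ∈ W1 → x ∈ W2 → ∀ T : Finset Q.Pl, T0 ⊆ T →
      ∑ v ∈ T, (Q.wt v : ℝ) * jmp (Q.av v) f z y x ≤
        ∑ v ∈ T, (Q.wt v : ℝ) * Q.ne3 v f z y x + Q.lossT := by
    intro y x
    by_cases hy : y ∈ W1
    · by_cases hx : x ∈ W2
      · obtain ⟨T0, hT0⟩ := Q.abc f (z := z) (y := y) (x := x)
          (fun h => hz1 (h ▸ hy)) (fun h => hz2 (h ▸ hx))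
          (fun h => (disjoint_left.mp hdisj) hy (h ▸ hx)) (hD y hy x hx)
        exact ⟨T0, fun _ _ => hT0⟩
      · exact ⟨∅, fun _ h => absurd h hx⟩
    · exact ⟨∅, fun h => absurd h hy⟩
  choose T1 hT1 using habc
  have hAex : ∀ a b : K, ∃ T0 : Finset Q.Pl, a ∈ S → b ∈ S → ∀ T : Finset Q.Pl, T0 ⊆ T →
      ∀ B : Finset Q.Pl, B = T \ Q.bad hd →
      Q.A hd a b = - ∑ v ∈ B, (Q.wt v : ℝ) * nrm (Q.av v) f a b := by
    intro a b
    by_cases ha : a ∈ S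
    · by_cases hb : b ∈ S
      · obtain ⟨T0, hT0⟩ := Q.exists_T' hd h0 hS ha hb
        exact ⟨T0, fun _ _ => hT0⟩
      · exact ⟨∅, fun _ h => absurd h hb⟩
    · exact ⟨∅, fun h => absurd h ha⟩
  choose T2 hT2 using hAex
  set T : Finset Q.Pl := Q.bad hd ∪ (W1 ×ˢ W2).biUnion (fun q => T1 q.1 q.2) ∪
    (S ×ˢ S).biUnion (fun q => T2 q.1 q.2) with hT
  have hbT : Q.bad hd ⊆ T := subset_union_left.trans subset_union_left
  have hT1' : ∀ y ∈ W1, ∀ x ∈ W2, T1 y x ⊆ T := by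
    intro y hy x hx
    refine Subset.trans ?_ (subset_union_right.trans subset_union_left)
    exact subset_biUnion_of_mem (fun q : K × K => T1 q.1 q.2) (mem_product.mpr ⟨hy, hx⟩ :
      ((y, x) : K × K) ∈ W1 ×ˢ W2)
  have hT2' : ∀ a ∈ S, ∀ b ∈ S, T2 a b ⊆ T := by
    intro a ha b hb
    refine Subset.trans ?_ subset_union_right
    exact subset_biUnion_of_mem (fun q : K × K => T2 q.1 q.2) (mem_product.mpr ⟨ha, hb⟩ :
      ((a, b) : K × K) ∈ S ×ˢ S)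
  set Bc : Finset Q.Pl := T \ Q.bad hd with hBc
  have hA : ∀ a ∈ S, ∀ b ∈ S, ∑ v ∈ Bc, (Q.wt v : ℝ) * nrm (Q.av v) f a b = - Q.A hd a b := by
    intro a ha b hb
    have := hT2 a b ha hb T (hT2' a ha b hb) Bc rfl
    linarith
  -- the weight of the bad places
  set Wb : ℝ := ∑ v ∈ Q.bad hd, (Q.wt v : ℝ) with hWb
  have hWbound := Q.sum_wt_bad hd hder h0 hS hnL hρs hL hε hMS
  -- pointwise upper bound
  have hup : ∀ y ∈ W1, ∀ x ∈ W2, ∑ v ∈ Q.bad hd, (Q.wt v : ℝ) * jmp (Q.av v) f z y x ≤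
      Wb + ((f.natDegree : ℝ) - 1) * (Q.A hd z y + Q.A hd z x + Q.A hd x y) + Q.lossT := by
    intro y hy x hx
    have h1 := hT1 y x hy hx T (hT1' y hy x hx)
    have h2 : ∑ v ∈ Q.bad hd, (Q.wt v : ℝ) * jmp (Q.av v) f z y x ≤
        ∑ v ∈ T, (Q.wt v : ℝ) * jmp (Q.av v) f z y x :=
      sum_le_sum_of_subset_of_nonneg hbT fun v _ _ =>
        mul_nonneg (Q.wt_pos v).le (jmp_nonneg _ _ _ _ _)
    have h3 : ∑ v ∈ T, (Q.wt v : ℝ) * Q.ne3 v f z y x =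
        ∑ v ∈ Bc, (Q.wt v : ℝ) * Q.ne3 v f z y x +
          ∑ v ∈ Q.bad hd, (Q.wt v : ℝ) * Q.ne3 v f z y x := (sum_sdiff hbT).symm
    have h4 : ∑ v ∈ Q.bad hd, (Q.wt v : ℝ) * Q.ne3 v f z y x ≤ Wb := by
      apply sum_le_sum
      intro v _
      have : Q.ne3 v f z y x ≤ 1 := by
        unfold ne3
        split_ifs <;> norm_num
      calc (Q.wt v : ℝ) * Q.ne3 v f z y x ≤ (Q.wt v : ℝ) * 1 :=
            mul_le_mul_of_nonneg_left this (Q.wt_pos v).le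
        _ = _ := mul_one _
    have h5 : ∑ v ∈ Bc, (Q.wt v : ℝ) * Q.ne3 v f z y x ≤
        ∑ v ∈ Bc, (Q.wt v : ℝ) * (- (((f.natDegree : ℝ) - 1) *
      (nrm (Q.av v) f z y + nrm (Q.av v) f z x + nrm (Q.av v) f y x))) := by
      apply sum_le_sum
      intro v hv
      rw [hBc, mem_sdiff] at hv
      exact mul_le_mul_of_nonneg_left (Q.ne3_le hd h0 hS hv.2 hz (hW1 hy) (hW2 hx))
        (Q.wt_pos v).le
    have h6 : ∑ v ∈ Bc, (Q.wt v : ℝ) * (- (((f.natDegree : ℝ) - 1) *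
      (nrm (Q.av v) f z y + nrm (Q.av v) f z x + nrm (Q.av v) f y x))) =
        ((f.natDegree : ℝ) - 1) * (Q.A hd z y + Q.A hd z x + Q.A hd x y) := by
      have e1 := hA z hz y (hW1 hy)
      have e2 := hA z hz x (hW2 hx)
      have e3 := hA y (hW1 hy) x (hW2 hx)
      rw [Q.A_symm hd x y]
      have e4 : ∑ v ∈ Bc, (Q.wt v : ℝ) * (- (((f.natDegree : ℝ) - 1) *
          (nrm (Q.av v) f z y + nrm (Q.av v) f z x + nrm (Q.av v) f y x))) =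
          - ((f.natDegree : ℝ) - 1) * (∑ v ∈ Bc, (Q.wt v : ℝ) * nrm (Q.av v) f z y +
            ∑ v ∈ Bc, (Q.wt v : ℝ) * nrm (Q.av v) f z x +
            ∑ v ∈ Bc, (Q.wt v : ℝ) * nrm (Q.av v) f y x) := by
        rw [← sum_add_distrib, ← sum_add_distrib, mul_sum]
        apply sum_congr rfl
        intro v _
        ring
      rw [e4, e1, e2, e3]
      ring
    linarith
  -- sum over the pairs
  have hsum : ∑ y ∈ W1, ∑ x ∈ W2, ∑ v ∈ Q.bad hd, (Q.wt v : ℝ) * jmp (Q.av v) f z y x ≤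
      ∑ y ∈ W1, ∑ x ∈ W2, (Wb + ((f.natDegree : ℝ) - 1) *
        (Q.A hd z y + Q.A hd z x + Q.A hd x y) + Q.lossT) :=
    sum_le_sum fun y hy => sum_le_sum fun x hx => hup y hy x hx
  have hA1 := Q.sum_A_le hd hder h0 hS (n := n) hW1 hz ht0 hε hM1 hc1
  have hA2 := Q.sum_A_le hd hder h0 hS (n := n) hW2 hz ht0 hε hM2 hc2
  have hA3 : ∑ x ∈ W2, ∑ y ∈ W1, Q.A hd x y ≤ M2 * (M1 * Q.ht hd * e4) := by
    have h1 : ∑ x ∈ W2, ∑ y ∈ W1, Q.A hd x y ≤ ∑ _x ∈ W2, M1 * Q.ht hd * e4 :=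
      sum_le_sum fun x hx => Q.sum_A_le hd hder h0 hS (n := n) hW1 (hW2 hx) ht0 hε hM1 hc1
    rwa [sum_const, nsmul_eq_mul] at h1
  have hR : ∑ y ∈ W1, ∑ x ∈ W2, (Wb + ((f.natDegree : ℝ) - 1) *
        (Q.A hd z y + Q.A hd z x + Q.A hd x y) + Q.lossT) =
      M1 * M2 * Wb + ((f.natDegree : ℝ) - 1) * (M2 * ∑ y ∈ W1, Q.A hd z y +
        M1 * ∑ x ∈ W2, Q.A hd z x + ∑ x ∈ W2, ∑ y ∈ W1, Q.A hd x y) + M1 * M2 * Q.lossT := by
    have h1 : ∀ y ∈ W1, ∑ x ∈ W2, (Wb + ((f.natDegree : ℝ) - 1) *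
        (Q.A hd z y + Q.A hd z x + Q.A hd x y) + Q.lossT) =
        M2 * Wb + ((f.natDegree : ℝ) - 1) * (M2 * Q.A hd z y + ∑ x ∈ W2, Q.A hd z x +
          ∑ x ∈ W2, Q.A hd x y) + M2 * Q.lossT := by
      intro y _
      rw [sum_add_distrib, sum_add_distrib, ← mul_sum, sum_add_distrib, sum_add_distrib,
        sum_const, sum_const, sum_const, nsmul_eq_mul, nsmul_eq_mul, nsmul_eq_mul]
    rw [sum_congr rfl h1]
    simp only [sum_add_distrib, ← mul_sum, sum_const, nsmul_eq_mul]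
    rw [sum_comm (s := W1) (t := W2)]
    ring
  -- lower bound
  have hlow : ∑ y ∈ W1, ∑ x ∈ W2, ∑ v ∈ Q.bad hd, (Q.wt v : ℝ) * jmp (Q.av v) f z y x =
      ∑ v ∈ Q.bad hd, (Q.wt v : ℝ) * ∑ y ∈ W1, ∑ x ∈ W2, jmp (Q.av v) f z y x := by
    simp only [mul_sum]
    rw [sum_congr rfl fun y _ => sum_comm, sum_comm]
  have hlow2 : ∑ v ∈ Q.bad hd, (Q.wt v : ℝ) *
      (M1 * M2 * rho (Q.av v) f / (48 * (f.natDegree : ℝ) ^ 2) -
      M2 / (3 * M1) * Q.Xv v f n W1 - M1 / (3 * M2) * Q.Xv v f n W2) ≤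
      ∑ v ∈ Q.bad hd, (Q.wt v : ℝ) * ∑ y ∈ W1, ∑ x ∈ W2, jmp (Q.av v) f z y x :=
    sum_le_sum fun v hv => mul_le_mul_of_nonneg_left
      (Q.jump_ge hd hder h0 hS hv (by omega) hW1 hW2 hz hc1 hc2) (Q.wt_pos v).le
  have hlow3 : ∑ v ∈ Q.bad hd, (Q.wt v : ℝ) *
      (M1 * M2 * rho (Q.av v) f / (48 * (f.natDegree : ℝ) ^ 2) -
      M2 / (3 * M1) * Q.Xv v f n W1 - M1 / (3 * M2) * Q.Xv v f n W2) =
      M1 * M2 / (48 * (f.natDegree : ℝ) ^ 2) * Q.ht hd -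
      M2 / (3 * M1) * ∑ v ∈ Q.bad hd, (Q.wt v : ℝ) * Q.Xv v f n W1 -
      M1 / (3 * M2) * ∑ v ∈ Q.bad hd, (Q.wt v : ℝ) * Q.Xv v f n W2 := by
    unfold ht
    rw [mul_sum, mul_sum, mul_sum, ← sum_sub_distrib, ← sum_sub_distrib]
    apply sum_congr rfl
    intro v _
    ring
  have hX1 := Q.sum_X hd hder h0 hS n hW1 hε hM1
  have hX2 := Q.sum_X hd hder h0 hS n hW2 hε hM2
  have hX1' : M2 / (3 * M1) * ∑ v ∈ Q.bad hd, (Q.wt v : ℝ) * Q.Xv v f n W1 ≤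
      M1 * M2 * (2 / 3 * ε * Q.ht hd) := by
    have h1 := mul_le_mul_of_nonneg_left hX1 (by positivity : 0 ≤ M2 / (3 * M1))
    refine h1.trans (le_of_eq ?_)
    rw [← hM1def]
    field_simp
  have hX2' : M1 / (3 * M2) * ∑ v ∈ Q.bad hd, (Q.wt v : ℝ) * Q.Xv v f n W2 ≤
      M1 * M2 * (2 / 3 * ε * Q.ht hd) := by
    have h1 := mul_le_mul_of_nonneg_left hX2 (by positivity : 0 ≤ M1 / (3 * M2))
    refine h1.trans (le_of_eq ?_)
    rw [← hM2def]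
    field_simp
  rw [hlow, hR] at hsum
  rw [hlow3] at hlow2
  have hS1 : ((f.natDegree : ℝ) - 1) * (M2 * ∑ y ∈ W1, Q.A hd z y +
        M1 * ∑ x ∈ W2, Q.A hd z x + ∑ x ∈ W2, ∑ y ∈ W1, Q.A hd x y) ≤
      ((f.natDegree : ℝ) - 1) * (3 * (M1 * M2 * (e4 * Q.ht hd))) := by
    apply mul_le_mul_of_nonneg_left _ (by linarith)
    have e1 := mul_le_mul_of_nonneg_left hA1 hM2pos.le
    have e2 := mul_le_mul_of_nonneg_left hA2 hM1pos.le
    have e3 : M2 * (M1 * Q.ht hd * e4) = M1 * M2 * (e4 * Q.ht hd) := by ring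
    have e5 : M1 * (M2 * Q.ht hd * e4) = M1 * M2 * (e4 * Q.ht hd) := by ring
    rw [← he4] at e1 e2
    linarith
  have hfin : M1 * M2 * (Q.ht hd / (48 * (f.natDegree : ℝ) ^ 2) - 4 / 3 * ε * Q.ht hd) ≤
      M1 * M2 * (Q.ht hd / ρs + 2 * ε * (f.natDegree : ℝ) ^ (3 * L + 8) * Q.ht hd +
      3 * ((f.natDegree : ℝ) - 1) * e4 * Q.ht hd + Q.lossT) := by
    have hWb2 : M1 * M2 * Wb ≤ M1 * M2 * (Q.ht hd / ρs +
        2 * ε * (f.natDegree : ℝ) ^ (3 * L + 8) * Q.ht hd) :=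
      mul_le_mul_of_nonneg_left hWbound (by positivity)
    have e1 : M1 * M2 * (Q.ht hd / (48 * (f.natDegree : ℝ) ^ 2) - 4 / 3 * ε * Q.ht hd) =
        M1 * M2 / (48 * (f.natDegree : ℝ) ^ 2) * Q.ht hd - M1 * M2 * (2 / 3 * ε * Q.ht hd) -
        M1 * M2 * (2 / 3 * ε * Q.ht hd) := by ring
    have e2 : M1 * M2 * (Q.ht hd / ρs + 2 * ε * (f.natDegree : ℝ) ^ (3 * L + 8) * Q.ht hd +
      3 * ((f.natDegree : ℝ) - 1) * e4 * Q.ht hd + Q.lossT) =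
      M1 * M2 * (Q.ht hd / ρs + 2 * ε * (f.natDegree : ℝ) ^ (3 * L + 8) * Q.ht hd) +
      ((f.natDegree : ℝ) - 1) * (3 * (M1 * M2 * (e4 * Q.ht hd))) + M1 * M2 * Q.lossT := by ring
    rw [e1, e2]
    linarith
  exact le_of_mul_le_mul_left hfin (by positivity)

end PD

end Pool.Agent.V7H78.UB
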