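import Mathlib
import Pool.Agent.V7H78.UB.Place

/-!
# Splitting a finite set along the lines over the field of constants of a derivation
-/

namespace Pool.Agent.V7H78.UB

open Finset

section

variable {K : Type*} [Field K] (D : Derivation ℤ K K)

/-- The field of constants of a derivation. -/
def cst : Subfield K where
  carrier := {x | D x = 0}
  mul_mem' := by
    intro a b ha hb
    rw [Set.mem_ofPred_eq] at *
    rw [D.leibniz, ha, hb, smul_zero, smul_zero, add_zero]
  one_mem' := D.map_one_eq_zero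
  add_mem' := by
    intro a b ha hb
    rw [Set.mem_ofPred_eq] at *
    rw [map_add, ha, hb, add_zero]
  zero_mem' := map_zero D
  neg_mem' := by
    intro a ha
    rw [Set.mem_ofPred_eq] at *
    rw [map_neg, ha, neg_zero]
  inv_mem' := by
    intro a ha
    rw [Set.mem_ofPred_eq] at *
    rw [D.leibniz_inv, ha, smul_zero]

lemma mem_cst {x : K} : x ∈ cst D ↔ D x = 0 := Iff.rfl

/-- The splitting lemma. -/
theorem exists_split {S : Finset K} (h0 : (0 : K) ∈ S) (h1 : (1 : K) ∈ S)
    (hs : ∃ s ∈ S, D s ≠ 0) {r : ℕ} (hr : 4 * r + 4 ≤ S.card) :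
    ∃ z ∈ S, ∃ W1 W2 : Finset K, W1 ⊆ S ∧ W2 ⊆ S ∧ Disjoint W1 W2 ∧ z ∉ W1 ∧ z ∉ W2 ∧
      r ≤ W1.card ∧ r ≤ W2.card ∧ ∀ y ∈ W1, ∀ x ∈ W2, D ((y - z) / (x - z)) ≠ 0 := by
  classical
  set S' := S.erase 0 with hS'
  have hS'card : S'.card + 1 = S.card := card_erase_add_one h0
  set cl : K → Finset K := fun y0 => S'.filter fun y => y / y0 ∈ cst D with hcl
  have hmem : ∀ y0 y, y ∈ cl y0 ↔ y ∈ S' ∧ y / y0 ∈ cst D := fun y0 y => by
    rw [hcl]
    exact mem_filter
  have hne : ∀ y ∈ S', y ≠ 0 := fun y hy => ne_of_mem_erase hy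
  by_cases hB : ∃ y0 ∈ S', S.card ≤ 2 * (cl y0).card
  · obtain ⟨y0, hy0, hC⟩ := hB
    have hy00 := hne y0 hy0
    -- a point outside of the line
    obtain ⟨z, hz, hzC⟩ : ∃ z ∈ S', z ∉ cl y0 := by
      by_contra hcon
      push Not at hcon
      have h1' : (1 : K) ∈ S' := mem_erase.mpr ⟨one_ne_zero, h1⟩
      have h2 := ((hmem y0 1).mp (hcon 1 h1')).2
      obtain ⟨s, hs1, hs2⟩ := hs
      apply hs2
      by_cases hs0 : s = 0
      · rw [hs0, map_zero]
      · have h3 := ((hmem y0 s).mp (hcon s (mem_erase.mpr ⟨hs0, hs1⟩))).2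
        have h4 : s = (s / y0) / (1 / y0) := by field_simp
        rw [h4]
        exact (mem_cst D).mp ((cst D).div_mem h3 h2)
    obtain ⟨W1, hW1, hW1c⟩ := exists_subset_card_eq (s := cl y0) (n := r) (by omega)
    refine ⟨z, mem_of_mem_erase hz, W1, cl y0 \ W1, ?_, ?_, disjoint_sdiff, ?_, ?_, ?_, ?_, ?_⟩
    · exact hW1.trans ((filter_subset _ _).trans (erase_subset _ _))
    · exact sdiff_subset.trans ((filter_subset _ _).trans (erase_subset _ _))
    · exact fun h => hzC (hW1 h)
    · exact fun h => hzC (mem_sdiff.mp h).1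
    · exact hW1c.ge
    · rw [card_sdiff_of_subset hW1]
      omega
    · intro y hy x hx hD
      rw [mem_sdiff] at hx
      have hy' := (hmem y0 y).mp (hW1 hy)
      have hx' := (hmem y0 x).mp hx.1
      have hyx : y ≠ x := fun h => hx.2 (h ▸ hy)
      have hzx : x - z ≠ 0 := sub_ne_zero.mpr fun h => hzC (h ▸ hx.1)
      set c := (y - z) / (x - z) with hc
      have hcm : c ∈ cst D := hD
      have h2 : y - z = c * (x - z) := by
        rw [hc]
        field_simp
      have hc1 : c ≠ 1 := by
        intro h3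
        rw [h3, one_mul] at h2
        exact hyx (sub_left_injective h2)
      apply hzC
      rw [hmem]
      refine ⟨hz, ?_⟩
      have hc1' : c - 1 ≠ 0 := sub_ne_zero.mpr hc1
      have h3 : z / y0 = (c * (x / y0) - y / y0) / (c - 1) := by
        rw [eq_div_iff hc1']
        field_simp
        linear_combination h2
      rw [h3]
      exact (cst D).div_mem ((cst D).sub_mem ((cst D).mul_mem hcm hx'.2) hy'.2)
        ((cst D).sub_mem hcm (cst D).one_mem)
  · push Not at hB
    -- a maximal saturated set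
    set F : Finset (Finset K) := S'.powerset.filter fun U =>
      (∀ y ∈ U, ∀ x ∈ S', x / y ∈ cst D → x ∈ U) ∧ 4 * U.card ≤ 3 * S.card with hF
    have hFmem : ∀ U, U ∈ F ↔ U ⊆ S' ∧ (∀ y ∈ U, ∀ x ∈ S', x / y ∈ cst D → x ∈ U) ∧
        4 * U.card ≤ 3 * S.card := by
      intro U
      rw [hF, mem_filter, mem_powerset]
    have hFne : F.Nonempty := ⟨∅, (hFmem ∅).mpr ⟨empty_subset _, by simp, by simp⟩⟩
    obtain ⟨U, hU, hmax⟩ := exists_max_image F card hFne
    obtain ⟨hU1, hU2, hU3⟩ := (hFmem U).mp hU
    have hbig : S.card ≤ 4 * U.card := by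
      by_contra hcon
      push Not at hcon
      obtain ⟨y0, hy0, hy0U⟩ : ∃ y0 ∈ S', y0 ∉ U := by
        by_contra hcon2
        push Not at hcon2
        have h2 := card_le_card (show S' ⊆ U from hcon2)
        omega
      have hy00 := hne y0 hy0
      have hcl0 := hB y0 hy0
      have h2 : U ∪ cl y0 ∈ F := by
        rw [hFmem]
        refine ⟨union_subset hU1 (filter_subset _ _), ?_, ?_⟩
        · intro y hy x hx hxy
          rw [mem_union] at hy ⊢
          rcases hy with hy | hy
          · exact Or.inl (hU2 y hy x hx hxy)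
          · right
            rw [hmem] at hy ⊢
            refine ⟨hx, ?_⟩
            have hy0' := hne y hy.1
            have h3 : x / y0 = (x / y) * (y / y0) := by field_simp
            rw [h3]
            exact (cst D).mul_mem hxy hy.2
        · have h3 := card_union_le U (cl y0)
          omega
      have h3 := hmax _ h2
      have h4 : U ⊂ U ∪ cl y0 := by
        rw [ssubset_iff_of_subset subset_union_left]
        refine ⟨y0, mem_union_right _ ?_, hy0U⟩
        rw [hmem]
        refine ⟨hy0, ?_⟩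
        rw [div_self hy00]
        exact (cst D).one_mem
      have h5 := card_lt_card h4
      omega
    refine ⟨0, h0, U, S' \ U, ?_, ?_, disjoint_sdiff, ?_, ?_, ?_, ?_, ?_⟩
    · exact hU1.trans (erase_subset _ _)
    · exact sdiff_subset.trans (erase_subset _ _)
    · exact fun h => hne 0 (hU1 h) rfl
    · exact fun h => hne 0 (mem_sdiff.mp h).1 rfl
    · omega
    · rw [card_sdiff_of_subset hU1]
      omega
    · intro y hy x hx hD
      rw [sub_zero, sub_zero] at hD
      rw [mem_sdiff] at hx
      apply hx.2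
      apply hU2 y hy x hx.1
      have h3 : x / y = (y / x)⁻¹ := by rw [inv_div]
      rw [h3]
      exact (cst D).inv_mem hD

end

end Pool.Agent.V7H78.UB
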