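import Mathlib
import Pool.Agent.V7H78.UB.Glob3
import Pool.Agent.V7H78.UB.Lines

/-!
# The main global theorem
-/

namespace Pool.Agent.V7H78.UB

open Polynomial Finset

universe u

namespace PD

variable {p : ℕ} {k K : Type u} [Field k] [Field K] [Algebra k K] (Q : PD.{u} p k K)

/-- If the height vanishes then a finite invariant set containing `0` and `1` is constant. -/
lemma const_of_ht_zero {f : K[X]} (hd : 2 ≤ f.natDegree) {S : Finset K} (h0 : (0 : K) ∈ S)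
    (h1 : (1 : K) ∈ S) (hS : ∀ x ∈ S, f.eval x ∈ S) (hh : Q.ht hd = 0) :
    ∀ x ∈ S, ∃ c : k, algebraMap k K c = x := by
  classical
  have hbad : Q.bad hd = ∅ := by
    by_contra hne
    obtain ⟨v, hv⟩ := nonempty_iff_ne_empty.mpr hne
    have h2 : (Q.wt v : ℝ) * rho (Q.av v) f ≤ Q.ht hd :=
      single_le_sum (f := fun v => (Q.wt v : ℝ) * rho (Q.av v) f)
        (fun v _ => mul_nonneg (Q.wt_pos v).le rho_nonneg) hv
    have h3 := mul_pos (Q.wt_pos v) ((Q.mem_bad hd).mp hv)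
    linarith
  have hnrm : ∀ v, ∀ x ∈ S, ∀ y ∈ S, x ≠ y → nrm (Q.av v) f x y = 0 := by
    intro v x hx y hy hxy
    obtain ⟨T0, hT0⟩ := Q.exists_T hd hxy
    have h2 := hT0 (insert v T0) (subset_insert _ _)
    have h3 : ∀ u ∈ insert v T0, (Q.wt u : ℝ) * nrm (Q.av u) f x y ≤ 0 := by
      intro u _
      apply mul_nonpos_of_nonneg_of_nonpos (Q.wt_pos u).le
      exact Q.nrm_nonpos hd h0 hS (by rw [hbad]; exact notMem_empty u) hx hy
    have h4 := (sum_eq_zero_iff_of_nonpos h3).mp h2 v (mem_insert_self _ _)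
    exact (mul_eq_zero.mp h4).resolve_left (Q.wt_pos v).ne'
  intro x hx
  by_cases hx0 : x = 0
  · exact ⟨0, by rw [map_zero, hx0]⟩
  apply Q.const x hx0
  intro v
  have h2 := hnrm v x hx 0 h0 hx0
  have h3 := hnrm v 1 h1 0 h0 one_ne_zero
  rw [nrm_of_ne hx0, sub_zero, Q.log_av v hx0] at h2
  rw [nrm_of_ne one_ne_zero, sub_zero, Q.log_av v one_ne_zero, Q.ord_one] at h3
  have h4 : (Q.ord v x : ℝ) = 0 := by
    push_cast at h3
    linarith
  have h5 : Q.ord v x = 0 := by exact_mod_cast h4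
  rw [h5]

omit [Field k] [Field K] [Algebra k K] Q in
lemma ar1 {t ε d : ℝ} (ht : 0 < t) :
    ((t + 1) ^ 2 * ε + t ^ 2 * ε + 2 * t * ε + d) / (2 * t) =
      ((t + 1) ^ 2 + t ^ 2 + 2 * t) / (2 * t) * ε + d / (2 * t) := by
  field_simp

omit [Field k] [Field K] [Algebra k K] Q in
lemma ar2 {d : ℝ} (hd : 2 ≤ d) : 3 * (d - 1) * (d / (2 * (600 * d ^ 4))) ≤ 1 / (400 * d ^ 2) := by
  have hd0 : 0 < d := by linarith
  have e5 : 3 * (d - 1) * (d / (2 * (600 * d ^ 4))) = (d - 1) / d * (1 / (400 * d ^ 2)) := by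
    field_simp
    ring
  rw [e5]
  have e6 : (d - 1) / d ≤ 1 := by
    rw [div_le_one hd0]
    linarith
  calc _ ≤ 1 * (1 / (400 * d ^ 2)) := mul_le_mul_of_nonneg_right e6 (by positivity)
    _ = _ := one_mul _

omit [Field k] [Field K] [Algebra k K] Q in
lemma ar3 {d H l t ε A B : ℝ} (hd : 2 ≤ d) (hH : 0 ≤ H) (ht : 0 < t)
    (h2 : 3 * (d - 1) * (d / (2 * t)) ≤ 1 / (400 * d ^ 2))
    (hK : (4 / 3 + 2 * A + 3 * (d - 1) * (((t + 1) ^ 2 + t ^ 2 + 2 * t) / (2 * t)) + 2 * B) * ε =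
      1 / (1200 * d ^ 2)) (hB : 0 ≤ 2 * B)
    (hm : H / (48 * d ^ 2) - 4 / 3 * ε * H ≤ H / (400 * d ^ 2) + 2 * ε * A * H +
      3 * (d - 1) * (((t + 1) ^ 2 * ε + t ^ 2 * ε + 2 * t * ε + d) / (2 * t)) * H + l)
    (hε : 0 ≤ ε) :
    H ≤ 96 * d ^ 2 * l := by
  have hd0 : 0 < d := by linarith
  rw [ar1 ht] at hm
  set G := ((t + 1) ^ 2 + t ^ 2 + 2 * t) / (2 * t) with hG
  set a : ℝ := 1 / d ^ 2 with ha
  have ha0 : 0 < a := by positivity
  have e1 : H / (48 * d ^ 2) = H * a / 48 := by rw [ha]; field_simp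
  have e2 : H / (400 * d ^ 2) = H * a / 400 := by rw [ha]; field_simp
  have e3 : 1 / (1200 * d ^ 2) = a / 1200 := by rw [ha]; field_simp
  have e4 : 1 / (400 * d ^ 2) = a / 400 := by rw [ha]; field_simp
  rw [e1, e2] at hm
  rw [e3] at hK
  rw [e4] at h2
  have e5 := mul_le_mul_of_nonneg_right h2 hH
  have e6 : 0 ≤ 2 * B * ε * H := mul_nonneg (mul_nonneg hB hε) hH
  have e7 : (4 / 3 + 2 * A + 3 * (d - 1) * G) * ε * H ≤ a / 1200 * H := by
    rw [← hK]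
    linarith
  have e8 : 0 ≤ H * a := by positivity
  have e9 : H * a ≤ 96 * l := by
    linarith
  have e10 : H = d ^ 2 * (H * a) := by
    rw [ha]
    field_simp
  rw [e10]
  have e11 := mul_le_mul_of_nonneg_left e9 (by positivity : 0 ≤ d ^ 2)
  linarith

omit [Field k] [Field K] [Algebra k K] Q in
lemma ar4 {d ε A B G : ℝ} (hd : 2 ≤ d) (hε : 0 < ε) (hG : 0 ≤ 3 * (d - 1) * G) (hA : 0 ≤ 2 * A)
    (hK : (4 / 3 + 2 * A + 3 * (d - 1) * G + 2 * B) * ε = 1 / (1200 * d ^ 2)) :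
    2 * ε * B < 1 := by
  have e2 : 0 ≤ (4 / 3 + 2 * A + 3 * (d - 1) * G) * ε := mul_nonneg (by linarith) hε.le
  have e3 : 1 / (1200 * d ^ 2) < 1 := by
    rw [div_lt_one (by positivity)]
    nlinarith
  linarith

theorem main [Fact p.Prime] [CharP K p] {d : ℕ} (hd2 : 2 ≤ d) :
    ∃ N0 : ℕ, ∀ f : K[X], f.natDegree = d → derivative f = 0 → ∀ S : Finset K,
      (0 : K) ∈ S → (1 : K) ∈ S → (∀ x ∈ S, f.eval x ∈ S) → N0 ≤ S.card →
      (∃ s ∈ S, Q.D s ≠ 0) → ∀ x ∈ S, ∃ c : k, algebraMap k K c = x := by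
  have hdR : (2 : ℝ) ≤ d := by exact_mod_cast hd2
  have hd0 : (0 : ℝ) < d := by linarith
  have hloss := Q.lossT_nonneg
  set ρs : ℝ := 400 * (d : ℝ) ^ 2 with hρs
  obtain ⟨L1, hL1⟩ := pow_unbounded_of_one_lt ((d : ℝ) * ρs) (one_lt_two : (1 : ℝ) < 2)
  set t : ℝ := 600 * (d : ℝ) ^ 4 with ht
  have ht0 : 0 < t := by positivity
  set C1 : ℝ := 96 * (d : ℝ) ^ 2 * Q.lossT with hC1
  obtain ⟨L2, hL2⟩ := pow_unbounded_of_one_lt ((d : ℝ) * C1) (one_lt_two : (1 : ℝ) < 2)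
  set Kc : ℝ := 4 / 3 + 2 * (d : ℝ) ^ (3 * L1 + 8) +
    3 * ((d : ℝ) - 1) * (((t + 1) ^ 2 + t ^ 2 + 2 * t) / (2 * t)) + 2 * (d : ℝ) ^ (3 * (L2 + 2))
    with hKc
  have g1 : 0 ≤ 3 * ((d : ℝ) - 1) * (((t + 1) ^ 2 + t ^ 2 + 2 * t) / (2 * t)) :=
    mul_nonneg (by linarith) (by positivity)
  have g2 : (0 : ℝ) ≤ 2 * (d : ℝ) ^ (3 * L1 + 8) := by positivity
  have g3 : (0 : ℝ) ≤ 2 * (d : ℝ) ^ (3 * (L2 + 2)) := by positivity
  have hKc1 : 1 ≤ Kc := by rw [hKc]; linarith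
  set ε : ℝ := 1 / (1200 * (d : ℝ) ^ 2 * Kc) with hε
  have hε0 : 0 < ε := by positivity
  have hKε : Kc * ε = 1 / (1200 * (d : ℝ) ^ 2) := by
    rw [hε]
    field_simp
  obtain ⟨n0, hn0⟩ := pow_unbounded_of_one_lt (1 / ε) (by linarith : (1 : ℝ) < d)
  set n : ℕ := n0 + (L1 + 2) + (L2 + 2) with hn
  have hnε : 1 / (d : ℝ) ^ n ≤ ε := by
    have h1 : (d : ℝ) ^ n0 ≤ (d : ℝ) ^ n := pow_le_pow_right₀ (by linarith) (by omega)
    rw [div_le_iff₀ (by positivity)]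
    have h2 : 1 / ε < (d : ℝ) ^ n := hn0.trans_le h1
    rw [div_lt_iff₀ hε0] at h2
    linarith
  obtain ⟨r, hr⟩ := exists_nat_ge ((d : ℝ) / ε)
  have hr' : (d : ℝ) ≤ ε * r := by
    rw [div_le_iff₀ hε0] at hr
    linarith
  refine ⟨4 * r + 4, fun f hfd hder S h0 h1 hS hcard hs => ?_⟩
  have hd : 2 ≤ f.natDegree := by rw [hfd]; exact hd2
  obtain ⟨z, hz, W1, W2, hW1, hW2, hdisj, hz1, hz2, hr1, hr2, hD⟩ :=
    exists_split Q.D h0 h1 hs hcard
  have hM1 : (f.natDegree : ℝ) ≤ ε * W1.card := by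
    rw [hfd]
    refine hr'.trans (mul_le_mul_of_nonneg_left ?_ hε0.le)
    exact_mod_cast hr1
  have hM2 : (f.natDegree : ℝ) ≤ ε * W2.card := by
    rw [hfd]
    refine hr'.trans (mul_le_mul_of_nonneg_left ?_ hε0.le)
    exact_mod_cast hr2
  have hMS : (f.natDegree : ℝ) ≤ ε * S.card := by
    refine hM1.trans (mul_le_mul_of_nonneg_left ?_ hε0.le)
    exact_mod_cast card_le_card hW1
  have hh := Q.ht_nonneg hd
  have hmaster := Q.master hd hder h0 hS (n := n) (L := L1) (by omega) (ρs := ρs) (by positivity)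
    (by rw [hfd]; exact hL1) (ε := ε) (t := t) (by rw [hfd]; exact hnε) ht0 hz hW1 hW2 hdisj hz1
    hz2 hM1 hM2 hD
  rw [hfd] at hmaster
  have hle : Q.ht hd ≤ C1 :=
    ar3 hdR hh ht0 (ar2 hdR) hKε g3 hmaster hε0.le
  have hzero : Q.ht hd = 0 := by
    apply Q.ht_zero_of_small hd hder h0 hS (n := n) (L := L2) (by omega) _ (ε := ε)
      (by rw [hfd]; exact hnε) hMS
    · rw [hfd]
      exact ar4 hdR hε0 g1 g2 hKε
    · intro v hv
      have e1 : (Q.wt v : ℝ) * rho (Q.av v) f ≤ Q.ht hd :=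
        single_le_sum (f := fun v => (Q.wt v : ℝ) * rho (Q.av v) f)
          (fun v _ => mul_nonneg (Q.wt_pos v).le rho_nonneg) hv
      have e2 : rho (Q.av v) f ≤ (Q.wt v : ℝ) * rho (Q.av v) f := by
        have := mul_le_mul_of_nonneg_right (Q.one_le_wt v) (rho_nonneg (v := Q.av v) (f := f))
        linarith
      rw [hfd]
      have e3 : (d : ℝ) * rho (Q.av v) f ≤ d * C1 :=
        mul_le_mul_of_nonneg_left (by linarith) hd0.le
      linarith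
  exact Q.const_of_ht_zero hd h0 h1 hS hzero

end PD

end Pool.Agent.V7H78.UB
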