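import Mathlib
import Pool.Agent.V7H78.UB.Main

/-!
# Descent to the field of constants
-/

namespace Pool.Agent.V7H78.UB

open Polynomial Finset

universe u

/-- A polynomial which maps many points of a subfield to the subfield has coefficients in it. -/
lemma descend {k K : Type*} [Field k] [Field K] (φ : k →+* K) (S : Finset K)
    (hS : ∀ x ∈ S, ∃ t, φ t = x) (f : K[X]) (hdeg : f.natDegree < S.card)
    (h : ∀ x ∈ S, ∃ s, φ s = f.eval x) : ∃ g : k[X], g.map φ = f := by
  classical
  set T : Finset k := S.preimage φ φ.injective.injOn with hT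
  have himg : T.image φ = S := by
    ext x
    rw [mem_image]
    constructor
    · rintro ⟨t, ht, rfl⟩
      exact mem_preimage.mp ht
    · intro hx
      obtain ⟨t, rfl⟩ := hS x hx
      exact ⟨t, mem_preimage.mpr hx, rfl⟩
  have hcard : T.card = S.card := by
    rw [← himg, card_image_of_injective _ φ.injective]
  have h' : ∀ t : k, ∃ s : k, t ∈ T → φ s = f.eval (φ t) := by
    intro t
    by_cases ht : t ∈ T
    · obtain ⟨s, hs⟩ := h (φ t) (mem_preimage.mp ht)
      exact ⟨s, fun _ => hs⟩
    · exact ⟨0, fun h => absurd h ht⟩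
  choose r hr using h'
  have hinj : Set.InjOn (id : k → k) (T : Set k) := Function.injective_id.injOn
  set g : k[X] := Lagrange.interpolate T id r with hg
  refine ⟨g, ?_⟩
  have hgdeg : g.degree < T.card := Lagrange.degree_interpolate_lt _ hinj
  apply eq_of_degrees_lt_of_eval_index_eq T (v := φ) φ.injective.injOn
  · exact degree_map_le.trans_lt hgdeg
  · rw [hcard]
    by_cases hf : f = 0
    · rw [hf, degree_zero]
      exact WithBot.bot_lt_coe _
    · rw [degree_eq_natDegree hf]
      exact_mod_cast hdeg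
  · intro t ht
    have h1 : g.eval t = r t := Lagrange.eval_interpolate_at_node r hinj ht
    rw [eval_map, eval₂_hom, h1, hr t ht]

namespace PD

variable {p : ℕ} {k K : Type u} [Field k] [Field K] [Algebra k K] (Q : PD.{u} p k K)

lemma ord_pow (v : Q.Pl) {x : K} (hx : x ≠ 0) (n : ℕ) : Q.ord v (x ^ n) = n * Q.ord v x := by
  induction n with
  | zero => simp [Q.ord_one]
  | succ n ih =>
    rw [pow_succ, Q.ord_mul v _ _ (pow_ne_zero n hx) hx, ih]
    push_cast
    ring

include Q in
/-- An element which is a `p ^ j`-th power for all `j` is constant. -/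
lemma const_of_pow [hp : Fact p.Prime] {x : K} (h : ∀ j : ℕ, ∃ t : K, t ^ p ^ j = x) :
    ∃ c : k, algebraMap k K c = x := by
  by_cases hx : x = 0
  · exact ⟨0, by rw [map_zero, hx]⟩
  apply Q.const x hx
  intro v
  have h1 : Q.ord v x = 0 := by
    by_contra hne
    obtain ⟨j, hj⟩ := pow_unbounded_of_one_lt (|Q.ord v x|) (by
      exact_mod_cast hp.out.one_lt : (1 : ℤ) < p)
    obtain ⟨t, ht⟩ := h j
    have ht0 : t ≠ 0 := by
      rintro rfl
      rw [zero_pow (pow_ne_zero _ hp.out.ne_zero)] at ht
      exact hx ht.symm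
    have h2 : Q.ord v x = (p ^ j : ℕ) * Q.ord v t := by rw [← ht, Q.ord_pow v ht0]
    have h3 : ((p : ℤ) ^ j) ∣ Q.ord v x := by
      rw [h2]
      push_cast
      exact dvd_mul_right _ _
    exact hne (Int.eq_zero_of_abs_lt_dvd h3 hj)
  rw [h1]

include Q in
/-- A large finite invariant set forces the polynomial to be isotrivial. -/
theorem affine [hp : Fact p.Prime] [CharP K p] {d : ℕ} (hd2 : 2 ≤ d) :
    ∃ N : ℕ, ∀ f : K[X], f.natDegree = d → derivative f = 0 → ∀ S : Finset K,
      (∀ x ∈ S, f.eval x ∈ S) → N ≤ S.card → ∃ (a b : K) (g : k[X]), a ≠ 0 ∧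
        f.comp (C a * X + C b) = C a * g.map (algebraMap k K) + C b := by
  classical
  obtain ⟨N0, hN0⟩ := Q.main (d := d) hd2
  refine ⟨N0 + d + 2, fun f hfd hder S hS hcard => ?_⟩
  obtain ⟨x0, hx0, x1, hx1, hne⟩ := one_lt_card.mp (by omega : 1 < S.card)
  set a : K := x1 - x0 with ha
  have ha0 : a ≠ 0 := sub_ne_zero.mpr (Ne.symm hne)
  set ψ : K → K := fun x => (x - x0) / a with hψ
  have hψinj : Function.Injective ψ := by
    intro x y hxy
    have : (x - x0) / a = (y - x0) / a := hxy
    rw [div_left_inj' ha0] at this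
    exact sub_left_injective this
  set S1 : Finset K := S.image ψ with hS1
  have hS1card : S1.card = S.card := card_image_of_injective _ hψinj
  set f1 : K[X] := C a⁻¹ * (f.comp (C a * X + C x0) - C x0) with hf1
  have hcomp : f.comp (C a * X + C x0) = C a * f1 + C x0 := by
    rw [hf1, ← mul_assoc, ← C_mul, mul_inv_cancel₀ ha0, C_1, one_mul]
    ring
  have heval : ∀ x, f1.eval (ψ x) = ψ (f.eval x) := by
    intro x
    rw [hf1, eval_mul, eval_C, eval_sub, eval_comp, eval_add, eval_mul, eval_C, eval_X, eval_C,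
      hψ]
    dsimp only
    have h1 : a * ((x - x0) / a) + x0 = x := by field_simp; ring
    rw [h1]
    field_simp
  have hS1f : ∀ x ∈ S1, f1.eval x ∈ S1 := by
    intro x hx
    obtain ⟨y, hy, rfl⟩ := mem_image.mp hx
    rw [heval]
    exact mem_image_of_mem _ (hS y hy)
  have h01 : (0 : K) ∈ S1 := mem_image.mpr ⟨x0, hx0, by simp [hψ]⟩
  have h11 : (1 : K) ∈ S1 := mem_image.mpr ⟨x1, hx1, by
    rw [hψ]
    dsimp only
    rw [← ha, div_self ha0]⟩
  have hdeg1 : (C a * X + C x0 : K[X]).natDegree = 1 := natDegree_linear ha0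
  have hf1d : f1.natDegree = d := by
    rw [hf1, natDegree_C_mul (inv_ne_zero ha0), natDegree_sub_C, natDegree_comp, hdeg1, mul_one,
      hfd]
  have hf1der : derivative f1 = 0 := by
    rw [hf1, derivative_mul, derivative_C, zero_mul, zero_add, derivative_sub, derivative_comp,
      hder, zero_comp, mul_zero, derivative_C, sub_zero, mul_zero]
  -- the points of `S1` are constant
  have hconst : ∀ x ∈ S1, ∃ c : k, algebraMap k K c = x := by
    by_cases hall : ∀ j : ℕ, ∀ x ∈ S1, ∃ t : K, t ^ p ^ j = x
    · intro x hx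
      exact Q.const_of_pow fun j => hall j x hx
    · push Not at hall
      set j0 := Nat.find hall with hj0
      have hspec := Nat.find_spec hall
      have hmin := fun m (hm : m < j0) => Nat.find_min hall hm
      rw [← hj0] at hspec
      have hj0pos : j0 ≠ 0 := by
        intro h0
        obtain ⟨x, _, hx⟩ := hspec
        rw [h0, pow_zero] at hx
        exact hx x (pow_one x)
      obtain ⟨j, hj⟩ := Nat.exists_eq_succ_of_ne_zero hj0pos
      have hPj : ∀ x ∈ S1, ∃ t : K, t ^ p ^ j = x := by
        have := hmin j (by omega)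
        push Not at this
        exact this
      rw [hj] at hspec
      obtain ⟨xb, hxb, hxb2⟩ := hspec
      set φ : K →+* K := iterateFrobenius K p j with hφ
      have hφ' : ∀ t, φ t = t ^ p ^ j := fun t => iterateFrobenius_def _ _ _
      have hS1φ : ∀ x ∈ S1, ∃ t, φ t = x := by
        intro x hx
        obtain ⟨t, ht⟩ := hPj x hx
        exact ⟨t, by rw [hφ', ht]⟩
      obtain ⟨g, hg⟩ := descend φ S1 hS1φ f1 (by rw [hf1d, hS1card]; omega)
        (fun x hx => hS1φ _ (hS1f x hx))
      set T : Finset K := S1.preimage φ φ.injective.injOn with hT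
      have himg : T.image φ = S1 := by
        ext x
        rw [mem_image]
        constructor
        · rintro ⟨t, ht, rfl⟩
          exact mem_preimage.mp ht
        · intro hx
          obtain ⟨t, rfl⟩ := hS1φ x hx
          exact ⟨t, mem_preimage.mpr hx, rfl⟩
      have hTcard : T.card = S1.card := by
        rw [← himg, card_image_of_injective _ φ.injective]
      have hT0 : (0 : K) ∈ T := mem_preimage.mpr (by rw [map_zero]; exact h01)
      have hT1 : (1 : K) ∈ T := mem_preimage.mpr (by rw [map_one]; exact h11)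
      have hTg : ∀ t ∈ T, g.eval t ∈ T := by
        intro t ht
        rw [mem_preimage] at ht ⊢
        have h2 : φ (g.eval t) = f1.eval (φ t) := by
          rw [← hg, eval_map, eval₂_hom]
        rw [h2]
        exact hS1f _ ht
      have hgd : g.natDegree = d := by
        rw [← hf1d, ← hg, natDegree_map_eq_of_injective φ.injective]
      have hgder : derivative g = 0 := by
        apply Polynomial.map_injective φ φ.injective
        rw [← derivative_map, hg, hf1der, Polynomial.map_zero]
      have hTD : ∃ s ∈ T, Q.D s ≠ 0 := by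
        obtain ⟨s, hs⟩ := hS1φ xb hxb
        refine ⟨s, mem_preimage.mpr (by rw [hs]; exact hxb), fun hD => ?_⟩
        obtain ⟨y, hy⟩ := Q.D_ker s hD
        apply hxb2 y
        rw [← hs, hφ', ← hy, ← pow_mul, Nat.succ_eq_add_one, pow_succ']
      have hfin := hN0 g hgd hgder T hT0 hT1 hTg (by omega) hTD
      intro x hx
      obtain ⟨t, ht⟩ := hS1φ x hx
      obtain ⟨c, hc⟩ := hfin t (mem_preimage.mpr (by rw [ht]; exact hx))
      refine ⟨c ^ p ^ j, ?_⟩
      rw [map_pow, hc, ← hφ', ht]
  obtain ⟨g, hg⟩ := descend (algebraMap k K) S1 hconst f1 (by rw [hf1d, hS1card]; omega)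
    (fun x hx => hconst _ (hS1f x hx))
  exact ⟨a, x0, g, ha0, by rw [hg, hcomp]⟩

end PD

end Pool.Agent.V7H78.UB
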