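import Mathlib
import Pool.Agent.W277.UB.Gen
import Pool.Agent.V7H78.UB.Desc

/-!
# Places of a function field of characteristic `p` over an algebraically closed field
-/

namespace Pool.Agent.V7H78.UB

open Polynomial Finset TensorProduct
open Pool.Agent.W277.UB

universe u w

/-- A derivation extends to a separable extension. -/
lemma exists_der {k F K : Type*} [Field k] [Field F] [Field K] [Algebra k F] [Algebra F K]
    [Algebra k K] [IsScalarTower k F K] [Algebra.IsSeparable F K] (δ : Derivation k F F) :
    ∃ D : Derivation k K K, ∀ x : F, D (algebraMap F K x) = algebraMap F K (δ x) := by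
  have : Algebra.FormallyEtale F K := Algebra.FormallyEtale.of_isSeparable F K
  let δ' : Derivation k F K := (Algebra.linearMap F K).compDer δ
  let l := LinearMap.liftBaseChange K δ'.liftKaehlerDifferential
  let e := KaehlerDifferential.tensorKaehlerEquivOfFormallyEtale k F K
  refine ⟨(l ∘ₗ e.symm.toLinearMap).compDer (KaehlerDifferential.D k K), fun x => ?_⟩
  have h1 : e.symm (KaehlerDifferential.D k K (algebraMap F K x)) =
      1 ⊗ₜ KaehlerDifferential.D k F x :=
    KaehlerDifferential.tensorKaehlerEquivOfFormallyEtale_symm_D_algebraMap k F K x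
  have h2 : ((l ∘ₗ e.symm.toLinearMap).compDer (KaehlerDifferential.D k K)) (algebraMap F K x) =
      l (e.symm (KaehlerDifferential.D k K (algebraMap F K x))) := rfl
  rw [h2, h1]
  simp only [l, LinearMap.liftBaseChange_tmul, one_smul, Derivation.liftKaehlerDifferential_comp_D]
  rfl

section

variable (k : Type*) [Field k] [IsAlgClosed k] {p : ℕ} [hp : Fact p.Prime] [CharP k p]

lemma ratD_ker_p (x : RatFunc k) (hx : ratD k x = 0) : ∃ z : RatFunc k, z ^ p = x := by
  have hp0 : p ≠ 0 := hp.out.ne_zero
  obtain ⟨a, b, hb, rfl⟩ := exists_mk x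
  have hb' := RatFunc.algebraMap_ne_zero hb
  rw [ratD_mk _ _ hb, div_eq_zero_iff, or_iff_left (RatFunc.algebraMap_ne_zero (pow_ne_zero 2 hb))]
    at hx
  have h1 : derivative a * b - a * derivative b = 0 :=
    (map_eq_zero_iff _ (RatFunc.algebraMap_injective k)).mp hx
  have h2 : derivative (a * b ^ (p - 1)) = 0 := by
    obtain ⟨q, hq⟩ : ∃ q, p = q + 1 := ⟨p - 1, by omega⟩
    have hcast : (C ((p - 1 : ℕ) : k) : k[X]) = -1 := by
      have h3 : ((p - 1 : ℕ) : k) = -1 := by
        rw [Nat.cast_sub hp.out.one_le, CharP.cast_eq_zero, Nat.cast_one, zero_sub]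
      rw [h3, C_neg, C_1]
    have hp2 : 2 ≤ p := hp.out.two_le
    rw [derivative_mul, derivative_pow, hcast]
    obtain ⟨r, hr⟩ : ∃ r, p - 1 = r + 1 := ⟨p - 2, by omega⟩
    rw [hr, Nat.add_sub_cancel, pow_succ]
    linear_combination b ^ r * h1
  obtain ⟨h, hh⟩ := exists_pow_eq (p := p) h2
  refine ⟨algebraMap k[X] (RatFunc k) h / algebraMap k[X] (RatFunc k) b, ?_⟩
  rw [div_pow, ← map_pow, ← hh, map_mul, map_pow]
  have h5 : algebraMap k[X] (RatFunc k) b ^ p =
      algebraMap k[X] (RatFunc k) b * algebraMap k[X] (RatFunc k) b ^ (p - 1) := by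
    rw [← pow_succ', Nat.sub_add_cancel hp.out.one_le]
  rw [h5, mul_div_mul_right]
  exact pow_ne_zero _ hb'

variable (K : Type w) [Field K] [Algebra (RatFunc k) K] [FiniteDimensional (RatFunc k) K]
  [Algebra.IsSeparable (RatFunc k) K]

/-- The kernel of an extension of `d/dt` consists of `p`-th powers. -/
lemma ker_ext (d : Derivation ℤ K K)
    (hd : ∀ x : RatFunc k, d (algebraMap (RatFunc k) K x) = algebraMap (RatFunc k) K (ratD k x))
    (x : K) (hx : d x = 0) : ∃ y : K, y ^ p = x := by
  have hp0 : p ≠ 0 := hp.out.ne_zero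
  have : CharP (RatFunc k) p := charP_of_injective_algebraMap (algebraMap k (RatFunc k)).injective p
  have : CharP K p := charP_of_injective_algebraMap (algebraMap (RatFunc k) K).injective p
  set F := RatFunc k
  set q := minpoly F x with hq
  have hint : IsIntegral F x := Algebra.IsIntegral.isIntegral x
  have hqm : q.Monic := minpoly.monic hint
  -- the derivation of the coefficients
  set qD : F[X] := ∑ n ∈ range q.natDegree, C (ratD k (q.coeff n)) * X ^ n with hqD
  have haev : ∀ (n : ℕ), d (x ^ n) = 0 := by
    intro n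
    rw [Derivation.leibniz_pow, hx, smul_zero, smul_zero]
  have h1 : aeval x qD = 0 := by
    have h2 : d (aeval x q) = 0 := by
      rw [hq, minpoly.aeval, map_zero]
    rw [aeval_eq_sum_range, map_sum, sum_range_succ] at h2
    have h3 : d (q.coeff q.natDegree • x ^ q.natDegree) = 0 := by
      rw [hqm.coeff_natDegree, one_smul, haev]
    rw [h3, add_zero] at h2
    rw [hqD, map_sum, ← h2]
    apply sum_congr rfl
    intro n _
    rw [map_mul, aeval_C, map_pow, aeval_X, Algebra.smul_def, Derivation.leibniz, haev, hd,
      smul_zero, zero_add, smul_eq_mul, mul_comm]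
  have h2 : qD = 0 := by
    by_contra hne
    have h8 := minpoly.degree_le_of_ne_zero F x hne h1
    have h9 : qD.degree < q.degree := by
      rw [degree_eq_natDegree hqm.ne_zero]
      apply (degree_sum_le _ _).trans_lt
      rw [Finset.sup_lt_iff (WithBot.bot_lt_coe _)]
      intro n hn
      apply (degree_C_mul_X_pow_le _ _).trans_lt
      exact_mod_cast mem_range.mp hn
    exact absurd h8 (not_le.mpr h9)
  have h3 : ∀ n, ∃ z : F, z ^ p = q.coeff n := by
    intro n
    apply ratD_ker_p
    rcases lt_trichotomy n q.natDegree with h | h | h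
    · have h4 : qD.coeff n = ratD k (q.coeff n) := by
        rw [hqD, finsetSum_coeff]
        simp only [coeff_C_mul, coeff_X_pow]
        rw [sum_eq_single n]
        · simp
        · intro b _ hb
          rw [if_neg (Ne.symm hb), mul_zero]
        · intro hn
          exact absurd (mem_range.mpr h) hn
      rw [← h4, h2, coeff_zero]
    · rw [h, hqm.coeff_natDegree]
      exact (ratDer k).map_one_eq_zero
    · rw [coeff_eq_zero_of_natDegree_lt h]
      exact (ratDer k).map_zero
  have h4 : q ∈ lifts (frobenius F p) := by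
    rw [lifts_iff_coeff_lifts]
    intro n
    obtain ⟨z, hz⟩ := h3 n
    exact ⟨z, hz⟩
  obtain ⟨r, hr⟩ := h4
  have hr' : r.map (frobenius F p) = q := hr
  set Ω := AlgebraicClosure K
  have : CharP Ω p := charP_of_injective_algebraMap (algebraMap K Ω).injective p
  obtain ⟨y, hy⟩ := IsAlgClosed.exists_pow_nat_eq (algebraMap K Ω x) (Nat.pos_of_ne_zero hp0)
  have hry : aeval y r = 0 := by
    have h5 : (aeval y r) ^ p = 0 := by
      have h6 : aeval (algebraMap K Ω x) q = 0 := by
        rw [aeval_algebraMap_apply, hq, minpoly.aeval, map_zero]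
      rw [← hy, ← hr'] at h6
      rw [← h6, aeval_def, aeval_def, eval₂_map]
      have h7 : (algebraMap F Ω).comp (frobenius F p) = (frobenius Ω p).comp (algebraMap F Ω) := by
        ext z
        simp [frobenius_def]
      rw [h7]
      have h8 := hom_eval₂ r (algebraMap F Ω) (frobenius Ω p) y
      rw [frobenius_def, frobenius_def] at h8
      exact h8
    exact pow_eq_zero_iff hp0 |>.mp h5
  have hrm : r.natDegree = q.natDegree := by
    rw [← hr', natDegree_map_eq_of_injective (frobenius F p).injective]
  have hr0 : r ≠ 0 := by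
    rintro rfl
    rw [Polynomial.map_zero] at hr'
    exact hqm.ne_zero hr'.symm
  have hyint : IsIntegral F y := (isAlgebraic_iff_isIntegral.mp ⟨r, hr0, hry⟩)
  have hxint : IsIntegral F (algebraMap K Ω x) := hint.algebraMap
  have hle : IntermediateField.adjoin F {algebraMap K Ω x} ≤ IntermediateField.adjoin F {y} := by
    rw [IntermediateField.adjoin_simple_le_iff, ← hy]
    exact pow_mem (IntermediateField.mem_adjoin_simple_self F y) p
  have hfin : Module.finrank F (IntermediateField.adjoin F {y}) ≤
      Module.finrank F (IntermediateField.adjoin F {algebraMap K Ω x}) := by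
    rw [IntermediateField.adjoin.finrank hyint, IntermediateField.adjoin.finrank hxint,
      minpoly.algebraMap_eq (algebraMap K Ω).injective, ← hq, ← hrm]
    exact natDegree_le_of_dvd (minpoly.dvd F y hry) hr0
  have : FiniteDimensional F (IntermediateField.adjoin F {y}) :=
    IntermediateField.adjoin.finiteDimensional hyint
  have heq := IntermediateField.eq_of_le_of_finrank_le hle hfin
  have hymem : y ∈ IntermediateField.adjoin F {algebraMap K Ω x} := by
    rw [heq]
    exact IntermediateField.mem_adjoin_simple_self F y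
  have hsub : IntermediateField.adjoin F {algebraMap K Ω x} ≤
      (IsScalarTower.toAlgHom F K Ω).fieldRange := by
    rw [IntermediateField.adjoin_simple_le_iff]
    exact ⟨x, rfl⟩
  obtain ⟨y0, hy0⟩ := hsub hymem
  refine ⟨y0, (algebraMap K Ω).injective ?_⟩
  have hy0' : algebraMap K Ω y0 = y := hy0
  rw [map_pow, hy0', hy]

end

section Gen

variable (k : Type*) (K : Type w) [Field k] [IsAlgClosed k] {p : ℕ} [hp : Fact p.Prime] [CharP k p]
  [Field K] [Algebra k K]
  [Algebra (RatFunc k) K] [IsScalarTower k (RatFunc k) K] [FiniteDimensional (RatFunc k) K]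
  [Algebra.IsSeparable (RatFunc k) K]

/-- Place data for a separable extension of the rational function field. -/
theorem exists_pd : Nonempty (PD.{w} p k K) := by
  classical
  have halg : ∀ x : K, IsAlgebraic k x → ∃ c : k, algebraMap k K c = x := by
    intro x hx
    have hint : IsIntegral k x := isAlgebraic_iff_isIntegral.mp hx
    have h1 := IsAlgClosed.degree_eq_one_of_irreducible k (minpoly.irreducible hint)
    exact minpoly.mem_range_of_degree_eq_one k x h1
  obtain ⟨D, hD⟩ := exists_der (k := k) (F := RatFunc k) (K := K) (ratDer k)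
  set d : Derivation ℤ K K := D.restrictScalars ℤ with hd
  have hdD : ∀ x, d x = D x := fun _ => rfl
  have hdr : ∀ x : RatFunc k, d (algebraMap (RatFunc k) K x) =
      algebraMap (RatFunc k) K (ratD k x) := by
    intro x
    rw [hdD, hD, ratDer_apply]
  obtain ⟨c1⟩ := exists_chartData k[X] (RatFunc k) K (fun x => x.intDegree) d (addFn_poly k)
    (pos_poly k) (by
      intro r
      refine ⟨derivative r, ?_⟩
      rw [hdr, ratD_alg])
  obtain ⟨c2⟩ := exists_chartData (InfRing k) (RatFunc k) K (fun x => -x.intDegree) d (addFn_inf k)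
    (pos_inf k) (by
      intro r
      refine ⟨⟨_, ratD_inf k r⟩, ?_⟩
      rw [hdr]
      rfl)
  have hconst : ∀ x : K, x ≠ 0 → (∀ v, 0 ≤ c1.ord v x) → (∀ v, 0 ≤ c2.ord v x) →
      ∃ c : k, algebraMap k K c = x := by
    intro x hx h1 h2
    apply halg
    apply alg_of_coeff k K x (Algebra.IsIntegral.isIntegral x)
    intro n
    apply const_of_both k
    · exact c1.integral x hx h1 n
    · obtain ⟨r, hr⟩ := c2.integral x hx h2 n
      rw [← hr]
      exact r.2
  let ord : c1.Pl ⊕ c2.Pl → K → ℤ := Sum.elim c1.ord c2.ord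
  let wt : c1.Pl ⊕ c2.Pl → ℤ := Sum.elim c1.wt c2.wt
  let dl : c1.Pl ⊕ c2.Pl → ℤ := Sum.elim c1.dl c2.dl
  exact ⟨{
    Pl := c1.Pl ⊕ c2.Pl
    ord := ord
    wt := wt
    wt_one := by
      rintro (v | v)
      · exact c1.wt_one v
      · exact c2.wt_one v
    ord_mul := by
      rintro (v | v) x y hx hy
      · exact c1.ord_mul v x y hx hy
      · exact c2.ord_mul v x y hx hy
    ord_add := by
      rintro (v | v) x y m hx hy hxy h1 h2
      · exact c1.ord_add v x y m hx hy hxy h1 h2
      · exact c2.ord_add v x y m hx hy hxy h1 h2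
    fin := by
      intro x hx
      have h1 : {v | ord v x ≠ 0} ⊆
          Sum.inl '' {v | c1.ord v x ≠ 0} ∪ Sum.inr '' {v | c2.ord v x ≠ 0} := by
        rintro (v | v) hv
        · left
          exact ⟨v, hv, rfl⟩
        · right
          exact ⟨v, hv, rfl⟩
      exact (((c1.fin x hx).image _).union ((c2.fin x hx).image _)).subset h1
    prod := by
      intro x hx S hS
      set T1 := S.toLeft with hT1
      set T2 := S.toRight with hT2
      have h1 := c1.sum x hx T1 (by
        intro v hv
        refine hS (Sum.inl v) fun h => hv ?_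
        rw [hT1]
        exact Finset.mem_toLeft.mpr h)
      have h2 := c2.sum x hx T2 (by
        intro v hv
        refine hS (Sum.inr v) fun h => hv ?_
        rw [hT2]
        exact Finset.mem_toRight.mpr h)
      have h3 : ∑ v ∈ T1.disjSum T2, wt v * ord v x = 0 := by
        rw [Finset.sum_disjSum]
        have h4 : ∑ v ∈ T1, wt (Sum.inl v) * ord (Sum.inl v) x = ∑ v ∈ T1, c1.wt v * c1.ord v x :=
          rfl
        have h5 : ∑ v ∈ T2, wt (Sum.inr v) * ord (Sum.inr v) x = ∑ v ∈ T2, c2.wt v * c2.ord v x :=
          rfl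
        rw [h4, h5, h1, h2]
        ring
      rw [hT1, hT2, Finset.toLeft_disjSum_toRight] at h3
      exact h3
    const := by
      intro x hx h
      exact hconst x hx (fun v => h (Sum.inl v)) (fun v => h (Sum.inr v))
    D := d
    D_ker := ker_ext k K d hdr
    dl := dl
    dl_nonneg := by
      rintro (v | v)
      · exact c1.dl_nonneg v
      · exact c2.dl_nonneg v
    dl_fin := by
      have h1 : {v | dl v ≠ 0} ⊆ Sum.inl '' {v | c1.dl v ≠ 0} ∪ Sum.inr '' {v | c2.dl v ≠ 0} := by
        rintro (v | v) hv
        · left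
          exact ⟨v, hv, rfl⟩
        · right
          exact ⟨v, hv, rfl⟩
      exact ((c1.dl_fin.image _).union (c2.dl_fin.image _)).subset h1
    deriv := by
      rintro (v | v) x hx h1
      · exact c1.deriv v x hx h1
      · exact c2.deriv v x hx h1 }⟩

end Gen

end Pool.Agent.V7H78.UB
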