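import Mathlib
import Pool.Agent.V7H78.UB.PlaceEx

/-!
# General function fields of characteristic `p`
-/

namespace Pool.Agent.V7H78.UB

open Polynomial IntermediateField

universe u

/-- A separating transcendental element. -/
lemma exists_sep (E K : Type u) [Field E] [IsAlgClosed E] [Field K] [Algebra E K]
    (hFG : (⊤ : IntermediateField E K).FG) (x : K) (hx : Transcendental E x)
    (hxa : Algebra.IsAlgebraic (IntermediateField.adjoin E {x}) K) :
    ∃ t : K, Transcendental E t ∧ Algebra.IsSeparable (IntermediateField.adjoin E {t}) K := by
  have : Algebra.EssFiniteType E K := fg_top_iff.mp hFG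
  obtain ⟨s, hs, hsep⟩ := exists_isTranscendenceBasis_and_isSeparable_of_perfectField
    (k := E) (K := K)
  have hind : AlgebraicIndependent E (fun _ : PUnit.{u + 1} => x) := by
    rw [algebraicIndependent_unique_type_iff]
    exact hx
  have hb : IsTranscendenceBasis E (fun _ : PUnit.{u + 1} => x) := by
    rw [hind.isTranscendenceBasis_iff_isAlgebraic, Set.range_const, ← isAlgebraic_adjoin_iff_top]
    exact hxa
  have hcard := hs.cardinalMk_eq hb
  have h1 : s.card = 1 := by simpa using hcard
  obtain ⟨t, rfl⟩ := Finset.card_eq_one.mp h1
  rw [Finset.coe_singleton] at hsep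
  refine ⟨t, ?_, hsep⟩
  exact hs.1.transcendental ⟨t, by simp⟩

variable {p : ℕ} [hp : Fact p.Prime]

/-- Place data over an algebraically closed field. -/
theorem exists_pd_alg (E K : Type u) [Field E] [IsAlgClosed E] [CharP E p] [Field K] [Algebra E K]
    (hFG : (⊤ : IntermediateField E K).FG) (x : K) (hx : Transcendental E x)
    (hxa : Algebra.IsAlgebraic (IntermediateField.adjoin E {x}) K) :
    Nonempty (PD.{u} p E K) := by
  classical
  obtain ⟨t, hxt, hsep⟩ := exists_sep E K hFG x hx hxa
  have hinj : Function.Injective (aeval t : E[X] →ₐ[E] K) := by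
    rw [← transcendental_iff_injective]
    exact hxt
  let φ : RatFunc E →+* K := IsFractionRing.lift (g := (aeval t : E[X] →ₐ[E] K).toRingHom) hinj
  have hφ : ∀ p : E[X], φ (algebraMap E[X] (RatFunc E) p) = aeval t p := fun p =>
    IsFractionRing.lift_algebraMap _ p
  let _ : Algebra (RatFunc E) K := φ.toAlgebra
  have hφ' : ∀ y, algebraMap (RatFunc E) K y = φ y := fun _ => rfl
  have : IsScalarTower E (RatFunc E) K := by
    apply IsScalarTower.of_algebraMap_eq
    intro c
    rw [hφ']
    have h1 : algebraMap E (RatFunc E) c = algebraMap E[X] (RatFunc E) (C c) := by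
      rw [RatFunc.algebraMap_C]
      rfl
    rw [h1, hφ, aeval_C]
  -- the range contains `E(t)`
  have hrange : ∀ y ∈ IntermediateField.adjoin E {t}, ∃ r : RatFunc E, φ r = y := by
    have h1 : IntermediateField.adjoin E {t} ≤
        ({ carrier := Set.range φ
           mul_mem' := by
            rintro _ _ ⟨a, rfl⟩ ⟨b, rfl⟩
            exact ⟨a * b, map_mul _ _ _⟩
           add_mem' := by
            rintro _ _ ⟨a, rfl⟩ ⟨b, rfl⟩
            exact ⟨a + b, map_add _ _ _⟩
           algebraMap_mem' := by
            intro c
            refine ⟨algebraMap E[X] (RatFunc E) (C c), ?_⟩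
            rw [hφ, aeval_C]
           inv_mem' := by
            rintro _ ⟨a, rfl⟩
            exact ⟨a⁻¹, map_inv₀ _ _⟩ } : IntermediateField E K) := by
      rw [IntermediateField.adjoin_le_iff]
      rintro y hy
      rw [Set.mem_singleton_iff] at hy
      subst hy
      exact ⟨algebraMap E[X] (RatFunc E) X, by rw [hφ, aeval_X]⟩
    intro y hy
    exact h1 hy
  have hsepz : ∀ z : K, IsSeparable (RatFunc E) z := by
    intro z
    have hz := hsep.isSeparable' z
    set P := minpoly (IntermediateField.adjoin E {t}) z with hP
    have hPz : aeval z P = 0 := minpoly.aeval _ _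
    have hPs : P.Separable := hz
    have h1 : P.map (algebraMap (IntermediateField.adjoin E {t}) K) ∈
        lifts (algebraMap (RatFunc E) K) := by
      rw [lifts_iff_coeff_lifts]
      intro n
      rw [coeff_map]
      obtain ⟨r, hr⟩ := hrange _ (P.coeff n).2
      exact ⟨r, hr⟩
    obtain ⟨q, hq⟩ := h1
    have hq' : q.map (algebraMap (RatFunc E) K) =
      P.map (algebraMap (IntermediateField.adjoin E {t}) K) := hq
    have hqs : q.Separable := by
      rw [← separable_map (algebraMap (RatFunc E) K), hq', separable_map]
      exact hPs
    apply hqs.of_dvd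
    apply minpoly.dvd
    rw [← eval_map_algebraMap, hq', eval_map_algebraMap]
    exact hPz
  have : Algebra.IsSeparable (RatFunc E) K := ⟨hsepz⟩
  have : FiniteDimensional (RatFunc E) K := by
    obtain ⟨T, hT⟩ := hFG
    have h1 : IntermediateField.adjoin (RatFunc E) (T : Set K) = ⊤ := by
      rw [eq_top_iff]
      intro z _
      have h2 : z ∈ IntermediateField.adjoin E (T : Set K) := by
        rw [hT]
        trivial
      have h3 : IntermediateField.adjoin E (T : Set K) ≤
          ({ (IntermediateField.adjoin (RatFunc E) (T : Set K)).toSubfield with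
              algebraMap_mem' := by
                intro c
                have h4 : algebraMap E K c = algebraMap (RatFunc E) K
                    (algebraMap E[X] (RatFunc E) (C c)) := by
                  rw [hφ', hφ, aeval_C]
                rw [h4]
                exact (IntermediateField.adjoin (RatFunc E) (T : Set K)).algebraMap_mem _ } :
            IntermediateField E K) := by
        rw [IntermediateField.adjoin_le_iff]
        intro y hy
        exact IntermediateField.subset_adjoin (RatFunc E) (T : Set K) hy
      exact h3 h2
    have h2 : FiniteDimensional (RatFunc E) (IntermediateField.adjoin (RatFunc E) (T : Set K)) :=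
      IntermediateField.finiteDimensional_adjoin fun z _ => (hsepz z).isIntegral
    rw [h1] at h2
    exact Module.Finite.equiv (IntermediateField.topEquiv (F := RatFunc E) (E := K)).toLinearEquiv
  exact exists_pd E K

end Pool.Agent.V7H78.UB
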