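import Mathlib
import Pool.Agent.V7H78.UB.Field

/-!
# Uniform boundedness for inseparable polynomials
-/

namespace Pool.Agent.V7H78.UB

open Polynomial IntermediateField

universe u

section Main

variable {p : ℕ} [hp : Fact p.Prime]

/-- A function field embeds into a function field over an algebraically closed field. -/
lemma exists_big (k K : Type u) [Field k] [CharP k p] [Field K] [Algebra k K]
    (hFG : (⊤ : IntermediateField k K).FG)
    (hx : ∃ x : K, Transcendental k x ∧ Algebra.IsAlgebraic (IntermediateField.adjoin k {x}) K) :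
    ∃ (E K' : Type u) (_ : Field E) (_ : Field K') (_ : Algebra E K') (_ : CharP K' p)
      (κ : K' →+* AlgebraicClosure K),
      (∀ x, ∃ y, κ y = algebraMap K (AlgebraicClosure K) x) ∧
      (∀ c, IsAlgebraic k c → ∃ y, κ y = c) ∧
      (∀ c : E, IsAlgebraic k (κ (algebraMap E K' c))) ∧ Nonempty (PD.{u} p E K') := by
  classical
  obtain ⟨x, hxt, hxa⟩ := hx
  set Ω := AlgebraicClosure K
  set E := algebraicClosure k Ω with hE
  have : IsAlgClosed E := (IsAlgClosure.isAlgClosed k : IsAlgClosed (algebraicClosure k Ω))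
  have : CharP E p := charP_of_injective_algebraMap (algebraMap k E).injective p
  obtain ⟨T, hT⟩ := hFG
  set T' : Finset Ω := T.image (algebraMap K Ω) with hT'
  set K' := IntermediateField.adjoin E (T' : Set Ω) with hK'
  have : CharP K' p := charP_of_injective_algebraMap (algebraMap E K').injective p
  have hmem : ∀ y : K, algebraMap K Ω y ∈ K' := by
    intro y
    have h1 : y ∈ IntermediateField.adjoin k (T : Set K) := by
      rw [hT]
      trivial
    have h2 : algebraMap K Ω y ∈ IntermediateField.adjoin k (T' : Set Ω) := by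
      have h3 := IntermediateField.adjoin_map k (T : Set K) (IsScalarTower.toAlgHom k K Ω)
      have h4 : (IsScalarTower.toAlgHom k K Ω) '' (T : Set K) = (T' : Set Ω) := by
        rw [hT', Finset.coe_image]
        rfl
      rw [h4] at h3
      rw [← h3]
      exact ⟨y, h1, rfl⟩
    have h5 : IntermediateField.adjoin k (T' : Set Ω) ≤ K'.restrictScalars k := by
      rw [IntermediateField.adjoin_le_iff]
      exact IntermediateField.subset_adjoin E (T' : Set Ω)
    exact h5 h2
  let ι : K →+* K' := (algebraMap K Ω).codRestrict K'.toSubfield.toSubring hmem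
  have hι : ∀ y, (algebraMap K' Ω) (ι y) = algebraMap K Ω y := fun _ => rfl
  set x' : K' := ι x with hx'
  have hx't : Transcendental E x' := by
    have h1 : Transcendental k (algebraMap K Ω x) :=
      (transcendental_algebraMap_iff (algebraMap K Ω).injective).mpr hxt
    have h2 : Transcendental E (algebraMap K Ω x) := h1.algebraicClosure
    intro h
    apply h2
    have h3 : IsAlgebraic E (algebraMap K' Ω x') := h.algebraMap
    exact h3
  have hrange : ∀ y ∈ IntermediateField.adjoin k {x}, ι y ∈ IntermediateField.adjoin E {x'} := by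
    have h1 : IntermediateField.adjoin k {x} ≤
        ({ (IntermediateField.adjoin E {x'}).toSubfield.comap ι with
           algebraMap_mem' := by
            intro c
            have h2 : ι (algebraMap k K c) = algebraMap E K' (algebraMap k E c) := by
              apply (algebraMap K' Ω).injective
              rw [hι]
              rfl
            have h3 : ι (algebraMap k K c) ∈ IntermediateField.adjoin E {x'} := by
              rw [h2]
              exact (IntermediateField.adjoin E {x'}).algebraMap_mem _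
            exact h3 } : IntermediateField k K) := by
      rw [IntermediateField.adjoin_le_iff]
      rintro y hy
      rw [Set.mem_singleton_iff] at hy
      subst hy
      exact IntermediateField.mem_adjoin_simple_self E x'
    intro y hy
    exact h1 hy
  have hΩalg : Algebra.IsAlgebraic (IntermediateField.adjoin k {x}) Ω :=
    Algebra.IsAlgebraic.trans (IntermediateField.adjoin k {x}) K Ω
  have hxa' : Algebra.IsAlgebraic (IntermediateField.adjoin E {x'}) K' := by
    constructor
    intro z
    obtain ⟨P, hP0, hPz⟩ := hΩalg.isAlgebraic (z : Ω)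
    set ψ : IntermediateField.adjoin k {x} →+* K' :=
      ι.comp (algebraMap (IntermediateField.adjoin k {x}) K) with hψ
    have h1 : P.map ψ ∈ lifts (algebraMap (IntermediateField.adjoin E {x'}) K') := by
      rw [lifts_iff_coeff_lifts]
      intro n
      rw [coeff_map]
      exact ⟨⟨_, hrange _ (P.coeff n).2⟩, rfl⟩
    obtain ⟨q, hq⟩ := h1
    have hq' : q.map (algebraMap (IntermediateField.adjoin E {x'}) K') = P.map ψ := hq
    refine ⟨q, ?_, ?_⟩
    · rintro rfl
      rw [Polynomial.map_zero] at hq'
      exact hP0 ((Polynomial.map_eq_zero _).mp hq'.symm)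
    · rw [← eval_map_algebraMap, hq']
      apply (algebraMap K' Ω).injective
      rw [map_zero, eval_map, hom_eval₂]
      exact hPz
  have hFG' : (⊤ : IntermediateField E K').FG := by
    rw [fg_top_iff, essFiniteType_iff]
    exact ⟨T', rfl⟩
  obtain ⟨Q⟩ := exists_pd_alg (p := p) E K' hFG' x' hx't hxa'
  refine ⟨E, K', inferInstance, inferInstance, inferInstance, inferInstance,
    algebraMap K' Ω, fun y => ⟨ι y, hι y⟩, ?_, ?_, ⟨Q⟩⟩
  · intro c hc
    have h1 : c ∈ E := mem_algebraicClosure_iff.mpr hc
    exact ⟨algebraMap E K' ⟨c, h1⟩, rfl⟩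
  · intro c
    have h1 : algebraMap K' Ω (algebraMap E K' c) = (c : Ω) := rfl
    rw [h1]
    exact mem_algebraicClosure_iff.mp c.2

/-- The point `x` is preperiodic for the polynomial `f`. -/
def IsPrePer {M : Type*} [Field M] (f : M[X]) (x : M) : Prop :=
  ∃ m n : ℕ, m < n ∧ (fun z => f.eval z)^[m] x = (fun z => f.eval z)^[n] x

/-- A finite set of preperiodic points is contained in a finite invariant set. -/
lemma exists_stable {M : Type*} [Field M] (f : M[X]) (S0 : Finset M)
    (h : ∀ x ∈ S0, IsPrePer f x) : ∃ S : Finset M, S0 ⊆ S ∧ (∀ x ∈ S, f.eval x ∈ S) ∧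
      ∀ y ∈ S, ∃ x ∈ S0, ∃ i : ℕ, (fun z => f.eval z)^[i] x = y := by
  classical
  have h1 : ∀ x : M, ∃ n : ℕ, x ∈ S0 → 0 < n ∧ ∃ m < n,
      (fun z => f.eval z)^[m] x = (fun z => f.eval z)^[n] x := by
    intro x
    by_cases hx : x ∈ S0
    · obtain ⟨m, n, hmn, he⟩ := h x hx
      exact ⟨n, fun _ => ⟨by omega, m, hmn, he⟩⟩
    · exact ⟨0, fun h => absurd h hx⟩
  choose n hn using h1
  refine ⟨S0.biUnion fun x => (Finset.range (n x)).image fun i => (fun z => f.eval z)^[i] x,
    ?_, ?_, ?_⟩
  · intro x hx
    rw [Finset.mem_biUnion]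
    exact ⟨x, hx, Finset.mem_image.mpr ⟨0, Finset.mem_range.mpr (hn x hx).1, rfl⟩⟩
  · intro y hy
    obtain ⟨x, hx, hy⟩ := Finset.mem_biUnion.mp hy
    obtain ⟨i, hi, rfl⟩ := Finset.mem_image.mp hy
    rw [Finset.mem_range] at hi
    rw [Finset.mem_biUnion]
    refine ⟨x, hx, ?_⟩
    have he : f.eval ((fun z => f.eval z)^[i] x) = (fun z => f.eval z)^[i + 1] x := by
      rw [Function.iterate_succ_apply']
    rw [he]
    by_cases hi' : i + 1 < n x
    · exact Finset.mem_image.mpr ⟨i + 1, Finset.mem_range.mpr hi', rfl⟩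
    · obtain ⟨_, m, hm, he2⟩ := hn x hx
      have h3 : i + 1 = n x := by omega
      rw [h3, ← he2]
      exact Finset.mem_image.mpr ⟨m, Finset.mem_range.mpr hm, rfl⟩
  · intro y hy
    obtain ⟨x, hx, hy⟩ := Finset.mem_biUnion.mp hy
    obtain ⟨i, _, rfl⟩ := Finset.mem_image.mp hy
    exact ⟨x, hx, i, rfl⟩

/-- The polynomial `f` is affinely conjugate to a polynomial with coefficients algebraic
over `k`. -/
def Isotriv (k : Type*) {M : Type*} [Field k] [Field M] [Algebra k M] (f : M[X]) : Prop :=
  ∃ (a b : M) (g : M[X]), a ≠ 0 ∧ (∀ n, IsAlgebraic k (g.coeff n)) ∧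
    f.comp (C a * X + C b) = C a * g + C b

/-- Uniform boundedness over the perfect closure of the compositum of `K` and the algebraic closure
of `k`, for inseparable polynomials. -/
theorem ubp (k K : Type u) [Field k] [CharP k p] [Field K] [Algebra k K]
    (hFG : (⊤ : IntermediateField k K).FG)
    (hx : ∃ x : K, Transcendental k x ∧ Algebra.IsAlgebraic (IntermediateField.adjoin k {x}) K)
    (d : ℕ) (hd : 2 ≤ d) : ∃ B : ℕ, ∀ f : (AlgebraicClosure K)[X], f.natDegree = d →
      derivative f = 0 →
      (∀ n, f.coeff n ∈ perfectClosure (IntermediateField.adjoin K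
        {c : AlgebraicClosure K | IsAlgebraic k c}) (AlgebraicClosure K)) →
      ¬ Isotriv k f →
      {x : AlgebraicClosure K | x ∈ perfectClosure (IntermediateField.adjoin K
        {c : AlgebraicClosure K | IsAlgebraic k c}) (AlgebraicClosure K) ∧
        IsPrePer f x}.encard ≤ B := by
  classical
  obtain ⟨E, K', _, _, _, _, κ, hκK, hκE, hκalg, ⟨Q⟩⟩ := exists_big (p := p) k K hFG hx
  obtain ⟨N, hN⟩ := Q.affine (d := d) hd
  set Ω := AlgebraicClosure K with hΩ
  have : CharP K p := charP_of_injective_algebraMap (algebraMap k K).injective p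
  have : CharP Ω p := charP_of_injective_algebraMap (algebraMap K Ω).injective p
  set M : IntermediateField K Ω := IntermediateField.adjoin K {c : Ω | IsAlgebraic k c} with hM
  have : ExpChar M p := by
    have : CharP M p := charP_of_injective_algebraMap (algebraMap K M).injective p
    exact ExpChar.prime (Fact.out : p.Prime)
  have hMκ : ∀ z ∈ M, ∃ y, κ y = z := by
    have h1 : M ≤ ({ κ.fieldRange with
        algebraMap_mem' := by
          intro c
          exact hκK c } : IntermediateField K Ω) := by
      rw [hM, IntermediateField.adjoin_le_iff]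
      intro c hc
      exact hκE c hc
    intro z hz
    exact h1 hz
  refine ⟨N, fun f hfd hfder hfc hiso => ?_⟩
  by_contra hcon
  push Not at hcon
  have h1 : ((N + 1 : ℕ) : ℕ∞) ≤ {x : Ω | x ∈ perfectClosure M Ω ∧ IsPrePer f x}.encard := by
    have := Order.add_one_le_of_lt hcon
    exact_mod_cast this
  obtain ⟨S0', hS0', hcard⟩ := Set.exists_subset_encard_eq h1
  have hfin : S0'.Finite := Set.finite_of_encard_eq_coe hcard
  set S0 : Finset Ω := hfin.toFinset with hS0
  have hS0card : S0.card = N + 1 := by
    have h2 := hfin.encard_eq_coe_toFinset_card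
    rw [hcard] at h2
    exact_mod_cast h2.symm
  have hS0mem : ∀ x ∈ S0, x ∈ perfectClosure M Ω ∧ IsPrePer f x := by
    intro x hx
    exact hS0' (hfin.mem_toFinset.mp hx)
  obtain ⟨S, hS0S, hSf, hSS0⟩ := exists_stable f S0 fun x hx => (hS0mem x hx).2
  have heval : ∀ x ∈ perfectClosure M Ω, f.eval x ∈ perfectClosure M Ω := by
    intro x hx
    rw [eval_eq_sum_range]
    exact sum_mem fun i _ => mul_mem (hfc i) (pow_mem hx i)
  have hSP : ∀ x ∈ S, x ∈ perfectClosure M Ω := by
    intro y hy
    obtain ⟨x, hx, i, rfl⟩ := hSS0 y hy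
    have hx' := (hS0mem x hx).1
    clear hy
    induction i with
    | zero => exact hx'
    | succ i ih =>
      rw [Function.iterate_succ_apply']
      exact heval _ ih
  -- a common exponent
  have hexp : ∀ x ∈ perfectClosure M Ω, ∃ n : ℕ, ∀ m, n ≤ m → ∃ y, κ y = x ^ p ^ m := by
    intro x hx
    obtain ⟨n, hn⟩ := (mem_perfectClosure_iff_pow_mem p).mp hx
    refine ⟨n, fun m hm => ?_⟩
    obtain ⟨y0, hy0⟩ := hn
    apply hMκ
    obtain ⟨j, rfl⟩ := Nat.exists_eq_add_of_le hm
    rw [pow_add, pow_mul, ← hy0]
    exact pow_mem y0.2 _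
  have hexp' : ∀ x : Ω, ∃ n : ℕ, x ∈ perfectClosure M Ω → ∀ m, n ≤ m → ∃ y, κ y = x ^ p ^ m := by
    intro x
    by_cases hx : x ∈ perfectClosure M Ω
    · obtain ⟨n, hn⟩ := hexp x hx
      exact ⟨n, fun _ => hn⟩
    · exact ⟨0, fun h => absurd h hx⟩
  choose e he using hexp'
  set j : ℕ := S.sup e + (Finset.range (d + 1)).sup fun i => e (f.coeff i) with hj
  have hjS : ∀ x ∈ S, ∃ y, κ y = x ^ p ^ j := by
    intro x hx
    exact he x (hSP x hx) j ((Finset.le_sup hx).trans (Nat.le_add_right _ _))
  set φ : Ω →+* Ω := iterateFrobenius Ω p j with hφ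
  have hφ' : ∀ x, φ x = x ^ p ^ j := fun x => iterateFrobenius_def _ _ _
  have hlift : f.map φ ∈ lifts κ := by
    rw [lifts_iff_coeff_lifts]
    intro i
    rw [coeff_map, hφ']
    by_cases hi : i ≤ d
    · obtain ⟨y, hy⟩ := he (f.coeff i) (hfc i) j ((Finset.le_sup
        (f := fun i => e (f.coeff i)) (Finset.mem_range.mpr (Nat.lt_succ_of_le hi))).trans
          (Nat.le_add_left _ _))
      exact ⟨y, hy⟩
    · rw [coeff_eq_zero_of_natDegree_lt (by omega), zero_pow (pow_ne_zero _ hp.out.ne_zero)]
      exact ⟨0, map_zero _⟩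
  obtain ⟨F, hF⟩ := hlift
  have hF' : F.map κ = f.map φ := hF
  have hFd : F.natDegree = d := by
    rw [← natDegree_map_eq_of_injective κ.injective F, hF',
      natDegree_map_eq_of_injective φ.injective, hfd]
  have hFder : derivative F = 0 := by
    apply Polynomial.map_injective κ κ.injective
    rw [← derivative_map, hF', derivative_map, hfder, Polynomial.map_zero, Polynomial.map_zero]
  -- the invariant set
  set S1 : Finset Ω := S.image φ with hS1
  have hS1card : S1.card = S.card := Finset.card_image_of_injective _ φ.injective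
  set S2 : Finset K' := S1.preimage κ κ.injective.injOn with hS2
  have himg : S2.image κ = S1 := by
    ext x
    rw [Finset.mem_image]
    constructor
    · rintro ⟨t, ht, rfl⟩
      exact Finset.mem_preimage.mp ht
    · intro hx
      obtain ⟨y, hy, rfl⟩ := Finset.mem_image.mp hx
      obtain ⟨t, ht⟩ := hjS y hy
      rw [← hφ'] at ht
      exact ⟨t, Finset.mem_preimage.mpr (by rw [ht]; exact hx), ht⟩
  have hS2card : S2.card = S.card := by
    rw [← hS1card, ← himg, Finset.card_image_of_injective _ κ.injective]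
  have hS2f : ∀ x ∈ S2, F.eval x ∈ S2 := by
    intro x hx
    rw [Finset.mem_preimage] at hx ⊢
    obtain ⟨y, hy, hyx⟩ := Finset.mem_image.mp hx
    have h2 : κ (F.eval x) = φ (f.eval y) := by
      have h3 : κ (F.eval x) = (F.map κ).eval (κ x) := by rw [eval_map, eval₂_hom]
      rw [h3, hF', ← hyx, eval_map, eval₂_hom]
    rw [h2]
    exact Finset.mem_image_of_mem _ (hSf y hy)
  have hcard2 : N ≤ S2.card := by
    rw [hS2card]
    have := Finset.card_le_card hS0S
    omega
  obtain ⟨a, b, g, ha, hg⟩ := hN F hFd hFder S2 hS2f hcard2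
  -- roots
  have hroot : ∀ y : Ω, ∃ z, φ z = y := by
    intro y
    obtain ⟨z, hz⟩ := IsAlgClosed.exists_pow_nat_eq y (pow_pos hp.out.pos j)
    exact ⟨z, by rw [hφ', hz]⟩
  obtain ⟨a', ha'⟩ := hroot (κ a)
  obtain ⟨b', hb'⟩ := hroot (κ b)
  obtain ⟨g', hg'⟩ := Polynomial.map_surjective φ hroot (((g.map (algebraMap E K')).map κ))
  apply hiso
  refine ⟨a', b', g', ?_, ?_, ?_⟩
  · rintro rfl
    rw [map_zero] at ha'
    exact ha ((map_eq_zero κ).mp ha'.symm)
  · intro n
    have h2 : φ (g'.coeff n) = κ (algebraMap E K' (g.coeff n)) := by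
      rw [← coeff_map, hg', coeff_map, coeff_map]
    rw [hφ'] at h2
    have h3 := hκalg (g.coeff n)
    rw [← h2] at h3
    exact IsAlgebraic.of_pow (pow_pos hp.out.pos j) h3
  · apply Polynomial.map_injective φ φ.injective
    rw [Polynomial.map_comp, Polynomial.map_add, Polynomial.map_mul, map_C, map_X, map_C,
      Polynomial.map_add, Polynomial.map_mul, map_C, map_C, ha', hb', hg', ← hF']
    have h2 := congrArg (Polynomial.map κ) hg
    rw [Polynomial.map_comp, Polynomial.map_add, Polynomial.map_mul, map_C, map_X, map_C,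
      Polynomial.map_add, Polynomial.map_mul, map_C, map_C] at h2
    exact h2

end Main

end Pool.Agent.V7H78.UB
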