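import Mathlib
import Pool.Agent.V7H78.UB.Fin

/-!
# Unicritical polynomials
-/

namespace Pool.Agent.V7H78.UB

open Polynomial

/-- The polynomial `X ^ d + c` is not isotrivial. -/
lemma uni_not_isotriv {k M : Type*} [Field k] [Field M] [Algebra k M] {p : ℕ} [hp : Fact p.Prime]
    [CharP M p] {d : ℕ} (hd : 2 ≤ d) (hdp : ∀ e, d ≠ p ^ e) {c : M} (hc : ¬ IsAlgebraic k c) :
    ¬ Isotriv k (X ^ d + C c : M[X]) := by
  rintro ⟨a, b, g, ha, hg, h⟩
  apply hc
  obtain ⟨e, m, hm, rfl⟩ := Nat.exists_eq_pow_mul_and_not_dvd (n := d) (by omega) p hp.out.ne_one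
  set q := p ^ e with hq
  have hq0 : 0 < q := pow_pos hp.out.pos e
  have hm2 : 2 ≤ m := by
    rcases Nat.lt_or_ge m 2 with h1 | h1
    · exfalso
      interval_cases m
      · exact hm (dvd_zero p)
      · exact hdp e (mul_one _)
    · exact h1
  have hmM : (m : M) ≠ 0 := by
    intro h0
    exact hm ((CharP.cast_eq_zero_iff M p m).mp h0)
  have hL : (X ^ (q * m) + C c : M[X]).comp (C a * X + C b) =
      (C (a ^ q) * X ^ q + C (b ^ q)) ^ m + C c := by
    rw [add_comp, pow_comp, X_comp, C_comp, pow_mul, hq, add_pow_char_pow, mul_pow, C_pow, C_pow]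
  rw [hL] at h
  -- coefficients of the power
  have hcoef : ∀ i, ((C (a ^ q) * X ^ q + C (b ^ q)) ^ m : M[X]).coeff (q * i) =
      (a ^ q) ^ i * (b ^ q) ^ (m - i) * (m.choose i : M) := by
    intro i
    have h1 : ((C (a ^ q) * X ^ q + C (b ^ q)) ^ m : M[X]) =
        expand M q ((C (a ^ q) * X + C (b ^ q)) ^ m) := by
      simp only [map_pow, map_add, map_mul, expand_C, expand_X]
    rw [h1, coeff_expand_mul' hq0, add_pow, finsetSum_coeff]
    have h2 : ∀ j ∈ Finset.range (m + 1), (((C (a ^ q) * X) ^ j * C (b ^ q) ^ (m - j) *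
        (m.choose j : M[X])).coeff i) = if j = i then
          (a ^ q) ^ i * (b ^ q) ^ (m - i) * (m.choose i : M) else 0 := by
      intro j _
      have h3 : ((C (a ^ q) * X) ^ j * C (b ^ q) ^ (m - j) * (m.choose j : M[X])) =
          C ((a ^ q) ^ j * (b ^ q) ^ (m - j) * (m.choose j : M)) * X ^ j := by
        rw [mul_pow, ← C_pow, ← C_pow, ← C_eq_natCast, C_mul, C_mul]
        ring
      rw [h3, coeff_C_mul, coeff_X_pow]
      by_cases hji : j = i
      · subst hji
        simp
      · rw [if_neg (Ne.symm hji), if_neg hji, mul_zero]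
    rw [Finset.sum_congr rfl h2, Finset.sum_ite_eq']
    split_ifs with h4
    · rfl
    · rw [Finset.mem_range, not_lt] at h4
      rw [Nat.choose_eq_zero_of_lt (by omega), Nat.cast_zero, mul_zero]
  have hco : ∀ i, 0 < i → (a ^ q) ^ i * (b ^ q) ^ (m - i) * (m.choose i : M) =
      a * g.coeff (q * i) := by
    intro i hi
    have h1 := congrArg (fun P : M[X] => P.coeff (q * i)) h
    have h2 : q * i ≠ 0 := (Nat.mul_pos hq0 hi).ne'
    simp only [coeff_add, coeff_C_mul, coeff_C_of_ne_zero h2, add_zero] at h1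
    rw [hcoef] at h1
    exact h1
  have hnat : ∀ n : ℕ, IsAlgebraic k (n : M) := fun n => isAlgebraic_natCast n
  -- `a` is algebraic
  have haalg : IsAlgebraic k a := by
    have h1 := hco m (by omega)
    rw [Nat.sub_self, pow_zero, mul_one, Nat.choose_self, Nat.cast_one, mul_one, ← pow_mul] at h1
    have h2 : a ^ (q * m - 1) = g.coeff (q * m) := by
      have h3 : a * a ^ (q * m - 1) = a * g.coeff (q * m) := by
        rw [← h1, ← pow_succ', Nat.sub_add_cancel (by omega)]
      exact mul_left_cancel₀ ha h3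
    apply IsAlgebraic.of_pow (n := q * m - 1) (by omega)
    rw [h2]
    exact hg _
  have hbalg : IsAlgebraic k b := by
    have h1 := hco (m - 1) (by omega)
    have h3 : m - (m - 1) = 1 := by omega
    have h4 : m.choose (m - 1) = m := by
      rw [Nat.choose_symm_of_eq_add (show m = (m - 1) + 1 by omega), Nat.choose_one_right]
    rw [h3, pow_one, h4] at h1
    have ha' : (a ^ q) ^ (m - 1) ≠ 0 := pow_ne_zero _ (pow_ne_zero _ ha)
    have h2 : b ^ q = a * g.coeff (q * (m - 1)) * ((a ^ q) ^ (m - 1))⁻¹ * (m : M)⁻¹ := by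
      field_simp
      linear_combination h1
    apply IsAlgebraic.of_pow hq0
    rw [h2]
    exact ((haalg.mul (hg _)).mul ((haalg.pow q).pow (m - 1)).inv).mul (hnat m).inv
  have h1 := congrArg (fun P : M[X] => P.coeff (q * 0)) h
  simp only [coeff_add, coeff_C_mul, mul_zero, coeff_C_zero] at h1
  have h2 := hcoef 0
  rw [mul_zero, pow_zero, one_mul, Nat.choose_zero_right, Nat.cast_one, mul_one, Nat.sub_zero] at h2
  rw [h2] at h1
  have h3 : c = a * g.coeff 0 + b - (b ^ q) ^ m := by
    linear_combination h1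
  rw [h3]
  exact ((haalg.mul (hg 0)).add hbalg).sub ((hbalg.pow q).pow m)

end Pool.Agent.V7H78.UB
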